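import Mathlib

set_option autoImplicit false

open scoped Manifold ContDiff Topology
open Module Set Metric TopologicalSpace

/-!
Definitions for the question whether every closed simply connected 4-manifold admits an orbifold
singular Einstein metric: Einstein metrics, Einstein orbifolds with isolated singularities, and
resolutions.
-/

namespace Pool.Agent.H244R3.Orb

universe u

/-- The model space `ℝ⁴`. -/
abbrev E4 : Type := EuclideanSpace ℝ (Fin 4)

section Coordinates

/-- Koszul formula in coordinates. For a metric with the coefficients `g z a b` (`z` a point of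
`ℝ⁴`, `a`, `b` vectors), the value `g(∇_a b, c)` at the point `y`, where `a`, `b`, `c` are regarded
as constant vector fields. -/
noncomputable def koszul (g : E4 → E4 → E4 → ℝ) (y a b c : E4) : ℝ :=
  (fderiv ℝ (fun z => g z b c) y a + fderiv ℝ (fun z => g z a c) y b
    - fderiv ℝ (fun z => g z a b) y c) / 2

/-- The curvature `R(a, b) c = ∇_a ∇_b c - ∇_b ∇_a c` (for constant vector fields `a`, `b`, `c`) at
the point `y`, of the connection with the Christoffel symbols `Γ z a b = (∇_a b)(z)`. -/
noncomputable def riem (Γ : E4 → E4 → E4 → E4) (y a b c : E4) : E4 :=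
  fderiv ℝ (fun z => Γ z b c) y a - fderiv ℝ (fun z => Γ z a c) y b
    + Γ y a (Γ y b c) - Γ y b (Γ y a c)

/-- The Ricci curvature `Ric(b, c) = trace (a ↦ R(a, b) c)` at the point `y`. -/
noncomputable def ricci (Γ : E4 → E4 → E4 → E4) (y b c : E4) : ℝ :=
  ∑ i : Fin 4, riem Γ y (EuclideanSpace.single i 1) b c i

/-- The metric with the coefficients `g z a b`, given for `z` near the point `y`, satisfies the
Einstein equation `Ric = lam • g` at `y`: here `Γ` is its Levi-Civita connection near `y`. -/
def EinsteinAt (g : E4 → E4 → E4 → ℝ) (lam : ℝ) (y : E4) : Prop :=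
  ∃ Γ : E4 → E4 → E4 → E4, (∀ a b, DifferentiableAt ℝ (fun z => Γ z a b) y) ∧
    (∀ᶠ z in 𝓝 y, ∀ a b c, g z (Γ z a b) c = koszul g z a b c) ∧
    ∀ b c, ricci Γ y b c = lam * g y b c

end Coordinates

section Metrics

variable (N : Type*) [TopologicalSpace N] [ChartedSpace E4 N] [IsManifold (𝓡 4) ∞ N]

/-- The smooth Riemannian metrics on the 4-manifold `N`. -/
abbrev RMetric : Type _ :=
  Bundle.ContMDiffRiemannianMetric (𝓡 4) ∞ E4 (fun x : N => TangentSpace (𝓡 4) x)

variable {N}

/-- The value `B(a, b)` of the bilinear form `B` on `ℝ⁴`. -/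
noncomputable def formVal (B : E4 →L[ℝ] E4 →L[ℝ] ℝ) (a b : E4) : ℝ := B a b

/-- The inner product of the Riemannian metric `g` on the tangent space of `N` at `p` (which is, by
definition, the vector space `ℝ⁴`). -/
noncomputable def metricForm (g : RMetric N) (p : N) : E4 →L[ℝ] E4 →L[ℝ] ℝ := g.inner p

/-- The derivative of the map `ψ : ℝ⁴ → N` at the point `y` in the direction `a`. -/
noncomputable def pushVec (ψ : E4 → N) (y a : E4) : E4 :=
  (tangentMap (𝓡 4) (𝓡 4) ψ ⟨y, a⟩).2

/-- The coefficients of the pull back `ψ^* g` of the Riemannian metric `g` under a map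
`ψ : ℝ⁴ → N`: the value at the point `y` on the vectors `a`, `b`. -/
noncomputable def pullCoeff (g : RMetric N) (ψ : E4 → N) (y a b : E4) : ℝ :=
  formVal (metricForm g (ψ y)) (pushVec ψ y a) (pushVec ψ y b)

lemma pullCoeff_eq (g : RMetric N) (ψ : E4 → N) (y a b : E4) :
    pullCoeff g ψ y a b =
      g.inner (ψ y) (mfderiv (𝓡 4) (𝓡 4) ψ y a) (mfderiv (𝓡 4) (𝓡 4) ψ y b) := rfl

/-- `g` is an Einstein metric with Einstein constant `c`, i.e. `Ric = c • g`: the manifold is
covered by the images of local parametrisations `ψ : W → N` (local diffeomorphisms defined on open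
subsets `W` of `ℝ⁴`) in which the coefficients of `g` satisfy the Einstein equation. -/
def IsEinstein (g : RMetric N) (c : ℝ) : Prop :=
  ∀ p : N, ∃ (W : Set E4) (ψ : E4 → N), IsOpen W ∧ p ∈ ψ '' W ∧
    (∀ y ∈ W, IsLocalDiffeomorphAt (𝓡 4) (𝓡 4) ∞ ψ y) ∧ ∀ y ∈ W, EinsteinAt (pullCoeff g ψ) c y

end Metrics

section Orbifolds

variable {V : Type*} [TopologicalSpace V]
  {N : Type*} [TopologicalSpace N] [ChartedSpace E4 N] [IsManifold (𝓡 4) ∞ N]

/-- The linear isometries of `ℝ⁴`. -/
abbrev O4 : Type := E4 ≃ₗᵢ[ℝ] E4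

/-- The action of the linear isometries on `ℝ⁴`. -/
noncomputable def act (γ : O4) (x : E4) : E4 := γ x

/-- `Γ` is a nontrivial finite group of linear isometries of `ℝ⁴` which acts freely on the unit
sphere. -/
structure IsLocalGroup (Γ : Subgroup O4) : Prop where
  finite : Finite Γ
  ne_bot : Γ ≠ ⊥
  free : ∀ γ ∈ Γ, γ ≠ 1 → ∀ x ∈ sphere (0 : E4) 1, act γ x ≠ x

/-- The points `x`, `y` are in the same orbit of `Γ`. -/
def SameOrbit (Γ : Subgroup O4) (x y : E4) : Prop := ∃ γ ∈ Γ, act γ x = y

/-- `φ` maps the ball of radius `r` around `0` in `ℝ⁴` onto a neighbourhood of `q`, sends `0` to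
`q`, and induces a homeomorphism of the quotient of the ball by `Γ` onto this neighbourhood. -/
structure IsQuotientChart (Γ : Subgroup O4) (r : ℝ) (φ : E4 → V) (q : V) : Prop where
  r_pos : 0 < r
  zero : φ 0 = q
  continuousOn : ContinuousOn φ (ball 0 r)
  isOpen_image : ∀ O : Set E4, O ⊆ ball 0 r → IsOpen O → IsOpen (φ '' O)
  eq_iff : ∀ x ∈ ball (0 : E4) r, ∀ y ∈ ball (0 : E4) r, φ x = φ y ↔ SameOrbit Γ x y

/-- On the punctured ball `0 < |x| < r` the map `φ` into `V` is the composition of `incl` with the
local diffeomorphism `ψ` into `N`. -/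
structure IsRegularLift (incl : N → V) (r : ℝ) (φ : E4 → V) (ψ : E4 → N) : Prop where
  incl_eq : ∀ x ∈ ball (0 : E4) r, x ≠ 0 → incl (ψ x) = φ x
  localDiffeo : ∀ x ∈ ball (0 : E4) r, x ≠ 0 → IsLocalDiffeomorphAt (𝓡 4) (𝓡 4) ∞ ψ x

/-- `h` is a smooth Riemannian metric on the ball of radius `r` around `0` in `ℝ⁴`, given by its
coefficients `h x a b` at the point `x` on the vectors `a`, `b`. -/
structure IsMetricOnBall (r : ℝ) (h : E4 → E4 → E4 → ℝ) : Prop where
  smooth : ∀ a b, ContDiffOn ℝ ∞ (fun x => h x a b) (ball 0 r)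
  add : ∀ x ∈ ball (0 : E4) r, ∀ a a' b, h x (a + a') b = h x a b + h x a' b
  smul : ∀ x ∈ ball (0 : E4) r, ∀ (t : ℝ) (a b : E4), h x (t • a) b = t * h x a b
  symm : ∀ x ∈ ball (0 : E4) r, ∀ a b, h x a b = h x b a
  pos : ∀ x ∈ ball (0 : E4) r, ∀ a, a ≠ 0 → 0 < h x a a

/-- The local model of a metric orbifold at an isolated singular point `q` of the space `V`, whose
regular part is the image of the 4-manifold `N` with the metric `g` under `incl : N → V`: a
neighbourhood of `q` is, by a quotient map `φ`, the quotient of a ball around `0` in `ℝ⁴` by a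
nontrivial finite group `Γ` of linear isometries acting freely on the unit sphere, `φ` lifts off
`0` to a local diffeomorphism `ψ` into the regular part, and the pulled back metric `ψ^* g` extends
to a smooth Riemannian metric `h` on the ball. -/
def HasLocalModel (incl : N → V) (g : RMetric N) (q : V) : Prop :=
  ∃ (Γ : Subgroup O4) (r : ℝ) (φ : E4 → V) (ψ : E4 → N) (h : E4 → E4 → E4 → ℝ),
    IsLocalGroup Γ ∧ IsQuotientChart Γ r φ q ∧ IsRegularLift incl r φ ψ ∧ IsMetricOnBall r h ∧
    ∀ x ∈ ball (0 : E4) r, x ≠ 0 → ∀ a b, h x a b = pullCoeff g ψ x a b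

/-- `V` is a compact Einstein orbifold of dimension four whose singular points are the elements of
the finite set `S`: the regular part `V ∖ S` is the homeomorphic image, under `incl`, of the smooth
4-manifold `N`, the smooth Riemannian metric `g` on `N` satisfies `Ric = c • g`, and every point
of `S` has a local model. -/
structure IsEinsteinOrbifold (S : Set V) (incl : N → V) (g : RMetric N) (c : ℝ) : Prop where
  t2 : T2Space V
  compact : CompactSpace V
  finite : S.Finite
  isOpenEmbedding : Topology.IsOpenEmbedding incl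
  range_incl : range incl = Sᶜ
  einstein : IsEinstein g c
  local_model : ∀ q ∈ S, HasLocalModel incl g q

variable {M : Type*} [TopologicalSpace M] [ChartedSpace E4 M] [IsManifold (𝓡 4) ∞ M]

/-- `π : M → V` is a resolution of the orbifold `V` with the singular set `S` and the regular part
`incl : N → V`: it is continuous and surjective, the preimages of the singular points are compact
and connected, and `π` restricts to a diffeomorphism of the complement `U` of these preimages onto
the regular part. -/
structure IsResolution (S : Set V) (incl : N → V) (π : M → V) : Prop where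
  continuous : Continuous π
  surjective : Function.Surjective π
  compact_connected : ∀ q ∈ S, IsCompact (π ⁻¹' {q}) ∧ IsConnected (π ⁻¹' {q})
  diffeo : ∃ (U : Opens M) (e : Diffeomorph (𝓡 4) (𝓡 4) U N ∞),
    (U : Set M) = (π ⁻¹' S)ᶜ ∧ ∀ x : U, incl (e x) = π x

/-- The closed 4-manifold `M` admits an orbifold singular Einstein metric `π^* g`: there are a
compact Einstein orbifold `V` (with singular set `S`, regular part `N`, Einstein metric `g` and
Einstein constant `c`) and a resolution `π : M → V`. -/
def AdmitsOrbifoldSingularEinsteinMetric (M : Type u) [TopologicalSpace M] [ChartedSpace E4 M]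
    [IsManifold (𝓡 4) ∞ M] : Prop :=
  ∃ (V : Type u) (_ : TopologicalSpace V) (N : Type u) (_ : TopologicalSpace N)
    (_ : ChartedSpace E4 N) (_ : IsManifold (𝓡 4) ∞ N) (S : Set V) (incl : N → V) (g : RMetric N)
    (c : ℝ) (π : M → V), IsEinsteinOrbifold S incl g c ∧ IsResolution S incl π

end Orbifolds

end Pool.Agent.H244R3.Orb
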