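import Pool.Agent.H244R3.OrbInv

set_option autoImplicit false
set_option linter.unusedSectionVars false

open scoped Manifold ContDiff Topology RealInnerProductSpace
open Module Set Metric TopologicalSpace

/-!
Construction of an Einstein orbifold and a resolution from a covering map of `ℝ⁴ ∖ {0}` onto an open
subset of a closed manifold.
-/

namespace Pool.Agent.H244R3.Orb

universe u

variable {M : Type u} [TopologicalSpace M] [ChartedSpace E4 M] [IsManifold (𝓡 4) ∞ M]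

section LM

variable {V : Type*} [TopologicalSpace V]
  {N : Type*} [TopologicalSpace N] [ChartedSpace E4 N] [IsManifold (𝓡 4) ∞ N]

/-- An auxiliary form of the local model of a metric orbifold at an isolated singular point `q` of the space `V`, whose
regular part is the image of the 4-manifold `N` with the metric `g` under `incl : N → V`: a
nontrivial finite group `Γ` of linear isometries of `ℝ⁴` which acts freely on the unit sphere, a
ball `B` around `0` in `ℝ⁴`, and a map `φ` of `B` onto a neighbourhood of `q` which induces a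
homeomorphism of `B / Γ` onto this neighbourhood, sends `0` to `q` and lifts on `B ∖ {0}` to a
local diffeomorphism `ψ` into the regular part, such that the pulled back metric `ψ^* g` is the
restriction to `B ∖ {0}` of a smooth Riemannian metric `h` on `B`. -/
structure LocalModel (incl : N → V) (g : RMetric N) (q : V) where
  /-- the local group -/
  Γ : Subgroup (E4 ≃ₗᵢ[ℝ] E4)
  finite_Γ : Finite Γ
  nontrivial_Γ : Γ ≠ ⊥
  free : ∀ γ ∈ Γ, γ ≠ 1 → ∀ x ∈ sphere (0 : E4) 1, γ x ≠ x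
  /-- the radius of the ball -/
  r : ℝ
  r_pos : 0 < r
  /-- the quotient map of the ball onto a neighbourhood of `q` -/
  φ : E4 → V
  φ_zero : φ 0 = q
  continuousOn_φ : ContinuousOn φ (ball 0 r)
  open_φ : ∀ O : Set E4, O ⊆ ball 0 r → IsOpen O → IsOpen (φ '' O)
  φ_eq_iff : ∀ x ∈ ball (0 : E4) r, ∀ y ∈ ball (0 : E4) r, φ x = φ y ↔ ∃ γ ∈ Γ, γ x = y
  /-- its lift to the regular part -/
  ψ : E4 → N
  incl_ψ : ∀ x ∈ ball (0 : E4) r, x ≠ 0 → incl (ψ x) = φ x
  localDiffeo : ∀ x ∈ ball (0 : E4) r, x ≠ 0 → IsLocalDiffeomorphAt (𝓡 4) (𝓡 4) ∞ ψ x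
  /-- the smooth extension of the pulled back metric -/
  h : E4 → E4 →L[ℝ] E4 →L[ℝ] ℝ
  smooth_h : ContDiffOn ℝ ∞ h (ball 0 r)
  symm_h : ∀ x ∈ ball (0 : E4) r, ∀ a b, h x a b = h x b a
  pos_h : ∀ x ∈ ball (0 : E4) r, ∀ a, a ≠ 0 → 0 < h x a a
  h_eq : ∀ x ∈ ball (0 : E4) r, x ≠ 0 → ∀ a b, h x a b = pullCoeff g ψ x a b

lemma LocalModel.has {incl : N → V} {g : RMetric N} {q : V} (L : LocalModel incl g q) :
    HasLocalModel incl g q := by
  refine ⟨L.Γ, L.r, L.φ, L.ψ, fun x a b => L.h x a b, ⟨L.finite_Γ, L.nontrivial_Γ, L.free⟩,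
    ⟨L.r_pos, L.φ_zero, L.continuousOn_φ, L.open_φ, L.φ_eq_iff⟩, ⟨L.incl_ψ, L.localDiffeo⟩,
    ⟨?_, ?_, ?_, L.symm_h, L.pos_h⟩, L.h_eq⟩
  · intro a b
    exact (L.smooth_h.clm_apply contDiffOn_const).clm_apply contDiffOn_const
  · intro x _ a a' b
    show L.h x (a + a') b = L.h x a b + L.h x a' b
    rw [map_add]
    rfl
  · intro x _ t a b
    show L.h x (t • a) b = t * L.h x a b
    rw [map_smul]
    rfl

end LM

/-- The data for the construction. -/
structure Data (Γ : Subgroup (E4 ≃ₗᵢ[ℝ] E4)) (F : E4 → M) (D1 D2 : Set M) : Prop where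
  fin : Finite Γ
  nontriv : Γ ≠ ⊥
  free : ∀ γ ∈ Γ, γ ≠ 1 → ∀ x ∈ sphere (0 : E4) 1, γ x ≠ x
  ld : ∀ x, x ≠ 0 → IsLocalDiffeomorphAt (𝓡 4) (𝓡 4) ∞ F x
  eq : ∀ x y, x ≠ 0 → y ≠ 0 → F x = F y → ∃ γ ∈ Γ, γ x = y
  inv : ∀ γ ∈ Γ, ∀ x, x ≠ 0 → F (γ x) = F x
  conn1 : IsConnected D1
  conn2 : IsConnected D2
  disj : ∀ p, p ∈ D1 → p ∉ D2
  not1 : ∀ x, x ≠ 0 → F x ∉ D1
  not2 : ∀ x, x ≠ 0 → F x ∉ D2
  cover : ∀ p, p ∈ D1 ∨ p ∈ D2 ∨ ∃ x, x ≠ 0 ∧ F x = p
  open1 : ∀ ρ : ℝ, 0 < ρ → IsOpen (D1 ∪ F '' {x | x ≠ 0 ∧ ‖x‖ < ρ})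
  open2 : ∀ ρ : ℝ, 0 < ρ → IsOpen (D2 ∪ F '' {x | ρ < ‖x‖})

variable {Γ : Subgroup (E4 ≃ₗᵢ[ℝ] E4)} {F : E4 → M} {D1 D2 : Set M}

lemma isOpen_image_of_ld {N : Type*} [TopologicalSpace N] [ChartedSpace E4 N] {F : E4 → N}
    {O : Set E4} (hO : IsOpen O)
    (h : ∀ x ∈ O, IsLocalDiffeomorphAt (𝓡 4) (𝓡 4) ∞ F x) : IsOpen (F '' O) := by
  rw [isOpen_iff_mem_nhds]
  rintro _ ⟨x, hx, rfl⟩
  obtain ⟨Φ, hxΦ, hΦ⟩ := h x hx
  have h1 : O ∩ Φ.source ∈ 𝓝 x := Filter.inter_mem (hO.mem_nhds hx) (Φ.open_source.mem_nhds hxΦ)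
  have h2 := Φ.toOpenPartialHomeomorph.image_mem_nhds hxΦ h1
  have h3 : Φ.toOpenPartialHomeomorph x = F x := (hΦ hxΦ).symm
  rw [h3] at h2
  refine Filter.mem_of_superset h2 ?_
  rintro _ ⟨z, ⟨hz1, hz2⟩, rfl⟩
  exact ⟨z, hz1, hΦ hz2⟩

namespace Data

lemma norm_eq (h : Data Γ F D1 D2) {x y : E4} (hx : x ≠ 0) (hy : y ≠ 0) (hxy : F x = F y) :
    ‖x‖ = ‖y‖ := by
  obtain ⟨γ, -, rfl⟩ := h.eq x y hx hy hxy
  rw [γ.norm_map]

lemma ne_of_lt {x : E4} {ρ : ℝ} (hρ : 0 < ρ) (hx : ρ < ‖x‖) : x ≠ 0 := by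
  rintro rfl
  rw [norm_zero] at hx
  exact lt_asymm hρ hx

lemma swap (h : Data Γ F D1 D2) : Data Γ (F ∘ io) D2 D1 where
  fin := h.fin
  nontriv := h.nontriv
  free := h.free
  ld x hx := (ld_io hx).comp (𝓡 4) M (h.ld _ (io_ne hx))
  eq x y hx hy hxy := by
    obtain ⟨γ, hγ, h1⟩ := h.eq _ _ (io_ne hx) (io_ne hy) hxy
    refine ⟨γ, hγ, ?_⟩
    rw [← io_isometry] at h1
    have := congrArg io h1
    rwa [io_io, io_io] at this
  inv γ hγ x hx := by
    show F (io (γ x)) = F (io x)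
    rw [io_isometry, h.inv γ hγ _ (io_ne hx)]
  conn1 := h.conn2
  conn2 := h.conn1
  disj p h1 h2 := h.disj p h2 h1
  not1 x hx := h.not2 _ (io_ne hx)
  not2 x hx := h.not1 _ (io_ne hx)
  cover p := by
    rcases h.cover p with h1 | h1 | ⟨x, hx, rfl⟩
    · exact Or.inr (Or.inl h1)
    · exact Or.inl h1
    · exact Or.inr (Or.inr ⟨io x, io_ne hx, by simp [io_io]⟩)
  open1 ρ hρ := by
    convert h.open2 ρ⁻¹ (inv_pos.2 hρ) using 2
    ext p
    constructor
    · rintro ⟨x, ⟨hx, hx'⟩, rfl⟩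
      refine ⟨io x, ?_, rfl⟩
      show ρ⁻¹ < ‖io x‖
      rw [norm_io]
      exact (inv_lt_inv₀ hρ (norm_pos_iff.2 hx)).2 hx'
    · rintro ⟨x, hx, rfl⟩
      have hx0 : x ≠ 0 := ne_of_lt (inv_pos.2 hρ) hx
      refine ⟨io x, ⟨io_ne hx0, ?_⟩, by simp [io_io]⟩
      rw [norm_io]
      exact inv_lt_of_inv_lt₀ hρ hx
  open2 ρ hρ := by
    convert h.open1 ρ⁻¹ (inv_pos.2 hρ) using 2
    ext p
    constructor
    · rintro ⟨x, hx, rfl⟩
      have hx0 : x ≠ 0 := ne_of_lt hρ hx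
      refine ⟨io x, ⟨io_ne hx0, ?_⟩, rfl⟩
      rw [norm_io]
      exact (inv_lt_inv₀ (norm_pos_iff.2 hx0) hρ).2 hx
    · rintro ⟨x, ⟨hx, hx'⟩, rfl⟩
      refine ⟨io x, ?_, by simp [io_io]⟩
      show ρ < ‖io x‖
      rw [norm_io]
      exact (lt_inv_comm₀ hρ (norm_pos_iff.2 hx)).2 hx'

lemma mem_outer (h : Data Γ F D1 D2) {q : M} (hq : q ∉ D1) :
    ∃ ρ : ℝ, 0 < ρ ∧ q ∈ D2 ∪ F '' {x | ρ < ‖x‖} := by
  rcases h.cover q with h1 | h1 | ⟨x, hx, rfl⟩
  · exact absurd h1 hq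
  · exact ⟨1, one_pos, Or.inl h1⟩
  · have : 0 < ‖x‖ := norm_pos_iff.2 hx
    exact ⟨‖x‖ / 2, by positivity, Or.inr ⟨x, by show ‖x‖ / 2 < ‖x‖; linarith, rfl⟩⟩

lemma disjoint_sets (h : Data Γ F D1 D2) {ρ : ℝ} (hρ : 0 < ρ) :
    Disjoint (D1 ∪ F '' {x | x ≠ 0 ∧ ‖x‖ < ρ}) (D2 ∪ F '' {x | ρ < ‖x‖}) := by
  rw [Set.disjoint_left]
  rintro p (h1 | ⟨x, ⟨hx, hx'⟩, rfl⟩) (h2 | ⟨y, hy, hxy⟩)
  · exact h.disj p h1 h2
  · exact h.not1 y (ne_of_lt hρ hy) (hxy ▸ h1)
  · exact h.not2 x hx h2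
  · have h3 := h.norm_eq (ne_of_lt hρ hy) hx hxy
    have h4 : ρ < ‖y‖ := hy
    linarith

lemma small [CompactSpace M] (h : Data Γ F D1 D2) {O : Set M} (hO : IsOpen O) (hD : D1 ⊆ O) :
    ∃ ρ : ℝ, 0 < ρ ∧ ∀ x, x ≠ 0 → ‖x‖ < ρ → F x ∈ O := by
  have hc : IsCompact Oᶜ := hO.isClosed_compl.isCompact
  obtain ⟨n, hn⟩ := hc.elim_directed_cover
    (fun n : ℕ => D2 ∪ F '' {x | (1 / ((n : ℝ) + 1)) < ‖x‖})
    (fun n => h.open2 _ (by positivity)) (by
      intro q hq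
      obtain ⟨ρ, hρ, h1⟩ := h.mem_outer (fun h2 => hq (hD h2))
      obtain ⟨n, hn⟩ := exists_nat_one_div_lt hρ
      refine mem_iUnion.2 ⟨n, ?_⟩
      rcases h1 with h1 | ⟨x, hx, rfl⟩
      · exact Or.inl h1
      · exact Or.inr ⟨x, lt_trans hn hx, rfl⟩) (by
      intro m n
      refine ⟨max m n, ?_, ?_⟩
      · rintro q (h1 | ⟨x, hx, rfl⟩)
        · exact Or.inl h1
        · refine Or.inr ⟨x, lt_of_le_of_lt (b := 1 / ((_ : ℝ) + 1)) ?_ hx, rfl⟩
          apply one_div_le_one_div_of_le (by positivity)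
          have : (m : ℝ) ≤ (max m n : ℕ) := by exact_mod_cast le_max_left m n
          linarith
      · rintro q (h1 | ⟨x, hx, rfl⟩)
        · exact Or.inl h1
        · refine Or.inr ⟨x, lt_of_le_of_lt (b := 1 / ((_ : ℝ) + 1)) ?_ hx, rfl⟩
          apply one_div_le_one_div_of_le (by positivity)
          have : (n : ℝ) ≤ (max m n : ℕ) := by exact_mod_cast le_max_right m n
          linarith)
  refine ⟨1 / ((n : ℝ) + 1), by positivity, fun x hx hx' => ?_⟩
  by_contra hne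
  have h1 := Set.disjoint_left.1 (h.disjoint_sets (show (0 : ℝ) < 1 / ((n : ℝ) + 1) by positivity))
    (Or.inr ⟨x, ⟨hx, hx'⟩, rfl⟩)
  exact h1 (hn hne)

/-- The local model at the point which is the image of `D1`. -/
noncomputable def localModel [CompactSpace M] (h : Data Γ F D1 D2) {V : Type*}
    [TopologicalSpace V] (π : M → V) (hπ : Topology.IsQuotientMap π)
    (hr : ∀ p q, π p = π q ↔ p = q ∨ (p ∈ D1 ∧ q ∈ D1) ∨ (p ∈ D2 ∧ q ∈ D2))
    (U : Opens M) (P : E4 → U) (hP : ∀ x, x ≠ 0 → (P x : M) = F x)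
    (hld : ∀ x, x ≠ 0 → IsLocalDiffeomorphAt (𝓡 4) (𝓡 4) ∞ P x)
    (g : RMetric U) (hg : ∀ x, x ≠ 0 → ∀ a b, pullCoeff g P x a b = G x a b) (d : M)
    (hd : d ∈ D1) : LocalModel (fun p : U => π p) g (π d) where
  Γ := Γ
  finite_Γ := h.fin
  nontrivial_Γ := h.nontriv
  free := h.free
  r := 1
  r_pos := one_pos
  φ := by
    classical
    exact fun x => if x = 0 then π d else π (F x)
  φ_zero := by simp
  continuousOn_φ := by
    intro x _
    apply ContinuousAt.continuousWithinAt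
    rcases eq_or_ne x 0 with rfl | hx
    · rw [ContinuousAt, Filter.tendsto_def]
      intro W hW
      simp only [if_true] at hW
      obtain ⟨W', h1, h2, h3⟩ := mem_nhds_iff.1 hW
      have h4 : D1 ⊆ π ⁻¹' W' := by
        intro p hp
        have : π p = π d := (hr p d).2 (Or.inr (Or.inl ⟨hp, hd⟩))
        show π p ∈ W'
        rw [this]
        exact h3
      obtain ⟨ρ, hρ, h5⟩ := h.small (h2.preimage hπ.continuous) h4
      refine Filter.mem_of_superset (ball_mem_nhds 0 hρ) ?_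
      intro z hz
      show (if z = 0 then π d else π (F z)) ∈ W
      split_ifs with h6
      · exact h1 h3
      · exact h1 (h5 z h6 (by simpa using hz))
    · have h1 : (fun x => if x = 0 then π d else π (F x)) =ᶠ[𝓝 x] fun x => π (F x) := by
        filter_upwards [isOpen_compl_singleton.mem_nhds hx] with z hz
        exact if_neg hz
      refine ContinuousAt.congr ?_ h1.symm
      exact hπ.continuous.continuousAt.comp (h.ld x hx).contMDiffAt.continuousAt
  open_φ := by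
    intro O _ hO
    rw [← hπ.isOpen_preimage]
    have hOe : IsOpen (F '' (O \ {0})) :=
      isOpen_image_of_ld (hO.sdiff isClosed_singleton) fun x hx => h.ld x hx.2
    by_cases h0 : (0 : E4) ∈ O
    · obtain ⟨δ, hδ, h1⟩ := Metric.isOpen_iff.1 hO 0 h0
      have : π ⁻¹' ((fun x => if x = 0 then π d else π (F x)) '' O) =
          F '' (O \ {0}) ∪ (D1 ∪ F '' {x | x ≠ 0 ∧ ‖x‖ < δ}) := by
        ext p
        constructor
        · rintro ⟨x, hx, hxp⟩
          rcases eq_or_ne x 0 with rfl | hx0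
          · simp only [if_true] at hxp
            rcases (hr d p).1 hxp with h2 | ⟨-, h2⟩ | ⟨h2, -⟩
            · exact Or.inr (Or.inl (h2 ▸ hd))
            · exact Or.inr (Or.inl h2)
            · exact absurd h2 (h.disj d hd)
          · simp only [if_neg hx0] at hxp
            rcases (hr _ p).1 hxp with h2 | ⟨h2, -⟩ | ⟨h2, -⟩
            · exact Or.inl ⟨x, ⟨hx, hx0⟩, h2⟩
            · exact absurd h2 (h.not1 x hx0)
            · exact absurd h2 (h.not2 x hx0)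
        · rintro (⟨x, ⟨hx, hx0⟩, rfl⟩ | h2 | ⟨x, ⟨hx0, hx⟩, rfl⟩)
          · exact ⟨x, hx, if_neg hx0⟩
          · refine ⟨0, h0, ?_⟩
            simp only [if_true]
            exact (hr d p).2 (Or.inr (Or.inl ⟨hd, h2⟩))
          · exact ⟨x, h1 (by simpa using hx), if_neg hx0⟩
      rw [this]
      exact hOe.union (h.open1 δ hδ)
    · have : π ⁻¹' ((fun x => if x = 0 then π d else π (F x)) '' O) = F '' (O \ {0}) := by
        ext p
        constructor
        · rintro ⟨x, hx, hxp⟩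
          have hx0 : x ≠ 0 := by
            rintro rfl
            exact h0 hx
          simp only [if_neg hx0] at hxp
          rcases (hr _ p).1 hxp with h2 | ⟨h2, -⟩ | ⟨h2, -⟩
          · exact ⟨x, ⟨hx, hx0⟩, h2⟩
          · exact absurd h2 (h.not1 x hx0)
          · exact absurd h2 (h.not2 x hx0)
        · rintro ⟨x, ⟨hx, hx0⟩, rfl⟩
          exact ⟨x, hx, if_neg hx0⟩
      rw [this]
      exact hOe
  φ_eq_iff := by
    intro x _ y _
    rcases eq_or_ne x 0 with rfl | hx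
    · rcases eq_or_ne y 0 with rfl | hy
      · simp only [true_iff]
        exact ⟨1, Γ.one_mem, by simp⟩
      · simp only [if_true, if_neg hy]
        constructor
        · intro h1
          rcases (hr _ _).1 h1 with h2 | ⟨-, h2⟩ | ⟨-, h2⟩
          · exact absurd (h2 ▸ hd) (h.not1 y hy)
          · exact absurd h2 (h.not1 y hy)
          · exact absurd h2 (h.not2 y hy)
        · rintro ⟨γ, -, h1⟩
          rw [map_zero] at h1
          exact absurd h1.symm hy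
    · rcases eq_or_ne y 0 with rfl | hy
      · simp only [if_true, if_neg hx]
        constructor
        · intro h1
          rcases (hr _ _).1 h1 with h2 | ⟨h2, -⟩ | ⟨h2, -⟩
          · exact absurd (h2 ▸ hd) (h.not1 x hx)
          · exact absurd h2 (h.not1 x hx)
          · exact absurd h2 (h.not2 x hx)
        · rintro ⟨γ, -, h1⟩
          exact absurd ((map_eq_zero_iff γ γ.injective).1 h1) hx
      · simp only [if_neg hx, if_neg hy]
        constructor
        · intro h1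
          rcases (hr _ _).1 h1 with h2 | ⟨h2, -⟩ | ⟨h2, -⟩
          · exact h.eq x y hx hy h2
          · exact absurd h2 (h.not1 x hx)
          · exact absurd h2 (h.not2 x hx)
        · rintro ⟨γ, hγ, rfl⟩
          rw [h.inv γ hγ x hx]
  ψ := P
  incl_ψ := by
    intro x _ hx
    simp only [if_neg hx]
    rw [hP x hx]
  localDiffeo := fun x _ hx => hld x hx
  h := G
  smooth_h := contDiff_G.contDiffOn
  symm_h := fun x _ a b => G_symm x a b
  pos_h := fun x _ a ha => G_pos x a ha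
  h_eq := fun x _ hx a b => (hg x hx a b).symm

end Data

end Pool.Agent.H244R3.Orb
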