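import Pool.Agent.H244R3.OrbLoc

set_option autoImplicit false
set_option linter.unusedSimpArgs false

open Module Set Metric
open scoped Manifold ContDiff Topology

/-!
The map `ff` is an immersion of `ℝ⁴ ∖ {0}`, hence a local diffeomorphism.
-/

namespace Pool.Agent.H244R3.Orb

/-- The derivative at `0` of `(√3 A α + B β) / s²` when `α` and `β` vanish at `0`. -/
lemma quot_deriv {A B α β s : ℝ → ℝ} {α' β' : ℝ} (hA : DifferentiableAt ℝ A 0)
    (hB : DifferentiableAt ℝ B 0) (hα : HasDerivAt α α' 0) (hβ : HasDerivAt β β' 0)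
    (hα0 : α 0 = 0) (hβ0 : β 0 = 0) (hs : DifferentiableAt ℝ s 0) (hs0 : s 0 ≠ 0) :
    HasDerivAt (fun t => (s t ^ 2)⁻¹ * (r3 * A t * α t + B t * β t))
      ((s 0 ^ 2)⁻¹ * (r3 * A 0 * α' + B 0 * β')) 0 := by
  have h1 : DifferentiableAt ℝ (fun t => (s t ^ 2)⁻¹) 0 := (hs.fun_pow 2).fun_inv (by positivity)
  have h2 := ((hA.hasDerivAt.const_mul r3).fun_mul hα).fun_add (hB.hasDerivAt.fun_mul hβ)
  have h3 := h1.hasDerivAt.fun_mul h2
  refine h3.congr_deriv ?_
  rw [hα0, hβ0]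
  ring

/-- The curve `t ↦ (r + t h₀, t h₁, t h₂, t h₃)`. -/
noncomputable def cv (r : ℝ) (h : E4) (t : ℝ) : E4 := !₂[r + t * h 0, t * h 1, t * h 2, t * h 3]

lemma cv0 (r : ℝ) (h : E4) (t : ℝ) : cv r h t 0 = r + t * h 0 := rfl
lemma cv1 (r : ℝ) (h : E4) (t : ℝ) : cv r h t 1 = t * h 1 := rfl
lemma cv2 (r : ℝ) (h : E4) (t : ℝ) : cv r h t 2 = t * h 2 := rfl
lemma cv3 (r : ℝ) (h : E4) (t : ℝ) : cv r h t 3 = t * h 3 := rfl

lemma cv_eq (r : ℝ) (h : E4) (t : ℝ) : cv r h t = cv r h 0 + t • h := by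
  have ha : ∀ (x y : E4) (i : Fin 4), (x + y) i = x i + y i := fun _ _ _ => rfl
  have hb : ∀ (c : ℝ) (y : E4) (i : Fin 4), (c • y) i = c * y i := fun _ _ _ => rfl
  apply ext4 <;> simp only [ha, hb, cv0, cv1, cv2, cv3] <;> ring

lemma cv_zero_ne {r : ℝ} (hr : 0 < r) (h : E4) : cv r h 0 ≠ 0 := by
  intro h0
  have := congrArg (fun v : E4 => v 0) h0
  simp only [cv0] at this
  have h2 : r + 0 * h 0 = 0 := this
  linarith

lemma hasDerivAt_cv (r : ℝ) (h : E4) : HasDerivAt (cv r h) h 0 := by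
  have h1 : cv r h = fun t => cv r h 0 + t • h := by
    funext t
    exact cv_eq r h t
  rw [h1]
  have h2 := ((hasDerivAt_id (0 : ℝ)).smul_const h).const_add (cv r h 0)
  refine h2.congr_deriv ?_
  simp

lemma da (F : E4 → ℝ) (hF : ContDiff ℝ ∞ F) (r : ℝ) (h : E4) :
    DifferentiableAt ℝ (fun t => F (cv r h t)) 0 :=
  DifferentiableAt.comp 0 (hF.differentiable (by simp) _) (hasDerivAt_cv r h).differentiableAt

section derivs

variable (r : ℝ) (h : E4)

lemma H0 : HasDerivAt (fun t => cv r h t 0) (h 0) 0 := by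
  have := ((hasDerivAt_id (0 : ℝ)).mul_const (h 0)).const_add r
  simpa [cv0] using this
lemma H1 : HasDerivAt (fun t => cv r h t 1) (h 1) 0 := by
  have := (hasDerivAt_id (0 : ℝ)).mul_const (h 1)
  simpa [cv1] using this
lemma H2 : HasDerivAt (fun t => cv r h t 2) (h 2) 0 := by
  have := (hasDerivAt_id (0 : ℝ)).mul_const (h 2)
  simpa [cv2] using this
lemma H3 : HasDerivAt (fun t => cv r h t 3) (h 3) 0 := by
  have := (hasDerivAt_id (0 : ℝ)).mul_const (h 3)
  simpa [cv3] using this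

lemma D_a1 : HasDerivAt (fun t => a1 (cv r h t)) (2 * r * h 0) 0 := by
  have := ((((H0 r h).fun_pow 2).fun_add ((H1 r h).fun_pow 2)).fun_sub
    ((H2 r h).fun_pow 2)).fun_sub ((H3 r h).fun_pow 2)
  refine this.congr_deriv ?_
  simp only [cv0, cv1, cv2, cv3]
  ring
lemma D_a2 : HasDerivAt (fun t => a2 (cv r h t)) (2 * r * h 3) 0 := by
  have := (((H1 r h).fun_mul (H2 r h)).fun_add ((H0 r h).fun_mul (H3 r h))).const_mul 2
  refine this.congr_deriv ?_
  simp only [cv0, cv1, cv2, cv3]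
  ring
lemma D_a3 : HasDerivAt (fun t => a3 (cv r h t)) (-(2 * r * h 2)) 0 := by
  have := (((H1 r h).fun_mul (H3 r h)).fun_sub ((H0 r h).fun_mul (H2 r h))).const_mul 2
  refine this.congr_deriv ?_
  simp only [cv0, cv1, cv2, cv3]
  ring
lemma D_b1 : HasDerivAt (fun t => b1 (cv r h t)) (-(2 * r * h 3)) 0 := by
  have := (((H1 r h).fun_mul (H2 r h)).fun_sub ((H0 r h).fun_mul (H3 r h))).const_mul 2
  refine this.congr_deriv ?_
  simp only [cv0, cv1, cv2, cv3]
  ring
lemma D_b2 : HasDerivAt (fun t => b2 (cv r h t)) (2 * r * h 0) 0 := by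
  have := ((((H0 r h).fun_pow 2).fun_sub ((H1 r h).fun_pow 2)).fun_add
    ((H2 r h).fun_pow 2)).fun_sub ((H3 r h).fun_pow 2)
  refine this.congr_deriv ?_
  simp only [cv0, cv1, cv2, cv3]
  ring
lemma D_b3 : HasDerivAt (fun t => b3 (cv r h t)) (2 * r * h 1) 0 := by
  have := (((H2 r h).fun_mul (H3 r h)).fun_add ((H0 r h).fun_mul (H1 r h))).const_mul 2
  refine this.congr_deriv ?_
  simp only [cv0, cv1, cv2, cv3]
  ring
lemma D_c1 : HasDerivAt (fun t => c1 (cv r h t)) (2 * r * h 2) 0 := by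
  have := (((H1 r h).fun_mul (H3 r h)).fun_add ((H0 r h).fun_mul (H2 r h))).const_mul 2
  refine this.congr_deriv ?_
  simp only [cv0, cv1, cv2, cv3]
  ring
lemma D_c2 : HasDerivAt (fun t => c2 (cv r h t)) (-(2 * r * h 1)) 0 := by
  have := (((H2 r h).fun_mul (H3 r h)).fun_sub ((H0 r h).fun_mul (H1 r h))).const_mul 2
  refine this.congr_deriv ?_
  simp only [cv0, cv1, cv2, cv3]
  ring
lemma D_c3 : HasDerivAt (fun t => c3 (cv r h t)) (2 * r * h 0) 0 := by
  have := ((((H0 r h).fun_pow 2).fun_sub ((H1 r h).fun_pow 2)).fun_sub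
    ((H2 r h).fun_pow 2)).fun_add ((H3 r h).fun_pow 2)
  refine this.congr_deriv ?_
  simp only [cv0, cv1, cv2, cv3]
  ring

lemma V : a1 (cv r h 0) = r ^ 2 ∧ a2 (cv r h 0) = 0 ∧ a3 (cv r h 0) = 0 ∧ b1 (cv r h 0) = 0 ∧
    b2 (cv r h 0) = r ^ 2 ∧ b3 (cv r h 0) = 0 ∧ c1 (cv r h 0) = 0 ∧ c2 (cv r h 0) = 0 ∧
    c3 (cv r h 0) = r ^ 2 ∧ sq (cv r h 0) = r ^ 2 := by
  simp only [a1, a2, a3, b1, b2, b3, c1, c2, c3, sq, cv0, cv1, cv2, cv3]
  refine ⟨?_, ?_, ?_, ?_, ?_, ?_, ?_, ?_, ?_, ?_⟩ <;> ring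

end derivs

/-- Injectivity of the derivative at the points of the positive real axis. -/
lemma inj_real {r : ℝ} (hr : 0 < r) (h : E4)
    (h1 : HasDerivAt (fun t => Nn (cv r h t) 0) 0 0)
    (h2 : HasDerivAt (fun t => Nn (cv r h t) 1) 0 0)
    (h3 : HasDerivAt (fun t => Nn (cv r h t) 2) 0 0)
    (h4 : HasDerivAt (fun t => W (Nn (cv r h t)) ![1, 0, 0] ![1, 0, 0]) 0 0) : h = 0 := by
  obtain ⟨v1, v2, v3, v4, v5, v6, v7, v8, v9, v10⟩ := V r h
  have hne := cv_zero_ne hr h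
  have hA : DifferentiableAt ℝ (fun t => CC (dd (sq (cv r h t)))) 0 :=
    DifferentiableAt.comp (g := fun x : E4 => CC (dd (sq x))) 0
      ((cd_CCsq _).differentiableAt (by simp)) (hasDerivAt_cv r h).differentiableAt
  have hB : DifferentiableAt ℝ (fun t => dd (sq (cv r h t))) 0 :=
    DifferentiableAt.comp (g := fun x : E4 => dd (sq x)) 0
      ((cd_ddsq _).differentiableAt (by simp)) (hasDerivAt_cv r h).differentiableAt
  have hs : DifferentiableAt ℝ (fun t => sq (cv r h t)) 0 := da sq cd_sq r h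
  have hs0 : sq (cv r h 0) ≠ 0 := (sq_pos hne).ne'
  have hf := dd_facts (x := cv r h 0)
  have hd0 : 0 < dd (sq (cv r h 0)) := dd_pos (sq_pos hne)
  have hlt := lt_CC hf.1 hf.2.2
  have hr3 : (0 : ℝ) < 2 * r ^ 3 := by positivity
  have hsi : (sq (cv r h 0) ^ 2)⁻¹ ≠ 0 := inv_ne_zero (pow_ne_zero 2 hs0)
  have hC0 := CC_nonneg (dd (sq (cv r h 0)))
  have hr3C := mul_nonneg r3_pos.le hC0
  set C0 := CC (dd (sq (cv r h 0))) with hC0def
  set d0 := dd (sq (cv r h 0)) with hd0def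
  -- the component `h 3`
  have k3 : h 3 = 0 := by
    have e1 := quot_deriv hA hB ((D_a1 r h).fun_mul (D_a2 r h))
      (((D_b1 r h).fun_mul (D_b2 r h)).fun_sub ((D_c1 r h).fun_mul (D_c2 r h)))
      (by rw [v2, mul_zero]) (by rw [v4, v7]; ring) hs hs0
    have e2 := e1.unique h1
    rcases mul_eq_zero.1 e2 with e3 | e3
    · exact absurd e3 hsi
    · simp only [v1, v2, v3, v4, v5, v6, v7, v8, v9] at e3
      have e4 : (2 * r ^ 3) * ((r3 * C0 - d0) * h 3) = 0 := by linear_combination (exp := 1) e3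
      have e5 := (mul_eq_zero.1 e4).resolve_left hr3.ne'
      exact (mul_eq_zero.1 e5).resolve_left (by linarith)
  have k2 : h 2 = 0 := by
    have e1 := quot_deriv hA hB ((D_a1 r h).fun_mul (D_a3 r h))
      (((D_b1 r h).fun_mul (D_b3 r h)).fun_sub ((D_c1 r h).fun_mul (D_c3 r h)))
      (by rw [v3, mul_zero]) (by rw [v4, v7]; ring) hs hs0
    have e2 := e1.unique h2
    rcases mul_eq_zero.1 e2 with e3 | e3
    · exact absurd e3 hsi
    · simp only [v1, v2, v3, v4, v5, v6, v7, v8, v9] at e3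
      have e4 : (2 * r ^ 3) * ((r3 * C0 + d0) * h 2) = 0 := by linear_combination (exp := 1) -e3
      have e5 := (mul_eq_zero.1 e4).resolve_left hr3.ne'
      exact (mul_eq_zero.1 e5).resolve_left (by linarith)
  have k1 : h 1 = 0 := by
    have e1 := quot_deriv hA hB ((D_a2 r h).fun_mul (D_a3 r h))
      (((D_b2 r h).fun_mul (D_b3 r h)).fun_sub ((D_c2 r h).fun_mul (D_c3 r h)))
      (by rw [v3, mul_zero]) (by rw [v6, v8]; ring) hs hs0
    have e2 := e1.unique h3
    rcases mul_eq_zero.1 e2 with e3 | e3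
    · exact absurd e3 hsi
    · simp only [v1, v2, v3, v4, v5, v6, v7, v8, v9] at e3
      have e4 : (2 * r ^ 3) * ((2 * d0) * h 1) = 0 := by linear_combination (exp := 1) e3
      have e5 := (mul_eq_zero.1 e4).resolve_left hr3.ne'
      exact (mul_eq_zero.1 e5).resolve_left (by linarith)
  -- the radial component
  have k0 : h 0 = 0 := by
    have hpos : ∀ᶠ t in 𝓝 (0 : ℝ), 0 < r + t * h 0 := by
      have hc : ContinuousAt (fun t : ℝ => r + t * h 0) 0 := by fun_prop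
      exact hc.eventually (isOpen_Ioi.mem_nhds (by simpa using hr))
    have e1 : (fun t => W (Nn (cv r h t)) ![1, 0, 0] ![1, 0, 0]) =ᶠ[𝓝 0]
        fun t => 2 / 3 * r3 * CC (dd ((r + t * h 0) ^ 2)) := by
      filter_upwards [hpos] with t ht
      have hsq : sq (cv r h t) = (r + t * h 0) ^ 2 := by
        simp only [sq, cv0, cv1, cv2, cv3, k1, k2, k3]; ring
      have hW : ∀ (c : ℝ) (q : Fin 5 → ℝ), W (c • q) ![1, 0, 0] ![1, 0, 0] =
          c * W q ![1, 0, 0] ![1, 0, 0] := by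
        intro c q
        simp [W]
        ring
      rw [Nn, hW, W_qv, hsq]
      simp only [a1, a2, a3, b1, b2, b3, c1, c2, c3, cv0, cv1, cv2, cv3, k1, k2, k3,
        Matrix.cons_val_zero, Matrix.cons_val_one, Matrix.cons_val]
      have hne' : r + t * h 0 ≠ 0 := ht.ne'
      field_simp
      ring
    have e2 := h4.congr_of_eventuallyEq e1.symm
    -- derivative of the right-hand side
    have g1 : HasDerivAt (fun t : ℝ => (r + t * h 0) ^ 2) (2 * r * h 0) 0 := by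
      have := (H0 r h).fun_pow 2
      refine this.congr_deriv ?_
      simp only [cv0]
      ring
    have g2 : HasDerivAt dd (1 / (2 * (1 + r ^ 2) ^ 2)) (r ^ 2) := by
      have t1 := (hasDerivAt_id (r ^ 2)).fun_div
        (((hasDerivAt_id (r ^ 2)).const_add 1).const_mul 2) (by simp only [id]; positivity)
      refine t1.congr_deriv ?_
      simp only [id]
      field_simp
      ring
    have hr2 : sq (cv r h 0) = r ^ 2 := v10
    rw [hr2] at hd0def
    have g3 : HasDerivAt CC (-d0 / C0) d0 := by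
      have hpos1 : 0 < 1 - d0 ^ 2 := by linarith [hf.2.2]
      have t1 : HasDerivAt (fun x : ℝ => 1 - x ^ 2) (-(2 * d0)) d0 := by
        have := (hasDerivAt_pow 2 d0).const_sub 1
        simpa using this
      have t2 := t1.sqrt hpos1.ne'
      refine t2.congr_deriv ?_
      have hC0' : C0 = √(1 - d0 ^ 2) := by rw [hC0def]; rfl
      rw [hC0', neg_div, neg_div, mul_div_mul_left _ _ (two_ne_zero)]
    have g2' : HasDerivAt dd (1 / (2 * (1 + r ^ 2) ^ 2)) ((fun t : ℝ => (r + t * h 0) ^ 2) 0) := by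
      simpa using g2
    have g12 := g2'.comp (0 : ℝ) g1
    have hval : (dd ∘ fun t : ℝ => (r + t * h 0) ^ 2) 0 = d0 := by
      simp [hd0def]
    have g3' : HasDerivAt CC (-d0 / C0) ((dd ∘ fun t : ℝ => (r + t * h 0) ^ 2) 0) := by
      rw [hval]; exact g3
    have g123 := (g3'.comp (0 : ℝ) g12).const_mul (2 / 3 * r3)
    have e3 := g123.unique e2
    have hCpos : 0 < C0 := by
      by_contra hcon
      have : C0 = 0 := le_antisymm (not_lt.1 hcon) hC0
      rw [this, mul_zero] at hlt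
      linarith
    have e4 : (2 / 3 * r3 * (-d0 / C0) * (1 / (2 * (1 + r ^ 2) ^ 2)) * (2 * r)) * h 0 = 0 := by
      linear_combination (exp := 1) e3
    refine (mul_eq_zero.1 e4).resolve_left ?_
    have := r3_pos
    have q1 : -d0 / C0 ≠ 0 := div_ne_zero (neg_ne_zero.2 hd0.ne') hCpos.ne'
    have q2 : (1 / (2 * (1 + r ^ 2) ^ 2)) ≠ 0 := by positivity
    positivity
  exact ext4 k0 k1 k2 k3

/-- The columns of the rotation matrix. -/
noncomputable def va (w : E4) : Fin 3 → ℝ := ![a1 w, a2 w, a3 w]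
noncomputable def vb (w : E4) : Fin 3 → ℝ := ![b1 w, b2 w, b3 w]
noncomputable def vc (w : E4) : Fin 3 → ℝ := ![c1 w, c2 w, c3 w]

lemma W_smul (c : ℝ) (q : Fin 5 → ℝ) (u v : Fin 3 → ℝ) : W (c • q) u v = c * W q u v := by
  simp only [W, Pi.smul_apply, smul_eq_mul]
  ring

lemma dd_pm {w : E4} (hw : sq w = 1) (y : E4) : sq (pm w y) = sq y := by
  rw [sq_pm, hw, one_mul]

section

variable {w : E4} (hw : sq w = 1) (y : E4)

lemma W_ab (C d : ℝ) : W (qv C d y) (va w) (vb w) = q1 C d (pm w y) := by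
  rw [W_qv]
  simp only [va, vb, Matrix.cons_val_zero, Matrix.cons_val_one, Matrix.cons_val]
  rw [q1, ← aa, ← ba, ← ab, ← bb, ← ac, ← bc]
  have := oab w
  linear_combination (exp := 1) -(r3 * C / 3 * sq y ^ 2) * this

lemma W_ac (C d : ℝ) : W (qv C d y) (va w) (vc w) = q2 C d (pm w y) := by
  rw [W_qv]
  simp only [va, vc, Matrix.cons_val_zero, Matrix.cons_val_one, Matrix.cons_val]
  rw [q2, ← aa, ← ca, ← ab, ← cb, ← ac, ← cc]
  have := oac w
  linear_combination (exp := 1) -(r3 * C / 3 * sq y ^ 2) * this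

lemma W_bc (C d : ℝ) : W (qv C d y) (vb w) (vc w) = q3 C d (pm w y) := by
  rw [W_qv]
  simp only [vb, vc, Matrix.cons_val_zero, Matrix.cons_val_one, Matrix.cons_val]
  rw [q3, ← ba, ← ca, ← bb, ← cb, ← bc, ← cc]
  have := obc w
  linear_combination (exp := 1) -(r3 * C / 3 * sq y ^ 2) * this

include hw in
lemma W_aa (C d : ℝ) : W (qv C d y) (va w) (va w) = W (qv C d (pm w y)) ![1, 0, 0] ![1, 0, 0] := by
  rw [W_qv, W_qv]
  simp only [va, Matrix.cons_val_zero, Matrix.cons_val_one, Matrix.cons_val]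
  rw [dd_pm hw, ← aa, ← ab, ← ac]
  have := na w
  rw [hw] at this
  linear_combination (exp := 1) -(r3 * C / 3 * sq y ^ 2) * this

include hw in
lemma W_Nn_ab : W (Nn y) (va w) (vb w) = Nn (pm w y) 0 := by
  rw [Nn, W_smul, W_ab, Nn, dd_pm hw]
  rfl

include hw in
lemma W_Nn_ac : W (Nn y) (va w) (vc w) = Nn (pm w y) 1 := by
  rw [Nn, W_smul, W_ac, Nn, dd_pm hw]
  rfl

include hw in
lemma W_Nn_bc : W (Nn y) (vb w) (vc w) = Nn (pm w y) 2 := by
  rw [Nn, W_smul, W_bc, Nn, dd_pm hw]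
  rfl

include hw in
lemma W_Nn_aa : W (Nn y) (va w) (va w) = W (Nn (pm w y)) ![1, 0, 0] ![1, 0, 0] := by
  rw [Nn, W_smul, W_aa hw, Nn, dd_pm hw, W_smul]

end

lemma hasDerivAt_W {Q : ℝ → Fin 5 → ℝ} (hQ : HasDerivAt Q 0 0) (u v : Fin 3 → ℝ) :
    HasDerivAt (fun t => W (Q t) u v) 0 0 := by
  have h : ∀ i, HasDerivAt (fun t => Q t i) 0 0 := fun i => (hasDerivAt_pi.1 hQ) i
  have t0 := (h 0).mul_const (u 0 * v 1 + u 1 * v 0)
  have t1 := (h 1).mul_const (u 0 * v 2 + u 2 * v 0)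
  have t2 := (h 2).mul_const (u 1 * v 2 + u 2 * v 1)
  have t3 := ((((h 4).const_mul r3).div_const 3).fun_add (h 3)).mul_const (u 0 * v 0)
  have t4 := ((((h 4).const_mul r3).div_const 3).fun_sub (h 3)).mul_const (u 1 * v 1)
  have t5 := (((h 4).const_mul (2 * r3)).div_const 3).mul_const (u 2 * v 2)
  have t := ((((t0.fun_add t1).fun_add t2).fun_add t3).fun_add t4).fun_sub t5
  refine t.congr_deriv ?_
  ring

/-- Injectivity of the derivative of `ff`. -/
lemma inj_ff {x : E4} (hx : x ≠ 0) {f' : E4 →L[ℝ] E4} (hf : HasFDerivAt ff f' x) (h : E4)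
    (h0 : f' h = 0) : h = 0 := by
  have hr : 0 < ‖x‖ := norm_pos_iff.2 hx
  set w := ‖x‖⁻¹ • x with hw
  have hw1 : sq w = 1 := sq_unit hx
  have hxe : ∀ i, x i = ‖x‖ * w i := by
    intro i
    show x i = ‖x‖ * (‖x‖⁻¹ * x i)
    field_simp
  have hpm : ∀ t : ℝ, pm w (x + t • h) = cv ‖x‖ (pm w h) t := by
    intro t
    have ha : ∀ (x y : E4) (i : Fin 4), (x + y) i = x i + y i := fun _ _ _ => rfl
    have hb : ∀ (c : ℝ) (y : E4) (i : Fin 4), (c • y) i = c * y i := fun _ _ _ => rfl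
    have hs : w 0 ^ 2 + w 1 ^ 2 + w 2 ^ 2 + w 3 ^ 2 = 1 := hw1
    apply ext4
    · simp only [cv0, pm0, ha, hb, hxe]
      linear_combination (exp := 1) ‖x‖ * hs
    · simp only [cv1, pm1, ha, hb, hxe]
      ring
    · simp only [cv2, pm2, ha, hb, hxe]
      ring
    · simp only [cv3, pm3, ha, hb, hxe]
      ring
  have hcurve : HasDerivAt (fun t : ℝ => x + t • h) h 0 := by
    have h2 := ((hasDerivAt_id (0 : ℝ)).smul_const h).const_add x
    refine h2.congr_deriv ?_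
    simp
  have e0 : (fun t : ℝ => x + t • h) 0 = x := by simp
  have h1 : HasDerivAt (fun t : ℝ => ff (x + t • h)) 0 0 := by
    have hf2 : HasFDerivAt ff f' ((fun t : ℝ => x + t • h) 0) := by rw [e0]; exact hf
    have := hf2.comp_hasDerivAt (0 : ℝ) hcurve
    rw [h0] at this
    exact this
  have h2 : HasDerivAt (fun t : ℝ => ist (ff (x + t • h))) 0 0 := by
    have hd : DifferentiableAt ℝ ist ((fun t : ℝ => ff (x + t • h)) 0) :=
      cd_ist.differentiable (by simp) _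
    have := hd.hasFDerivAt.comp_hasDerivAt (0 : ℝ) h1
    rw [map_zero] at this
    exact this
  have hne : ∀ᶠ t in 𝓝 (0 : ℝ), x + t • h ≠ 0 := by
    have hc : ContinuousAt (fun t : ℝ => x + t • h) 0 := hcurve.continuousAt
    exact hc.eventually (isOpen_ne.mem_nhds (by rw [e0]; exact hx))
  have h3 : HasDerivAt (fun t : ℝ => Nn (x + t • h)) 0 0 := by
    refine h2.congr_of_eventuallyEq ?_
    filter_upwards [hne] with t ht
    exact (ist_ff ht).symm
  have k1 := hasDerivAt_W h3 (va w) (vb w)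
  have k2 := hasDerivAt_W h3 (va w) (vc w)
  have k3 := hasDerivAt_W h3 (vb w) (vc w)
  have k4 := hasDerivAt_W h3 (va w) (va w)
  simp only [W_Nn_ab hw1, hpm] at k1
  simp only [W_Nn_ac hw1, hpm] at k2
  simp only [W_Nn_bc hw1, hpm] at k3
  simp only [W_Nn_aa hw1, hpm] at k4
  have k5 := inj_real hr (pm w h) k1 k2 k3 k4
  have r0 := rec0 w h
  have r1 := rec1 w h
  have r2 := rec2 w h
  have r3 := rec3 w h
  have z : ∀ i, (0 : E4) i = 0 := fun _ => rfl
  rw [hw1, k5, z, z, z, z] at r0 r1 r2 r3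
  apply ext4
  · rw [z]; linarith
  · rw [z]; linarith
  · rw [z]; linarith
  · rw [z]; linarith

/-- A smooth map of an open subset of `ℝ⁴` to `ℝ⁴` with injective derivatives is a local
diffeomorphism. -/
lemma ld_of_inj {f : E4 → E4} {O : Set E4} (hO : IsOpen O) (hf : ∀ y ∈ O, ContDiffAt ℝ ∞ f y)
    (hinj : ∀ y ∈ O, ∀ f' : E4 →L[ℝ] E4, HasFDerivAt f f' y → ∀ h, f' h = 0 → h = 0) {x : E4}
    (hx : x ∈ O) : IsLocalDiffeomorphAt (𝓡 4) (𝓡 4) ∞ f x := by
  have key : ∀ y ∈ O, ∃ e : E4 ≃L[ℝ] E4, HasFDerivAt f (e : E4 →L[ℝ] E4) y := by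
    intro y hy
    have h1 := ((hf y hy).differentiableAt (by simp)).hasFDerivAt
    have h2 : Function.Injective ((fderiv ℝ f y : E4 →L[ℝ] E4) : E4 →ₗ[ℝ] E4) := by
      rw [injective_iff_map_eq_zero]
      exact fun h => hinj y hy _ h1 h
    refine ⟨(LinearEquiv.ofInjectiveEndo _ h2).toContinuousLinearEquiv, ?_⟩
    exact h1.congr_fderiv (ContinuousLinearMap.ext fun v => rfl)
  obtain ⟨e, he⟩ := key x hx
  set T := (hf x hx).toOpenPartialHomeomorph f he (by simp) with hT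
  have hTf : ∀ y, T y = f y := fun y => rfl
  set T' := T.restrOpen O hO with hT'
  have hT'f : ∀ y, T' y = f y := fun y => rfl
  have hsrc : T'.source = T.source ∩ O := rfl
  have hsrcO : ∀ y ∈ T'.source, y ∈ O := fun y hy => hy.2
  refine ⟨{ toPartialEquiv := T'.toPartialEquiv
            open_source := T'.open_source
            open_target := T'.open_target
            contMDiffOn_toFun := ?_
            contMDiffOn_invFun := ?_ }, ?_, fun _ _ => rfl⟩
  · intro y hy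
    exact (hf y (hsrcO y hy)).contMDiffAt.contMDiffWithinAt
  · intro y hy
    have hy' : T'.symm y ∈ T'.source := T'.map_target hy
    obtain ⟨e', he'⟩ := key _ (hsrcO _ hy')
    have h3 : ContDiffAt ℝ ∞ T'.symm y := T'.contDiffAt_symm hy he' (hf _ (hsrcO _ hy'))
    exact h3.contMDiffAt.contMDiffWithinAt
  · exact ⟨(hf x hx).mem_toOpenPartialHomeomorph_source he (by simp), hx⟩

lemma ld_ff {x : E4} (hx : x ≠ 0) : IsLocalDiffeomorphAt (𝓡 4) (𝓡 4) ∞ ff x :=
  ld_of_inj (O := {0}ᶜ) isOpen_compl_singleton (fun _ hy => cd_ff hy)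
    (fun _ hy _ hf' h h0 => inj_ff hy hf' h h0) hx

end Pool.Agent.H244R3.Orb
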