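import Pool.Agent.H244R3.OrbPush

set_option autoImplicit false
set_option linter.unusedSectionVars false

open scoped Manifold ContDiff Topology RealInnerProductSpace
open Module Set Metric TopologicalSpace EuclideanGeometry

/-!
The inversion of `ℝ⁴ ∖ {0}`, an isometry of the round metric.
-/

namespace Pool.Agent.H244R3.Orb

/-- The inversion. -/
noncomputable def io (x : E4) : E4 := inversion 0 1 x

lemma io_eq (x : E4) : io x = (‖x‖⁻¹ ^ 2) • x := by
  unfold io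
  rw [inversion]
  simp

lemma io_io (x : E4) : io (io x) = x := inversion_inversion 0 one_ne_zero x

lemma io_ne {x : E4} (hx : x ≠ 0) : io x ≠ 0 := by
  unfold io
  rwa [Ne, inversion_eq_center one_ne_zero]

lemma norm_io (x : E4) : ‖io x‖ = ‖x‖⁻¹ := by
  rw [io_eq, norm_smul]
  rcases eq_or_ne x 0 with h | h
  · simp [h]
  · have : 0 < ‖x‖ := norm_pos_iff.2 h
    rw [Real.norm_of_nonneg (by positivity)]
    field_simp

lemma io_isometry (γ : E4 ≃ₗᵢ[ℝ] E4) (x : E4) : io (γ x) = γ (io x) := by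
  rw [io_eq, io_eq, γ.norm_map, map_smul]

lemma contMDiffOn_io : ContMDiffOn (𝓡 4) (𝓡 4) ∞ io {0}ᶜ := by
  intro x hx
  have h : ContDiffAt ℝ ((⊤ : ℕ∞) : WithTop ℕ∞) io x := by
    have := ContDiffAt.inversion (n := ⊤) (c := fun _ : E4 => (0 : E4)) (R := fun _ => (1 : ℝ))
      (x := fun y : E4 => y) (a := x) contDiffAt_const contDiffAt_const contDiffAt_id hx
    exact this
  exact h.contMDiffAt.contMDiffWithinAt

/-- The inversion as a diffeomorphism. -/
noncomputable def ioP : PartialDiffeomorph (𝓡 4) (𝓡 4) E4 E4 ∞ where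
  toFun := io
  invFun := io
  source := {0}ᶜ
  target := {0}ᶜ
  map_source' _ hx := io_ne hx
  map_target' _ hx := io_ne hx
  left_inv' x _ := io_io x
  right_inv' x _ := io_io x
  open_source := isOpen_compl_singleton
  open_target := isOpen_compl_singleton
  contMDiffOn_toFun := contMDiffOn_io
  contMDiffOn_invFun := contMDiffOn_io

lemma ld_io {x : E4} (hx : x ≠ 0) : IsLocalDiffeomorphAt (𝓡 4) (𝓡 4) ∞ io x :=
  ⟨ioP, hx, fun _ _ => rfl⟩

lemma G_io {x : E4} (hx : x ≠ 0) (a b : E4) :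
    G (io x) (mfderiv (𝓡 4) (𝓡 4) io x a) (mfderiv (𝓡 4) (𝓡 4) io x b) = G x a b := by
  have h1 := (hasFDerivAt_inversion (R := 1) hx).fderiv
  have h2 : mfderiv (𝓡 4) (𝓡 4) io x = fderiv ℝ (inversion (0 : E4) 1) x := by
    rw [mfderiv_eq_fderiv]
    rfl
  have h3 : ∀ a : E4, mfderiv (𝓡 4) (𝓡 4) io x a =
      ((1 / dist x 0) ^ 2 • ((ℝ ∙ (x - 0))ᗮ.reflection : E4 →L[ℝ] E4)) a := by
    intro a
    rw [← h1]
    exact congrArg (fun T : E4 →L[ℝ] E4 => T a) h2
  rw [h3, h3, G_apply, G_apply, norm_io]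
  simp only [_root_.smul_apply]
  have h4 : ∀ a : E4, ((ℝ ∙ (x - 0))ᗮ.reflection : E4 →L[ℝ] E4) a = (ℝ ∙ (x - 0))ᗮ.reflection a :=
    fun a => rfl
  rw [h4, h4, inner_smul_left, inner_smul_right, LinearIsometryEquiv.inner_map_map, dist_zero_right]
  have h5 : 0 < ‖x‖ := norm_pos_iff.2 hx
  simp only [RCLike.conj_to_real]
  field_simp
  ring

section

variable {N : Type*} [TopologicalSpace N] [ChartedSpace E4 N] [IsManifold (𝓡 4) ∞ N]

lemma pullCoeff_io (g : RMetric N) (P : E4 → N)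
    (hld : ∀ x, x ≠ 0 → IsLocalDiffeomorphAt (𝓡 4) (𝓡 4) ∞ P x)
    (hg : ∀ x, x ≠ 0 → ∀ a b, pullCoeff g P x a b = G x a b) {x : E4} (hx : x ≠ 0) (a b : E4) :
    pullCoeff g (P ∘ io) x a b = G x a b := by
  have h1 := mfderiv_comp x ((hld _ (io_ne hx)).mdifferentiableAt (by simp))
    ((ld_io hx).mdifferentiableAt (by simp))
  have h2 : ∀ a : E4, mfderiv (𝓡 4) (𝓡 4) (P ∘ io) x a =
      mfderiv (𝓡 4) (𝓡 4) P (io x) (mfderiv (𝓡 4) (𝓡 4) io x a) := by
    intro a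
    exact congrArg (fun T : E4 →L[ℝ] E4 => T a) h1
  have h3 := hg (io x) (io_ne hx) (mfderiv (𝓡 4) (𝓡 4) io x a) (mfderiv (𝓡 4) (𝓡 4) io x b)
  rw [G_io hx] at h3
  rw [← h3, pullCoeff_eq, pullCoeff_eq, h2, h2]
  rfl

end

end Pool.Agent.H244R3.Orb
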