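import Pool.Agent.H244R3.OrbSpec

set_option autoImplicit false

open Module Set Metric
open scoped Manifold ContDiff Topology

/-!
The map `ff` of `ℝ⁴ ∖ {0}` to `ℝ⁴`, a local diffeomorphism.
-/

namespace Pool.Agent.H244R3.Orb

/-- Stereographic projection. -/
noncomputable def st (q : Fin 5 → ℝ) : E4 := (1 - q 4)⁻¹ • !₂[q 0, q 1, q 2, q 3]

/-- Inverse of the stereographic projection. -/
noncomputable def ist (y : E4) : Fin 5 → ℝ :=
  ![2 * y 0 / (1 + sq y), 2 * y 1 / (1 + sq y), 2 * y 2 / (1 + sq y), 2 * y 3 / (1 + sq y),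
    (sq y - 1) / (1 + sq y)]

lemma sq_nonneg' (y : E4) : 0 ≤ sq y := by unfold sq; positivity

lemma sq_pos {y : E4} (hy : y ≠ 0) : 0 < sq y := by
  rw [sq_eq]
  have := norm_pos_iff.2 hy
  positivity

lemma st_ist (y : E4) : st (ist y) = y := by
  have h := sq_nonneg' y
  have h1 : 1 - (sq y - 1) / (1 + sq y) = 2 / (1 + sq y) := by
    field_simp; ring
  have key : ∀ z : ℝ, (1 - (sq y - 1) / (1 + sq y))⁻¹ * (2 * z / (1 + sq y)) = z := by
    intro z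
    rw [h1]
    field_simp
  apply ext4
  · exact key _
  · exact key _
  · exact key _
  · exact key _

lemma sq_st (q : Fin 5 → ℝ) (hq : q 0 ^ 2 + q 1 ^ 2 + q 2 ^ 2 + q 3 ^ 2 + q 4 ^ 2 = 1)
    (h1 : q 4 ≠ 1) : sq (st q) = (1 + q 4) / (1 - q 4) := by
  have h2 : 1 - q 4 ≠ 0 := fun h => h1 (by linarith)
  have e : sq (st q) = ((1 - q 4)⁻¹ * q 0) ^ 2 + ((1 - q 4)⁻¹ * q 1) ^ 2 +
      ((1 - q 4)⁻¹ * q 2) ^ 2 + ((1 - q 4)⁻¹ * q 3) ^ 2 := rfl
  rw [e]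
  field_simp
  linarith

lemma ist_st (q : Fin 5 → ℝ) (hq : q 0 ^ 2 + q 1 ^ 2 + q 2 ^ 2 + q 3 ^ 2 + q 4 ^ 2 = 1)
    (h1 : q 4 ≠ 1) : ist (st q) = q := by
  have h2 : 1 - q 4 ≠ 0 := fun h => h1 (by linarith)
  have h3 : 1 + sq (st q) = 2 / (1 - q 4) := by
    rw [sq_st q hq h1]
    field_simp
    ring
  have h4 : sq (st q) - 1 = 2 * q 4 / (1 - q 4) := by
    rw [sq_st q hq h1]
    field_simp
    ring
  have key : ∀ z : ℝ, 2 * ((1 - q 4)⁻¹ * z) / (1 + sq (st q)) = z := by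
    intro z
    rw [h3]
    field_simp
  funext i
  fin_cases i
  · exact key _
  · exact key _
  · exact key _
  · exact key _
  · show (sq (st q) - 1) / (1 + sq (st q)) = q 4
    rw [h3, h4]
    field_simp

/-- The radial functions. -/
noncomputable def dd (s : ℝ) : ℝ := s / (2 * (1 + s))
noncomputable def CC (d : ℝ) : ℝ := √(1 - d ^ 2)

lemma dd_pos {s : ℝ} (hs : 0 < s) : 0 < dd s := by unfold dd; positivity
lemma dd_nonneg {s : ℝ} (hs : 0 ≤ s) : 0 ≤ dd s := by unfold dd; positivity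
lemma dd_lt {s : ℝ} (hs : 0 ≤ s) : dd s < 1 / 2 := by
  unfold dd
  rw [div_lt_iff₀ (by positivity)]
  linarith

lemma CC_sq {d : ℝ} (h0 : 0 ≤ d) (h1 : d ≤ 1) : CC d ^ 2 + d ^ 2 = 1 := by
  unfold CC
  rw [Real.sq_sqrt (by nlinarith)]
  ring

lemma CC_nonneg (d : ℝ) : 0 ≤ CC d := Real.sqrt_nonneg _

lemma lt_CC {d : ℝ} (h0 : 0 ≤ d) (h1 : 4 * d ^ 2 < 3) : d < r3 * CC d := by
  have h3 := r3_sq
  have hd1 : d ≤ 1 := by nlinarith
  have h4 := CC_sq h0 hd1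
  have h5 : 0 ≤ r3 * CC d := mul_nonneg r3_pos.le (CC_nonneg d)
  have h6 : d ^ 2 < (r3 * CC d) ^ 2 := by
    rw [mul_pow, h3]
    nlinarith
  exact lt_of_pow_lt_pow_left₀ 2 h5 h6

lemma q5_lt {C d : ℝ} {x : E4} (hx : sq x = 1) (hd : 0 ≤ d) (hC : C ^ 2 + d ^ 2 = 1)
    (hC0 : 0 ≤ C) (h1 : d < r3 * C) : q5 C d x < 1 := by
  have h3 := r3_sq
  have h3p := r3_pos
  have hn3 := n3 x
  rw [hx] at hn3
  have e : q5 C d x = (C - 3 * C * a3 x ^ 2 - r3 * d * b3 x ^ 2 + r3 * d * c3 x ^ 2) / 2 := by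
    unfold q5
    rw [hx]
    ring
  have p1 : 0 ≤ 3 * C * a3 x ^ 2 := by positivity
  have p2 : 0 ≤ r3 * d * b3 x ^ 2 := by positivity
  have p3 : r3 * d * c3 x ^ 2 ≤ r3 * d := by
    have : c3 x ^ 2 ≤ 1 := by nlinarith [sq_nonneg (a3 x), sq_nonneg (b3 x)]
    calc r3 * d * c3 x ^ 2 ≤ r3 * d * 1 := mul_le_mul_of_nonneg_left this (by positivity)
      _ = r3 * d := by ring
  have p4 : C + r3 * d < 2 := by
    by_contra hcon
    push Not at hcon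
    have h5 : (r3 * C - d) ^ 2 + (C + r3 * d) ^ 2 = 4 := by
      linear_combination (exp := 1) (C ^ 2 + d ^ 2) * h3 + 4 * hC
    have h6 : 0 < (r3 * C - d) ^ 2 := by
      have : 0 < r3 * C - d := by linarith
      positivity
    nlinarith
  rw [e]
  linarith

/-- The normalised five coordinates. -/
noncomputable def Nn (x : E4) : Fin 5 → ℝ :=
  (sq x ^ 2)⁻¹ • qv (CC (dd (sq x))) (dd (sq x)) x

lemma qv_smul (C d c : ℝ) (x : E4) : qv C d (c • x) = c ^ 4 • qv C d x := by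
  have ha : ∀ (c : ℝ) (y : E4) (i : Fin 4), (c • y) i = c * y i := fun _ _ _ => rfl
  funext i
  fin_cases i
  · show q1 C d (c • x) = c ^ 4 * q1 C d x
    simp only [q1, a1, a2, b1, b2, c1, c2, ha]; ring
  · show q2 C d (c • x) = c ^ 4 * q2 C d x
    simp only [q2, a1, a3, b1, b3, c1, c3, ha]; ring
  · show q3 C d (c • x) = c ^ 4 * q3 C d x
    simp only [q3, a2, a3, b2, b3, c2, c3, ha]; ring
  · show q4 C d (c • x) = c ^ 4 * q4 C d x
    simp only [q4, a1, a2, b1, b2, c1, c2, ha]; ring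
  · show q5 C d (c • x) = c ^ 4 * q5 C d x
    simp only [q5, a3, b3, c3, sq, ha]; ring

lemma sq_smul (c : ℝ) (x : E4) : sq (c • x) = c ^ 2 * sq x := by
  have ha : ∀ (c : ℝ) (y : E4) (i : Fin 4), (c • y) i = c * y i := fun _ _ _ => rfl
  simp only [sq, ha]; ring

lemma sq_unit {x : E4} (hx : x ≠ 0) : sq (‖x‖⁻¹ • x) = 1 := by
  rw [sq_smul, sq_eq]
  have := norm_pos_iff.2 hx
  field_simp

lemma Nn_eq {x : E4} (hx : x ≠ 0) :
    Nn x = qv (CC (dd (sq x))) (dd (sq x)) (‖x‖⁻¹ • x) := by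
  rw [Nn, qv_smul, sq_eq]
  congr 1
  have := norm_pos_iff.2 hx
  field_simp

lemma qv_unit {C d : ℝ} {x : E4} (hx : sq x = 1) (hC : C ^ 2 + d ^ 2 = 1) :
    qv C d x 0 ^ 2 + qv C d x 1 ^ 2 + qv C d x 2 ^ 2 + qv C d x 3 ^ 2 + qv C d x 4 ^ 2 = 1 := by
  have h2 : q1 C d x ^ 2 + q2 C d x ^ 2 + q3 C d x ^ 2 + q4 C d x ^ 2 + q5 C d x ^ 2 = 1 := by
    rw [sum_sq, hx, hC]
    norm_num
  exact h2

lemma dd_facts {x : E4} : 0 ≤ dd (sq x) ∧ dd (sq x) ≤ 1 ∧ 4 * dd (sq x) ^ 2 < 3 := by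
  have h1 := dd_nonneg (sq_nonneg' x)
  have h2 := dd_lt (sq_nonneg' x)
  exact ⟨h1, by linarith, by nlinarith⟩

lemma Nn_unit {x : E4} (hx : x ≠ 0) :
    Nn x 0 ^ 2 + Nn x 1 ^ 2 + Nn x 2 ^ 2 + Nn x 3 ^ 2 + Nn x 4 ^ 2 = 1 := by
  rw [Nn_eq hx]
  exact qv_unit (sq_unit hx) (CC_sq dd_facts.1 dd_facts.2.1)

lemma Nn_lt {x : E4} (hx : x ≠ 0) : Nn x 4 < 1 := by
  rw [Nn_eq hx]
  exact q5_lt (sq_unit hx) dd_facts.1 (CC_sq dd_facts.1 dd_facts.2.1) (CC_nonneg _)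
    (lt_CC dd_facts.1 dd_facts.2.2)

/-- The covering map onto an open subset of `ℝ⁴`. -/
noncomputable def ff (x : E4) : E4 := st (Nn x)

lemma ist_ff {x : E4} (hx : x ≠ 0) : ist (ff x) = Nn x := ist_st _ (Nn_unit hx) (Nn_lt hx).ne

/-! ### Smoothness -/

lemma cd_coord (i : Fin 4) : ContDiff ℝ ∞ (fun x : E4 => x i) :=
  (EuclideanSpace.proj i : E4 →L[ℝ] ℝ).contDiff

lemma cd_a1 : ContDiff ℝ ∞ a1 := by
  unfold a1
  exact (((cd_coord 0).pow 2).add ((cd_coord 1).pow 2)).sub ((cd_coord 2).pow 2) |>.sub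
    ((cd_coord 3).pow 2)
lemma cd_a2 : ContDiff ℝ ∞ a2 := by
  unfold a2
  exact contDiff_const.mul (((cd_coord 1).mul (cd_coord 2)).add ((cd_coord 0).mul (cd_coord 3)))
lemma cd_a3 : ContDiff ℝ ∞ a3 := by
  unfold a3
  exact contDiff_const.mul (((cd_coord 1).mul (cd_coord 3)).sub ((cd_coord 0).mul (cd_coord 2)))
lemma cd_b1 : ContDiff ℝ ∞ b1 := by
  unfold b1
  exact contDiff_const.mul (((cd_coord 1).mul (cd_coord 2)).sub ((cd_coord 0).mul (cd_coord 3)))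
lemma cd_b2 : ContDiff ℝ ∞ b2 := by
  unfold b2
  exact (((cd_coord 0).pow 2).sub ((cd_coord 1).pow 2)).add ((cd_coord 2).pow 2) |>.sub
    ((cd_coord 3).pow 2)
lemma cd_b3 : ContDiff ℝ ∞ b3 := by
  unfold b3
  exact contDiff_const.mul (((cd_coord 2).mul (cd_coord 3)).add ((cd_coord 0).mul (cd_coord 1)))
lemma cd_c1 : ContDiff ℝ ∞ c1 := by
  unfold c1
  exact contDiff_const.mul (((cd_coord 1).mul (cd_coord 3)).add ((cd_coord 0).mul (cd_coord 2)))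
lemma cd_c2 : ContDiff ℝ ∞ c2 := by
  unfold c2
  exact contDiff_const.mul (((cd_coord 2).mul (cd_coord 3)).sub ((cd_coord 0).mul (cd_coord 1)))
lemma cd_c3 : ContDiff ℝ ∞ c3 := by
  unfold c3
  exact (((cd_coord 0).pow 2).sub ((cd_coord 1).pow 2)).sub ((cd_coord 2).pow 2) |>.add
    ((cd_coord 3).pow 2)
lemma cd_sq : ContDiff ℝ ∞ sq := by
  unfold sq
  exact (((cd_coord 0).pow 2).add ((cd_coord 1).pow 2)).add ((cd_coord 2).pow 2) |>.add
    ((cd_coord 3).pow 2)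

lemma cd_dd {s : ℝ} (hs : 0 ≤ s) : ContDiffAt ℝ ∞ dd s := by
  unfold dd
  refine contDiffAt_id.div (contDiffAt_const.mul (contDiffAt_const.add contDiffAt_id)) ?_
  positivity

lemma cd_CC {d : ℝ} (h : d ^ 2 < 1) : ContDiffAt ℝ ∞ CC d := by
  unfold CC
  exact (contDiffAt_const.sub (contDiffAt_id.pow 2)).sqrt (by simp only [id]; linarith)

lemma cd_ddsq (x : E4) : ContDiffAt ℝ ∞ (fun x => dd (sq x)) x :=
  (cd_dd (sq_nonneg' x)).comp x cd_sq.contDiffAt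

lemma cd_CCsq (x : E4) : ContDiffAt ℝ ∞ (fun x => CC (dd (sq x))) x := by
  have h := dd_facts (x := x)
  have h2 : dd (sq x) ^ 2 < 1 := by linarith [h.2.2]
  exact ContDiffAt.comp (g := CC) (f := fun x => dd (sq x)) x (cd_CC h2) (cd_ddsq x)

lemma cd_Nn {x : E4} (hx : x ≠ 0) : ContDiffAt ℝ ∞ Nn x := by
  have hs : ContDiffAt ℝ ∞ (fun x => (sq x ^ 2)⁻¹) x :=
    (cd_sq.contDiffAt.pow 2).inv (by have := sq_pos hx; positivity)
  rw [contDiffAt_pi]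
  intro i
  have hC := cd_CCsq x
  have hd := cd_ddsq x
  fin_cases i
  · exact hs.mul (((contDiffAt_const.mul hC).mul ((cd_a1.mul cd_a2).contDiffAt)).add
      (hd.mul ((cd_b1.mul cd_b2).sub (cd_c1.mul cd_c2)).contDiffAt))
  · exact hs.mul (((contDiffAt_const.mul hC).mul ((cd_a1.mul cd_a3).contDiffAt)).add
      (hd.mul ((cd_b1.mul cd_b3).sub (cd_c1.mul cd_c3)).contDiffAt))
  · exact hs.mul (((contDiffAt_const.mul hC).mul ((cd_a2.mul cd_a3).contDiffAt)).add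
      (hd.mul ((cd_b2.mul cd_b3).sub (cd_c2.mul cd_c3)).contDiffAt))
  · exact hs.mul ((((contDiffAt_const.mul hC).mul (((cd_a1.pow 2).sub (cd_a2.pow 2)).contDiffAt)).add
      (hd.mul (((cd_b1.pow 2).sub (cd_c1.pow 2)).sub
        ((cd_b2.pow 2).sub (cd_c2.pow 2))).contDiffAt)).div_const 2)
  · exact hs.mul ((((hC.mul (((contDiff_const.mul (cd_a3.pow 2)).sub
      (cd_sq.pow 2)).contDiffAt)).add ((contDiffAt_const.mul hd).mul
        ((cd_b3.pow 2).sub (cd_c3.pow 2)).contDiffAt)).neg).div_const 2)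

lemma cd_st {q : Fin 5 → ℝ} (hq : q 4 ≠ 1) : ContDiffAt ℝ ∞ st q := by
  have hc : ∀ i : Fin 5, ContDiffAt ℝ ∞ (fun q : Fin 5 → ℝ => q i) q := fun i =>
    (contDiff_apply ℝ ℝ i).contDiffAt
  have h1 : ContDiffAt ℝ ∞ (fun q : Fin 5 → ℝ => (1 - q 4)⁻¹) q :=
    (contDiffAt_const.sub (hc 4)).inv (fun h => hq (by linarith))
  rw [contDiffAt_euclidean]
  intro i
  fin_cases i
  · exact h1.mul (hc 0)
  · exact h1.mul (hc 1)
  · exact h1.mul (hc 2)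
  · exact h1.mul (hc 3)

lemma cd_ff {x : E4} (hx : x ≠ 0) : ContDiffAt ℝ ∞ ff x :=
  (cd_st (Nn_lt hx).ne).comp x (cd_Nn hx)

lemma cd_ist : ContDiff ℝ ∞ ist := by
  have h1 : ContDiff ℝ ∞ (fun y : E4 => (1 + sq y)) := contDiff_const.add cd_sq
  have h0 : ∀ y : E4, 1 + sq y ≠ 0 := fun y => by have := sq_nonneg' y; positivity
  rw [contDiff_pi]
  intro i
  fin_cases i
  · exact (contDiff_const.mul (cd_coord 0)).div h1 h0
  · exact (contDiff_const.mul (cd_coord 1)).div h1 h0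
  · exact (contDiff_const.mul (cd_coord 2)).div h1 h0
  · exact (contDiff_const.mul (cd_coord 3)).div h1 h0
  · exact (cd_sq.sub contDiff_const).div h1 h0

end Pool.Agent.H244R3.Orb
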