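import Pool.Agent.H244R3.OrbGlue

set_option autoImplicit false
set_option linter.unusedSectionVars false

open scoped Manifold ContDiff Topology RealInnerProductSpace
open Module Set Metric TopologicalSpace

/-!
The quotient space, its orbifold structure, and the resolution.
-/

namespace Pool.Agent.H244R3.Orb

universe u

section Opens

variable {M : Type u} [TopologicalSpace M] [ChartedSpace E4 M] [IsManifold (𝓡 4) ∞ M]

open Classical in
/-- A left inverse of the inclusion of an open subset. -/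
noncomputable def vinv (U : Opens M) (p0 : U) (m : M) : U := if h : m ∈ U then ⟨m, h⟩ else p0

lemma vinv_val (U : Opens M) (p0 : U) {m : M} (hm : m ∈ U) : (vinv U p0 m : M) = m := by
  unfold vinv
  rw [dif_pos hm]

/-- The inclusion of an open subset, inverted. -/
noncomputable def vP (U : Opens M) (p0 : U) : PartialDiffeomorph (𝓡 4) (𝓡 4) M U ∞ where
  toFun := vinv U p0
  invFun := Subtype.val
  source := U
  target := univ
  map_source' _ _ := mem_univ _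
  map_target' p _ := p.2
  left_inv' _ hm := vinv_val U p0 hm
  right_inv' p _ := Subtype.ext (vinv_val U p0 p.2)
  open_source := U.isOpen
  open_target := isOpen_univ
  contMDiffOn_toFun := by
    intro m hm
    rw [← ContMDiffWithinAt.subtypeVal_comp_iff]
    refine contMDiffWithinAt_id.congr (fun z hz => ?_) ?_
    · exact vinv_val U p0 hz
    · exact vinv_val U p0 hm
  contMDiffOn_invFun := contMDiff_subtype_val.contMDiffOn

lemma ld_vinv (U : Opens M) (p0 : U) {m : M} (hm : m ∈ U) :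
    IsLocalDiffeomorphAt (𝓡 4) (𝓡 4) ∞ (vinv U p0) m := ⟨vP U p0, hm, fun _ _ => rfl⟩

end Opens

namespace Data

variable {M : Type u} [TopologicalSpace M] [ChartedSpace E4 M] [IsManifold (𝓡 4) ∞ M]
variable {Γ : Subgroup (E4 ≃ₗᵢ[ℝ] E4)} {F : E4 → M} {D1 D2 : Set M}

/-- The equivalence relation which collapses `D1` and `D2`. -/
def setoid (h : Data Γ F D1 D2) : Setoid M where
  r p q := p = q ∨ (p ∈ D1 ∧ q ∈ D1) ∨ (p ∈ D2 ∧ q ∈ D2)
  iseqv := by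
    refine ⟨fun p => Or.inl rfl, ?_, ?_⟩
    · rintro p q (h1 | ⟨h1, h2⟩ | ⟨h1, h2⟩)
      · exact Or.inl h1.symm
      · exact Or.inr (Or.inl ⟨h2, h1⟩)
      · exact Or.inr (Or.inr ⟨h2, h1⟩)
    · rintro p q r (rfl | ⟨h1, h2⟩ | ⟨h1, h2⟩) (rfl | ⟨h3, h4⟩ | ⟨h3, h4⟩)
      · exact Or.inl rfl
      · exact Or.inr (Or.inl ⟨h3, h4⟩)
      · exact Or.inr (Or.inr ⟨h3, h4⟩)
      · exact Or.inr (Or.inl ⟨h1, h2⟩)
      · exact Or.inr (Or.inl ⟨h1, h4⟩)
      · exact absurd h3 (h.disj _ h2)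
      · exact Or.inr (Or.inr ⟨h1, h2⟩)
      · exact absurd h2 (h.disj _ h3)
      · exact Or.inr (Or.inr ⟨h1, h4⟩)

/-- The quotient map. -/
def pr (h : Data Γ F D1 D2) : M → Quotient h.setoid := Quotient.mk h.setoid

lemma pr_eq_iff (h : Data Γ F D1 D2) (p q : M) :
    h.pr p = h.pr q ↔ p = q ∨ (p ∈ D1 ∧ q ∈ D1) ∨ (p ∈ D2 ∧ q ∈ D2) :=
  Quotient.eq (r := h.setoid)

lemma isQuotientMap_pr (h : Data Γ F D1 D2) : Topology.IsQuotientMap h.pr :=
  isQuotientMap_quotient_mk'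

/-- Saturated open sets have open images. -/
lemma isOpen_image_pr (h : Data Γ F D1 D2) {A : Set M} (hA : IsOpen A)
    (h1 : ∀ p ∈ A, ∀ q, p ∈ D1 → q ∈ D1 → q ∈ A) (h2 : ∀ p ∈ A, ∀ q, p ∈ D2 → q ∈ D2 → q ∈ A) :
    IsOpen (h.pr '' A) := by
  rw [← h.isQuotientMap_pr.isOpen_preimage]
  have : h.pr ⁻¹' (h.pr '' A) = A := by
    ext q
    constructor
    · rintro ⟨p, hp, hpq⟩
      rcases (h.pr_eq_iff p q).1 hpq with h3 | ⟨h3, h4⟩ | ⟨h3, h4⟩
      · exact h3 ▸ hp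
      · exact h1 p hp q h3 h4
      · exact h2 p hp q h3 h4
    · intro hq
      exact ⟨q, hq, rfl⟩
  rw [this]
  exact hA

lemma disjoint_image (h : Data Γ F D1 D2) {A B : Set M} (hAB : Disjoint A B)
    (h1 : ∀ p ∈ A, ∀ q, p ∈ D1 → q ∈ D1 → q ∈ A) (h2 : ∀ p ∈ A, ∀ q, p ∈ D2 → q ∈ D2 → q ∈ A) :
    Disjoint (h.pr '' A) (h.pr '' B) := by
  rw [Set.disjoint_left]
  rintro _ ⟨p, hp, rfl⟩ ⟨q, hq, hpq⟩
  rw [eq_comm] at hpq
  have : q ∈ A := by
    rcases (h.pr_eq_iff p q).1 hpq with h3 | ⟨h3, h4⟩ | ⟨h3, h4⟩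
    · exact h3 ▸ hp
    · exact h1 p hp q h3 h4
    · exact h2 p hp q h3 h4
  exact Set.disjoint_left.1 hAB this hq

/-- The open set `D1 ∪ F(|x| < ρ)`. -/
def inner' (_ : Data Γ F D1 D2) (ρ : ℝ) : Set M := D1 ∪ F '' {x | x ≠ 0 ∧ ‖x‖ < ρ}

/-- The open set `D2 ∪ F(ρ < |x|)`. -/
def outer' (_ : Data Γ F D1 D2) (ρ : ℝ) : Set M := D2 ∪ F '' {x | ρ < ‖x‖}

lemma inner_sat1 (h : Data Γ F D1 D2) (ρ : ℝ) :
    ∀ p ∈ h.inner' ρ, ∀ q, p ∈ D1 → q ∈ D1 → q ∈ h.inner' ρ := fun _ _ _ _ hq => Or.inl hq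

lemma inner_sat2 (h : Data Γ F D1 D2) (ρ : ℝ) :
    ∀ p ∈ h.inner' ρ, ∀ q, p ∈ D2 → q ∈ D2 → q ∈ h.inner' ρ := by
  rintro p (h1 | ⟨x, ⟨hx, -⟩, rfl⟩) q h2 _
  · exact absurd h2 (h.disj p h1)
  · exact absurd h2 (h.not2 x hx)

lemma outer_sat1 (h : Data Γ F D1 D2) {ρ : ℝ} (hρ : 0 < ρ) :
    ∀ p ∈ h.outer' ρ, ∀ q, p ∈ D1 → q ∈ D1 → q ∈ h.outer' ρ := by
  rintro p (h1 | ⟨x, hx, rfl⟩) q h2 _
  · exact absurd h1 (h.disj p h2)
  · exact absurd h2 (h.not1 x (ne_of_lt hρ hx))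

lemma outer_sat2 (h : Data Γ F D1 D2) (ρ : ℝ) :
    ∀ p ∈ h.outer' ρ, ∀ q, p ∈ D2 → q ∈ D2 → q ∈ h.outer' ρ := fun _ _ _ _ hq => Or.inl hq

lemma mem_inner (h : Data Γ F D1 D2) {q : M} (hq : q ∉ D2) :
    ∃ ρ : ℝ, 0 < ρ ∧ q ∈ h.inner' ρ := by
  rcases h.cover q with h1 | h1 | ⟨x, hx, rfl⟩
  · exact ⟨1, one_pos, Or.inl h1⟩
  · exact absurd h1 hq
  · have : 0 < ‖x‖ := norm_pos_iff.2 hx
    exact ⟨2 * ‖x‖, by positivity, Or.inr ⟨x, ⟨hx, by linarith⟩, rfl⟩⟩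

/-- Separation of points. -/
lemma t2 [T2Space M] (h : Data Γ F D1 D2) : T2Space (Quotient h.setoid) := by
  have key1 : ∀ p q : M, p ∈ D1 → q ∉ D1 → ∃ A B : Set (Quotient h.setoid), IsOpen A ∧ IsOpen B ∧
      h.pr p ∈ A ∧ h.pr q ∈ B ∧ Disjoint A B := by
    intro p q hp hq
    obtain ⟨ρ, hρ, hqρ⟩ := h.mem_outer hq
    exact ⟨h.pr '' h.inner' ρ, h.pr '' h.outer' ρ,
      h.isOpen_image_pr (h.open1 ρ hρ) (h.inner_sat1 ρ) (h.inner_sat2 ρ),
      h.isOpen_image_pr (h.open2 ρ hρ) (h.outer_sat1 hρ) (h.outer_sat2 ρ),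
      ⟨p, Or.inl hp, rfl⟩, ⟨q, hqρ, rfl⟩,
      h.disjoint_image (h.disjoint_sets hρ) (h.inner_sat1 ρ) (h.inner_sat2 ρ)⟩
  have key2 : ∀ p q : M, p ∈ D2 → q ∉ D2 → ∃ A B : Set (Quotient h.setoid), IsOpen A ∧ IsOpen B ∧
      h.pr p ∈ A ∧ h.pr q ∈ B ∧ Disjoint A B := by
    intro p q hp hq
    obtain ⟨ρ, hρ, hqρ⟩ := h.mem_inner hq
    exact ⟨h.pr '' h.outer' ρ, h.pr '' h.inner' ρ,
      h.isOpen_image_pr (h.open2 ρ hρ) (h.outer_sat1 hρ) (h.outer_sat2 ρ),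
      h.isOpen_image_pr (h.open1 ρ hρ) (h.inner_sat1 ρ) (h.inner_sat2 ρ),
      ⟨p, Or.inl hp, rfl⟩, ⟨q, hqρ, rfl⟩,
      (h.disjoint_image (h.disjoint_sets hρ) (h.inner_sat1 ρ) (h.inner_sat2 ρ)).symm⟩
  have sw : ∀ p q : M, (∃ A B : Set (Quotient h.setoid), IsOpen A ∧ IsOpen B ∧
      h.pr p ∈ A ∧ h.pr q ∈ B ∧ Disjoint A B) → ∃ A B : Set (Quotient h.setoid), IsOpen A ∧
      IsOpen B ∧ h.pr q ∈ A ∧ h.pr p ∈ B ∧ Disjoint A B := by
    rintro p q ⟨A, B, h1, h2, h3, h4, h5⟩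
    exact ⟨B, A, h2, h1, h4, h3, h5.symm⟩
  refine ⟨fun x y hxy => ?_⟩
  obtain ⟨p, rfl⟩ := Quotient.exists_rep x
  obtain ⟨q, rfl⟩ := Quotient.exists_rep y
  have hpq : ¬ (p = q ∨ (p ∈ D1 ∧ q ∈ D1) ∨ (p ∈ D2 ∧ q ∈ D2)) := fun h1 =>
    hxy ((h.pr_eq_iff p q).2 h1)
  have goal : ∃ A B : Set (Quotient h.setoid), IsOpen A ∧ IsOpen B ∧
      h.pr p ∈ A ∧ h.pr q ∈ B ∧ Disjoint A B := by
    by_cases hp1 : p ∈ D1
    · exact key1 p q hp1 fun hq => hpq (Or.inr (Or.inl ⟨hp1, hq⟩))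
    by_cases hq1 : q ∈ D1
    · exact sw _ _ (key1 q p hq1 hp1)
    by_cases hp2 : p ∈ D2
    · exact key2 p q hp2 fun hq => hpq (Or.inr (Or.inr ⟨hp2, hq⟩))
    by_cases hq2 : q ∈ D2
    · exact sw _ _ (key2 q p hq2 hp2)
    have hpq' : p ≠ q := fun h1 => hpq (Or.inl h1)
    obtain ⟨A, B, hA, hB, hpA, hqB, hAB⟩ := t2_separation hpq'
    have hX : IsOpen (F '' {0}ᶜ) := isOpen_image_of_ld isOpen_compl_singleton
      fun x hx => h.ld x hx
    have hX1 : ∀ p ∈ F '' {0}ᶜ, p ∉ D1 ∧ p ∉ D2 := by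
      rintro _ ⟨x, hx, rfl⟩
      exact ⟨h.not1 x hx, h.not2 x hx⟩
    have hX2 : ∀ p, p ∉ D1 → p ∉ D2 → p ∈ F '' {0}ᶜ := by
      intro p h1 h2
      rcases h.cover p with h3 | h3 | ⟨x, hx, rfl⟩
      · exact absurd h3 h1
      · exact absurd h3 h2
      · exact ⟨x, hx, rfl⟩
    refine ⟨h.pr '' (A ∩ F '' {0}ᶜ), h.pr '' (B ∩ F '' {0}ᶜ),
      h.isOpen_image_pr (hA.inter hX) (fun p hp _ h1 => absurd h1 (hX1 p hp.2).1)
        (fun p hp _ h1 => absurd h1 (hX1 p hp.2).2),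
      h.isOpen_image_pr (hB.inter hX) (fun p hp _ h1 => absurd h1 (hX1 p hp.2).1)
        (fun p hp _ h1 => absurd h1 (hX1 p hp.2).2),
      ⟨p, ⟨hpA, hX2 p hp1 hp2⟩, rfl⟩, ⟨q, ⟨hqB, hX2 q hq1 hq2⟩, rfl⟩,
      h.disjoint_image (hAB.mono inter_subset_left inter_subset_left)
        (fun p hp _ h1 => absurd h1 (hX1 p hp.2).1) (fun p hp _ h1 => absurd h1 (hX1 p hp.2).2)⟩
  obtain ⟨A, B, h1, h2, h3, h4, h5⟩ := goal
  exact ⟨A, B, h1, h2, h3, h4, h5⟩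

/-- The open set of regular points. -/
def U (h : Data Γ F D1 D2) : Opens M :=
  ⟨F '' {0}ᶜ, isOpen_image_of_ld isOpen_compl_singleton fun x hx => h.ld x hx⟩

lemma e0_ne : (EuclideanSpace.single 0 1 : E4) ≠ 0 := by
  intro h
  have := congrArg (fun v : E4 => v 0) h
  simp at this

lemma mem_U (h : Data Γ F D1 D2) {x : E4} (hx : x ≠ 0) : F x ∈ h.U := ⟨x, hx, rfl⟩

/-- The covering map of the regular part. -/
noncomputable def P (h : Data Γ F D1 D2) (x : E4) : h.U :=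
  vinv h.U ⟨F (EuclideanSpace.single 0 1), h.mem_U e0_ne⟩ (F x)

lemma P_val (h : Data Γ F D1 D2) {x : E4} (hx : x ≠ 0) : (h.P x : M) = F x :=
  vinv_val _ _ (h.mem_U hx)

lemma ld_P (h : Data Γ F D1 D2) (x : E4) (hx : x ≠ 0) :
    IsLocalDiffeomorphAt (𝓡 4) (𝓡 4) ∞ h.P x :=
  (h.ld x hx).comp (𝓡 4) h.U (ld_vinv _ _ (h.mem_U hx))

lemma cover_P (h : Data Γ F D1 D2) : Cover Γ h.P where
  ld := h.ld_P
  eq x y hx hy hxy := by
    have := congrArg Subtype.val hxy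
    rw [h.P_val hx, h.P_val hy] at this
    exact h.eq x y hx hy this
  inv γ hγ x hx := by
    have h1 : γ x ≠ 0 := fun h2 => hx ((map_eq_zero_iff γ γ.injective).1 h2)
    apply Subtype.ext
    rw [h.P_val hx, h.P_val h1, h.inv γ hγ x hx]
  surj p := by
    obtain ⟨x, hx, hp⟩ := p.2
    exact ⟨x, hx, Subtype.ext ((h.P_val hx).trans hp)⟩

/-- The main construction. -/
theorem admits [T2Space M] [CompactSpace M] (h : Data Γ F D1 D2) :
    AdmitsOrbifoldSingularEinsteinMetric M := by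
  obtain ⟨d1, hd1⟩ := h.conn1.nonempty
  obtain ⟨d2, hd2⟩ := h.conn2.nonempty
  have hT2 : T2Space (Quotient h.setoid) := h.t2
  have hpre1 : h.pr ⁻¹' {h.pr d1} = D1 := by
    ext p
    constructor
    · intro hp
      rcases (h.pr_eq_iff p d1).1 hp with h3 | ⟨h3, -⟩ | ⟨-, h3⟩
      · exact h3 ▸ hd1
      · exact h3
      · exact absurd h3 (h.disj _ hd1)
    · intro hp
      exact (h.pr_eq_iff p d1).2 (Or.inr (Or.inl ⟨hp, hd1⟩))
  have hpre2 : h.pr ⁻¹' {h.pr d2} = D2 := by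
    ext p
    constructor
    · intro hp
      rcases (h.pr_eq_iff p d2).1 hp with h3 | ⟨-, h3⟩ | ⟨h3, -⟩
      · exact h3 ▸ hd2
      · exact absurd hd2 (h.disj _ h3)
      · exact h3
    · intro hp
      exact (h.pr_eq_iff p d2).2 (Or.inr (Or.inr ⟨hp, hd2⟩))
  have hU : (h.U : Set M) = (h.pr ⁻¹' {h.pr d1, h.pr d2})ᶜ := by
    have : h.pr ⁻¹' {h.pr d1, h.pr d2} = D1 ∪ D2 := by
      rw [Set.insert_eq, preimage_union, hpre1, hpre2]
    rw [this]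
    ext p
    constructor
    · rintro ⟨x, hx, rfl⟩ (h1 | h1)
      · exact h.not1 x hx h1
      · exact h.not2 x hx h1
    · intro hp
      rcases h.cover p with h3 | h3 | ⟨x, hx, rfl⟩
      · exact absurd (Or.inl h3) hp
      · exact absurd (Or.inr h3) hp
      · exact ⟨x, hx, rfl⟩
  have hUn : ∀ p : h.U, (p : M) ∉ D1 ∧ (p : M) ∉ D2 := by
    rintro ⟨_, x, hx, rfl⟩
    exact ⟨h.not1 x hx, h.not2 x hx⟩
  refine ⟨Quotient h.setoid, inferInstance, h.U, inferInstance, inferInstance, inferInstance,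
    {h.pr d1, h.pr d2}, fun p => h.pr p, h.cover_P.metric, 3, h.pr, ?_, ?_⟩
  · refine ⟨hT2, Quotient.compactSpace, (Set.finite_singleton _).insert _, ?_, ?_,
      h.cover_P.isEinstein, ?_⟩
    · refine Topology.IsOpenEmbedding.of_continuous_injective_isOpenMap
        (h.isQuotientMap_pr.continuous.comp continuous_subtype_val) ?_ ?_
      · intro p q hpq
        rcases (h.pr_eq_iff p q).1 hpq with h3 | ⟨h3, -⟩ | ⟨h3, -⟩
        · exact Subtype.ext h3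
        · exact absurd h3 (hUn p).1
        · exact absurd h3 (hUn p).2
      · intro O hO
        have h1 : IsOpen (Subtype.val '' O : Set M) := h.U.isOpen.isOpenMap_subtype_val O hO
        have h2 := h.isOpen_image_pr h1
          (by rintro _ ⟨p, -, rfl⟩ q h2; exact absurd h2 (hUn p).1)
          (by rintro _ ⟨p, -, rfl⟩ q h2; exact absurd h2 (hUn p).2)
        rwa [Set.image_image] at h2
    · ext q
      constructor
      · rintro ⟨p, rfl⟩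
        have : (p : M) ∈ (h.U : Set M) := p.2
        rw [hU] at this
        exact this
      · intro hq
        obtain ⟨p, rfl⟩ := Quotient.exists_rep q
        have : p ∈ (h.U : Set M) := by
          rw [hU]
          exact hq
        exact ⟨⟨p, this⟩, rfl⟩
    · rintro q (rfl | rfl)
      · exact (h.localModel h.pr h.isQuotientMap_pr h.pr_eq_iff h.U h.P (fun x hx => h.P_val hx)
          h.ld_P h.cover_P.metric (fun x hx a b => h.cover_P.pullCoeff_metric x hx a b) d1 hd1).has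
      · refine (h.swap.localModel h.pr h.isQuotientMap_pr (fun p q => ?_) h.U (h.P ∘ io)
          (fun x hx => h.P_val (io_ne hx))
          (fun x hx => (ld_io hx).comp (𝓡 4) h.U (h.ld_P _ (io_ne hx)))
          h.cover_P.metric (fun x hx a b => pullCoeff_io _ _ h.ld_P
            (fun x hx a b => h.cover_P.pullCoeff_metric x hx a b) hx a b) d2 hd2).has
        rw [h.pr_eq_iff, or_comm (a := p ∈ D2 ∧ q ∈ D2)]
  · refine ⟨h.isQuotientMap_pr.continuous, h.isQuotientMap_pr.surjective, ?_, h.U,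
      Diffeomorph.refl (𝓡 4) h.U ∞, hU, fun x => rfl⟩
    rintro q (rfl | rfl)
    · refine ⟨(isClosed_singleton.preimage h.isQuotientMap_pr.continuous).isCompact, ?_⟩
      rw [hpre1]
      exact h.conn1
    · refine ⟨(isClosed_singleton.preimage h.isQuotientMap_pr.continuous).isCompact, ?_⟩
      rw [hpre2]
      exact h.conn2

end Data

end Pool.Agent.H244R3.Orb
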