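import Pool.Agent.H244R3.OrbTop
import Pool.Agent.H244R3.OrbQuot

set_option autoImplicit false

open Module Set Metric TopologicalSpace
open scoped Manifold ContDiff Topology

/-!
Every closed connected 4-manifold admits an orbifold singular Einstein metric.
-/

namespace Pool.Agent.H244R3.Orb

universe u

lemma conn_general {X : Type*} [TopologicalSpace X] [PreconnectedSpace X] {D K C : Set X}
    (hD : IsClosed D) (hK : IsClosed K) (hcov : ∀ p, p ∈ D ∨ p ∈ K) (hC : IsPreconnected C)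
    (hCD : C ⊆ D) (hKC : ∀ p, p ∈ D → p ∈ K → p ∈ C) : IsPreconnected D := by
  rw [isPreconnected_closed_iff]
  intro t t' ht ht' hs hne hne'
  by_contra hcon
  rw [not_nonempty_iff_eq_empty] at hcon
  have hdis : ∀ p, p ∈ D → p ∈ t → p ∈ t' → False := by
    intro p h1 h2 h3
    have : p ∈ D ∩ (t ∩ t') := ⟨h1, h2, h3⟩
    rw [hcon] at this
    exact this
  have key : ∀ t t' : Set X, IsClosed t → IsClosed t' → D ⊆ t ∪ t' → (D ∩ t).Nonempty →
      (D ∩ t').Nonempty → (∀ p, p ∈ D → p ∈ t → p ∈ t' → False) → C ⊆ t → False := by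
    intro t t' ht ht' hs hne hne' hdis hCt
    have h1 := isPreconnected_closed_iff.1 (isPreconnected_univ (α := X)) ((D ∩ t) ∪ K) (D ∩ t')
      ((hD.inter ht).union hK) (hD.inter ht') ?_ ?_ ?_
    · obtain ⟨p, -, h2, h3⟩ := h1
      rcases h2 with h2 | h2
      · exact hdis p h2.1 h2.2 h3.2
      · exact hdis p h3.1 (hCt (hKC p h3.1 h2)) h3.2
    · intro p _
      rcases hcov p with h2 | h2
      · rcases hs h2 with h3 | h3
        · exact Or.inl (Or.inl ⟨h2, h3⟩)
        · exact Or.inr ⟨h2, h3⟩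
      · exact Or.inl (Or.inr h2)
    · obtain ⟨p, hp⟩ := hne
      exact ⟨p, mem_univ _, Or.inl hp⟩
    · obtain ⟨p, hp⟩ := hne'
      exact ⟨p, mem_univ _, hp⟩
  have hCs : C ⊆ t ∨ C ⊆ t' := by
    by_contra h
    push Not at h
    obtain ⟨h1, h2⟩ := h
    obtain ⟨p, hp, hpt⟩ := not_subset.1 h1
    obtain ⟨p', hp', hpt'⟩ := not_subset.1 h2
    have h3 : p ∈ t' := (hs (hCD hp)).resolve_left hpt
    have h4 : p' ∈ t := (hs (hCD hp')).resolve_right hpt'
    obtain ⟨z, hz, hz1, hz2⟩ := isPreconnected_closed_iff.1 hC t t' ht ht' (hCD.trans hs)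
      ⟨p', hp', h4⟩ ⟨p, hp, h3⟩
    exact hdis z (hCD hz) hz1 hz2
  rcases hCs with h | h
  · exact key t t' ht ht' hs hne hne' hdis h
  · exact key t' t ht' ht (by rwa [union_comm]) hne' hne (fun p h1 h2 h3 => hdis p h1 h3 h2) h

variable {M : Type u} [TopologicalSpace M] [ChartedSpace E4 M] [IsManifold (𝓡 4) ∞ M]

/-- The embedded copy of `ℝ⁴`. -/
lemma exists_kappa [Nonempty M] : ∃ κ : E4 → M, Function.Injective κ ∧ Continuous κ ∧ IsOpenMap κ ∧
    ∀ x, IsLocalDiffeomorphAt (𝓡 4) (𝓡 4) ∞ κ x := by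
  obtain ⟨p⟩ := ‹Nonempty M›
  obtain ⟨r, hr, hball⟩ := Metric.isOpen_iff.1 (chartAt E4 p).open_target (chartAt E4 p p)
    (mem_chart_target E4 p)
  set U : OpenPartialHomeomorph E4 E4 := OpenPartialHomeomorph.univBall (chartAt E4 p p) r with hU
  have hUs : U.source = univ := OpenPartialHomeomorph.univBall_source _ _
  have hUt : U.target = ball (chartAt E4 p p) r := OpenPartialHomeomorph.univBall_target _ hr
  set T : OpenPartialHomeomorph E4 M := U.trans (chartAt E4 p).symm with hT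
  have hmem : ∀ x, U x ∈ (chartAt E4 p).target := by
    intro x
    apply hball
    rw [← hUt]
    exact U.map_source (by rw [hUs]; exact mem_univ _)
  have hTs : T.source = univ := by
    rw [hT, OpenPartialHomeomorph.trans_source, hUs, univ_inter, eq_univ_iff_forall]
    exact hmem
  have hTt : T.target = (chartAt E4 p).source ∩ (chartAt E4 p) ⁻¹' ball (chartAt E4 p p) r := by
    rw [hT, OpenPartialHomeomorph.trans_target, hUt]
    rfl
  refine ⟨T, ?_, ?_, ?_, ?_⟩
  · intro x y h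
    exact T.injOn (by rw [hTs]; exact mem_univ _) (by rw [hTs]; exact mem_univ _) h
  · have := T.continuousOn
    rwa [hTs, continuousOn_univ] at this
  · intro O hO
    exact T.isOpen_image_of_subset_source hO (by rw [hTs]; exact subset_univ _)
  · intro x
    refine ⟨{ toPartialEquiv := T.toPartialEquiv
              open_source := T.open_source
              open_target := T.open_target
              contMDiffOn_toFun := ?_
              contMDiffOn_invFun := ?_ }, ?_, fun _ _ => rfl⟩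
    · have h1 : ContMDiffOn (𝓡 4) (𝓡 4) ∞ (chartAt E4 p).symm (chartAt E4 p).target :=
        contMDiffOn_chart_symm
      have h2 : ContMDiff (𝓡 4) (𝓡 4) ∞ U := OpenPartialHomeomorph.contDiff_univBall.contMDiff
      exact h1.comp (h2.contMDiffOn (s := T.source)) fun y _ => hmem y
    · have h1 : ContMDiffOn (𝓡 4) (𝓡 4) ∞ (chartAt E4 p) (chartAt E4 p).source :=
        contMDiffOn_chart
      have h2 : ContMDiffOn (𝓡 4) (𝓡 4) ∞ U.symm (ball (chartAt E4 p p) r) :=
        OpenPartialHomeomorph.contDiffOn_univBall_symm.contMDiffOn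
      have h3 : ContMDiffOn (𝓡 4) (𝓡 4) ∞ T.symm T.target := by
        rw [hTt]
        exact h2.comp (h1.mono inter_subset_left) fun y hy => hy.2
      exact h3
    · show x ∈ T.source
      rw [hTs]
      exact mem_univ _

lemma Icc_comp (a b : ℝ) : IsCompact (Icc a b) := isCompact_Icc

theorem exists_data [T2Space M] [ConnectedSpace M] :
    ∃ (F : E4 → M) (D1 D2 : Set M), Data Q8 F D1 D2 := by
  obtain ⟨κ, hinj, hcont, hopen, hld⟩ := exists_kappa (M := M)
  have h3 := r3_sq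
  have h3p := r3_pos
  have hlt : (1 / 2 : ℝ) < r3 / 2 := by nlinarith
  have hI0 : ({0} : Set ℝ) ⊆ Iful := by
    rintro _ rfl
    exact ⟨le_refl _, by norm_num⟩
  have hIi : Ico (0 : ℝ) (1 / 2) ⊆ Iful := fun d hd => ⟨hd.1, by nlinarith [hd.1, hd.2]⟩
  have hic : Icc (0 : ℝ) (1 / 2) ⊆ {d | 0 ≤ d ∧ 4 * d ^ 2 < 3} := fun d hd =>
    ⟨hd.1, by nlinarith [hd.1, hd.2]⟩
  have hdd : ∀ x : E4, x ≠ 0 → 0 < dd (sq x) ∧ dd (sq x) < 1 / 2 := fun x hx =>
    ⟨dd_pos (sq_pos hx), dd_lt (sq_nonneg' x)⟩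
  have himg : ∀ (I : Set ℝ) (y : E4), κ y ∈ κ '' AA I ↔ y ∈ AA I := fun I y =>
    hinj.mem_set_image
  have h0ne : ∀ x : E4, x ≠ 0 → ff x ∉ AA {0} := fun x hx h => by
    rw [ff_mem_iff hx hI0, mem_singleton_iff] at h
    exact (hdd x hx).1.ne' h
  have hfin : ∀ x : E4, x ≠ 0 → ff x ∈ AA (Ico 0 (1 / 2)) := fun x hx => by
    rw [ff_mem_iff hx hIi]
    exact ⟨(hdd x hx).1.le, (hdd x hx).2⟩
  have hsurj : ∀ y : E4, y ∈ AA (Ico 0 (1 / 2)) → y ∉ AA {0} → ∃ x : E4, x ≠ 0 ∧ ff x = y := by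
    rintro y ⟨w, hw, d, hd, e⟩ hy0
    have hd0 : 0 < d := by
      rcases hd.1.lt_or_eq with h | h
      · exact h
      · exfalso
        subst h
        exact hy0 ⟨w, hw, 0, rfl, e⟩
    obtain ⟨x, hx, hx1, -⟩ := ff_surj hd0 hd.2 (y := y) ⟨w, hw, d, rfl, e⟩
    exact ⟨x, hx, hx1⟩
  have hopenIn : IsOpen (AA (Ico 0 (1 / 2))) := by
    refine isOpen_AA hIi ?_
    have : Iful \ Ico 0 (1 / 2) = Icc (1 / 2) (r3 / 2) := by
      rw [Iful_eq]
      ext d
      constructor
      · rintro ⟨⟨h1, h2⟩, h4⟩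
        refine ⟨?_, h2⟩
        by_contra h5
        exact h4 ⟨h1, not_le.1 h5⟩
      · rintro ⟨h1, h2⟩
        exact ⟨⟨by linarith, h2⟩, fun h4 => absurd h4.2 (not_lt.2 h1)⟩
    rw [this]
    exact isCompact_Icc
  have hD2c : IsClosed ((κ '' AA (Ico 0 (1 / 2)))ᶜ) := (hopen _ hopenIn).isClosed_compl
  refine ⟨κ ∘ ff, κ '' AA {0}, (κ '' AA (Ico 0 (1 / 2)))ᶜ, ?_⟩
  refine
    { fin := Q8_finite
      nontriv := Q8_ne_bot
      free := ?_
      ld := fun x hx => (ld_ff hx).comp (𝓡 4) M (hld _)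
      eq := fun x y hx hy h => ff_eq hx hy (hinj h)
      inv := fun γ hγ x _ => congrArg κ (ff_inv hγ x)
      conn1 := ?_
      conn2 := ⟨?_, ?_⟩
      disj := ?_
      not1 := ?_
      not2 := ?_
      cover := ?_
      open1 := ?_
      open2 := ?_ }
  · intro γ hγ hne x hx h
    refine hne (Q8_free γ hγ x ?_ h)
    rintro rfl
    rw [mem_sphere_zero_iff_norm, norm_zero] at hx
    exact zero_ne_one hx
  · refine (isConnected_AA isConnected_singleton ?_).image _ hcont.continuousOn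
    rintro _ rfl
    exact ⟨le_refl _, by norm_num⟩
  · obtain ⟨y, hy⟩ := isConnected_outer.nonempty
    refine ⟨κ y, ?_⟩
    rw [mem_compl_iff, himg]
    intro h
    obtain ⟨d, hd, hd'⟩ := AA_unique hIi (by rw [Iful_eq]; exact Icc_subset_Icc_left (by norm_num))
      h hy
    exact absurd hd.2 (not_lt.2 hd'.1)
  · refine conn_general (K := κ '' AA (Icc 0 (1 / 2))) (C := κ '' AA (Icc (1 / 2) (r3 / 2))) hD2c
      ((isCompact_AA isCompact_Icc hic).image hcont).isClosed ?_
      (isConnected_outer.isPreconnected.image _ hcont.continuousOn) ?_ ?_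
    · intro p
      by_cases hp : p ∈ κ '' AA (Ico 0 (1 / 2))
      · exact Or.inr (image_mono (AA_mono Ico_subset_Icc_self) hp)
      · exact Or.inl hp
    · rintro _ ⟨y, hy, rfl⟩ h
      rw [himg] at h
      obtain ⟨d, hd, hd'⟩ := AA_unique hIi
        (by rw [Iful_eq]; exact Icc_subset_Icc_left (by norm_num)) h hy
      exact absurd hd.2 (not_lt.2 hd'.1)
    · rintro _ h ⟨y, ⟨w, hw, d, hd, e⟩, rfl⟩
      rw [mem_compl_iff, himg] at h
      refine mem_image_of_mem _ ⟨w, hw, d, ⟨?_, by linarith [hd.2]⟩, e⟩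
      by_contra h5
      exact h ⟨w, hw, d, ⟨hd.1, not_le.1 h5⟩, e⟩
  · rintro _ ⟨y, hy, rfl⟩ h
    rw [mem_compl_iff, himg] at h
    refine h (AA_mono ?_ hy)
    rintro _ rfl
    exact ⟨le_refl _, by norm_num⟩
  · intro x hx h
    exact h0ne x hx ((himg _ _).1 h)
  · intro x hx h
    exact h (mem_image_of_mem _ (hfin x hx))
  · intro p
    by_cases hp : p ∈ κ '' AA (Ico 0 (1 / 2))
    · obtain ⟨y, hy, rfl⟩ := hp
      by_cases hy0 : y ∈ AA {0}
      · exact Or.inl (mem_image_of_mem _ hy0)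
      · obtain ⟨x, hx, hxy⟩ := hsurj y hy hy0
        exact Or.inr (Or.inr ⟨x, hx, congrArg κ hxy⟩)
    · exact Or.inr (Or.inl hp)
  · intro ρ hρ
    have hd1 : 0 < dd (ρ ^ 2) := dd_pos (by positivity)
    have hd2 : dd (ρ ^ 2) < 1 / 2 := dd_lt (by positivity)
    have hIρ : Ico 0 (dd (ρ ^ 2)) ⊆ Iful := (Ico_subset_Ico_right hd2.le).trans hIi
    have hset : κ '' AA {0} ∪ (κ ∘ ff) '' {x | x ≠ 0 ∧ ‖x‖ < ρ} =
        κ '' AA (Ico 0 (dd (ρ ^ 2))) := by
      ext p
      constructor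
      · rintro (⟨y, hy, rfl⟩ | ⟨x, ⟨hx, hxρ⟩, rfl⟩)
        · refine mem_image_of_mem _ (AA_mono ?_ hy)
          rintro _ rfl
          exact ⟨le_refl _, hd1⟩
        · refine mem_image_of_mem _ ?_
          rw [ff_mem_iff hx hIρ]
          refine ⟨(hdd x hx).1.le, ?_⟩
          rw [dd_lt_iff (sq_nonneg' x) (by positivity), sq_eq]
          exact pow_lt_pow_left₀ hxρ (norm_nonneg _) two_ne_zero
      · rintro ⟨y, hy, rfl⟩
        by_cases hy0 : y ∈ AA {0}
        · exact Or.inl (mem_image_of_mem _ hy0)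
        · obtain ⟨x, hx, rfl⟩ := hsurj y (AA_mono (Ico_subset_Ico_right hd2.le) hy) hy0
          refine Or.inr ⟨x, ⟨hx, ?_⟩, rfl⟩
          rw [ff_mem_iff hx hIρ] at hy
          have h5 := (dd_lt_iff (sq_nonneg' x) (by positivity)).1 hy.2
          rw [sq_eq] at h5
          exact lt_of_pow_lt_pow_left₀ 2 hρ.le h5
    rw [hset]
    refine hopen _ (isOpen_AA hIρ ?_)
    have : Iful \ Ico 0 (dd (ρ ^ 2)) = Icc (dd (ρ ^ 2)) (r3 / 2) := by
      rw [Iful_eq]
      ext d
      constructor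
      · rintro ⟨⟨h1, h2⟩, h4⟩
        refine ⟨?_, h2⟩
        by_contra h5
        exact h4 ⟨h1, not_le.1 h5⟩
      · rintro ⟨h1, h2⟩
        exact ⟨⟨by linarith, h2⟩, fun h4 => absurd h4.2 (not_lt.2 h1)⟩
    rw [this]
    exact isCompact_Icc
  · intro ρ hρ
    have hd1 : 0 < dd (ρ ^ 2) := dd_pos (by positivity)
    have hd2 : dd (ρ ^ 2) < 1 / 2 := dd_lt (by positivity)
    have hIρ : Icc 0 (dd (ρ ^ 2)) ⊆ Iful := fun d hd => hIi ⟨hd.1, hd.2.trans_lt hd2⟩
    have hset : (κ '' AA (Ico 0 (1 / 2)))ᶜ ∪ (κ ∘ ff) '' {x | ρ < ‖x‖} =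
        (κ '' AA (Icc 0 (dd (ρ ^ 2))))ᶜ := by
      ext p
      constructor
      · rintro (h | ⟨x, hxρ, rfl⟩)
        · intro h1
          have hsub : Icc 0 (dd (ρ ^ 2)) ⊆ Ico 0 (1 / 2) := fun d hd => ⟨hd.1, hd.2.trans_lt hd2⟩
          exact h (image_mono (AA_mono hsub) h1)
        · have hx : x ≠ 0 := Data.ne_of_lt hρ hxρ
          intro h1
          have h2 : ff x ∈ AA (Icc 0 (dd (ρ ^ 2))) := (himg _ _).1 h1
          rw [ff_mem_iff hx hIρ] at h2
          have h4 : dd (ρ ^ 2) < dd (sq x) := by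
            rw [dd_lt_iff (by positivity) (sq_nonneg' x), sq_eq]
            exact pow_lt_pow_left₀ hxρ hρ.le two_ne_zero
          exact absurd h2.2 (not_le.2 h4)
      · intro h
        by_cases hp : p ∈ κ '' AA (Ico 0 (1 / 2))
        · obtain ⟨y, hy, rfl⟩ := hp
          rw [mem_compl_iff, himg] at h
          have hy0 : y ∉ AA {0} := fun h0 => h (AA_mono (by
            rintro _ rfl
            exact ⟨le_refl _, hd1.le⟩) h0)
          obtain ⟨x, hx, rfl⟩ := hsurj y hy hy0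
          refine Or.inr ⟨x, ?_, rfl⟩
          rw [ff_mem_iff hx hIρ] at h
          have h4 : dd (ρ ^ 2) < dd (sq x) := by
            by_contra h5
            exact h ⟨(hdd x hx).1.le, not_lt.1 h5⟩
          rw [dd_lt_iff (by positivity) (sq_nonneg' x), sq_eq] at h4
          exact lt_of_pow_lt_pow_left₀ 2 (norm_nonneg _) h4
        · exact Or.inl hp
    rw [hset]
    refine (((isCompact_AA isCompact_Icc ?_).image hcont).isClosed).isOpen_compl
    exact fun d hd => hic ⟨hd.1, hd.2.trans hd2.le⟩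

/-- Every closed connected 4-manifold admits an orbifold singular Einstein metric. -/
theorem admits (M : Type u) [TopologicalSpace M] [ChartedSpace E4 M] [IsManifold (𝓡 4) ∞ M]
    [T2Space M] [CompactSpace M] [ConnectedSpace M] : AdmitsOrbifoldSingularEinsteinMetric M := by
  obtain ⟨F, D1, D2, h⟩ := exists_data (M := M)
  exact h.admits

end Pool.Agent.H244R3.Orb
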