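import Pool.Agent.H244R3.OrbRound
import Pool.Agent.H839R2.Geo.Embed

set_option autoImplicit false
set_option linter.unusedSectionVars false

open scoped Manifold ContDiff Topology RealInnerProductSpace Bundle
open Module Set Metric TopologicalSpace Bundle Bornology

/-!
Push forward of the round metric by a covering map of `ℝ⁴ ∖ {0}` onto a manifold.
-/

namespace Pool.Agent.H244R3.Orb

open Pool.Agent.H839R2.Geo (pull pull_apply contDiffAt_pull isVonNBounded_of_pos)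

section Local

variable {N : Type*} [TopologicalSpace N] [ChartedSpace E4 N] [IsManifold (𝓡 4) ∞ N]

lemma contDiffAt_chart_local {σ : N → E4} {p : N} (hσ : ContMDiffAt (𝓡 4) (𝓡 4) ∞ σ p) (x : N)
    (hp : p ∈ (extChartAt (𝓡 4) x).source) :
    ContDiffAt ℝ ∞ (σ ∘ (extChartAt (𝓡 4) x).symm) (extChartAt (𝓡 4) x p) := by
  rw [← contMDiffAt_iff_contDiffAt]
  have hy : extChartAt (𝓡 4) x p ∈ (extChartAt (𝓡 4) x).target :=
    (extChartAt (𝓡 4) x).map_source hp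
  have h1 : ContMDiffAt 𝓘(ℝ, E4) (𝓡 4) ∞ (extChartAt (𝓡 4) x).symm (extChartAt (𝓡 4) x p) := by
    have := (contMDiffOn_extChartAt_symm (I := 𝓡 4) (n := ∞) x) _ hy
    exact this.contMDiffAt (extChartAt_target_mem_nhds' hy)
  have h2 : ContMDiffAt (𝓡 4) (𝓡 4) ∞ σ ((extChartAt (𝓡 4) x).symm (extChartAt (𝓡 4) x p)) := by
    rwa [(extChartAt (𝓡 4) x).left_inv hp]
  exact h2.comp _ h1

lemma mfderiv_comp_chart_local {σ : N → E4} {p : N} (hσ : ContMDiffAt (𝓡 4) (𝓡 4) ∞ σ p) (x : N)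
    (hp : p ∈ (extChartAt (𝓡 4) x).source) (a : E4) :
    fderiv ℝ (σ ∘ (extChartAt (𝓡 4) x).symm) (extChartAt (𝓡 4) x p) a =
      mfderiv (𝓡 4) (𝓡 4) σ ((extChartAt (𝓡 4) x).symm (extChartAt (𝓡 4) x p))
        (mfderiv 𝓘(ℝ, E4) (𝓡 4) (extChartAt (𝓡 4) x).symm (extChartAt (𝓡 4) x p) a) := by
  have hy : extChartAt (𝓡 4) x p ∈ (extChartAt (𝓡 4) x).target :=
    (extChartAt (𝓡 4) x).map_source hp
  have h1 : MDifferentiableAt 𝓘(ℝ, E4) (𝓡 4) (extChartAt (𝓡 4) x).symm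
      (extChartAt (𝓡 4) x p) := by
    have := (contMDiffOn_extChartAt_symm (I := 𝓡 4) (n := ∞) x) _ hy
    exact (this.contMDiffAt (extChartAt_target_mem_nhds' hy)).mdifferentiableAt (by simp)
  have h2 : ContMDiffAt (𝓡 4) (𝓡 4) ∞ σ ((extChartAt (𝓡 4) x).symm (extChartAt (𝓡 4) x p)) := by
    rwa [(extChartAt (𝓡 4) x).left_inv hp]
  rw [← mfderiv_eq_fderiv, mfderiv_comp _ (h2.mdifferentiableAt (by simp)) h1]
  rfl

set_option backward.isDefEq.respectTransparency false in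
/-- Smoothness of a field of forms which is locally a pull back. -/
lemma contMDiffAt_of_local (B : ∀ p : N, TangentSpace (𝓡 4) p →L[ℝ] TangentSpace (𝓡 4) p →L[ℝ] ℝ)
    (σ : N → E4) (p0 : N) (hσ : ∀ᶠ p in 𝓝 p0, ContMDiffAt (𝓡 4) (𝓡 4) ∞ σ p)
    (H : E4 → E4 →L[ℝ] E4 →L[ℝ] ℝ) (hH : ContDiff ℝ ∞ H)
    (hB : ∀ᶠ p in 𝓝 p0, ∀ a b : E4, B p a b =
      H (σ p) (mfderiv (𝓡 4) (𝓡 4) σ p a) (mfderiv (𝓡 4) (𝓡 4) σ p b)) :
    ContMDiffAt (𝓡 4) ((𝓡 4).prod 𝓘(ℝ, E4 →L[ℝ] E4 →L[ℝ] ℝ)) ∞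
      (fun p : N => TotalSpace.mk' (E4 →L[ℝ] E4 →L[ℝ] ℝ)
        (E := fun p : N => TangentSpace (𝓡 4) p →L[ℝ] TangentSpace (𝓡 4) p →L[ℝ] ℝ) p
        (B p)) p0 := by
  rw [contMDiffAt_section]
  have hkey : (fun p : N => pull H (σ ∘ (extChartAt (𝓡 4) p0).symm) (extChartAt (𝓡 4) p0 p))
      =ᶠ[𝓝 p0]
      (fun p : N => (trivializationAt (E4 →L[ℝ] E4 →L[ℝ] ℝ)
        (fun p : N => TangentSpace (𝓡 4) p →L[ℝ] TangentSpace (𝓡 4) p →L[ℝ] ℝ) p0
        (TotalSpace.mk' (E4 →L[ℝ] E4 →L[ℝ] ℝ) p (B p))).2) := by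
    filter_upwards [extChartAt_source_mem_nhds (I := 𝓡 4) p0, hσ, hB] with p hp hσp hBp
    have hp' : p ∈ (chartAt E4 p0).source := by rwa [extChartAt_source] at hp
    have hy : extChartAt (𝓡 4) p0 p ∈ (extChartAt (𝓡 4) p0).target :=
      (extChartAt (𝓡 4) p0).map_source hp
    have hb : (extChartAt (𝓡 4) p0).symm (extChartAt (𝓡 4) p0 p) = p :=
      (extChartAt (𝓡 4) p0).left_inv hp
    rw [hom_trivializationAt_apply]
    ext a b
    have hI := inCoordinates_apply_eq₂ (F₁ := E4) (E₁ := fun p : N => TangentSpace (𝓡 4) p)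
      (F₂ := E4) (E₂ := fun p : N => TangentSpace (𝓡 4) p) (F₃ := ℝ)
      (E₃ := Bundle.Trivial N ℝ) (x₀ := p0) (x := p) (ϕ := B p) (v := a) (w := b)
      (by simpa using hp') (by simpa using hp') (by simp)
    have hT : ∀ v : E4, (trivializationAt E4 (fun p : N => TangentSpace (𝓡 4) p) p0).symm p v =
        mfderiv 𝓘(ℝ, E4) (𝓡 4) (extChartAt (𝓡 4) p0).symm (extChartAt (𝓡 4) p0 p) v := by
      intro v
      have h2 := TangentBundle.symmL_trivializationAt (𝕜 := ℝ) (I := 𝓡 4) hp'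
      rw [(𝓡 4).range_eq_univ, mfderivWithin_univ] at h2
      have h4 := Bundle.Trivialization.symmL_apply (R := ℝ)
        (trivializationAt E4 (TangentSpace (𝓡 4)) p0) (b := p) (by simpa using hp') v
      exact h4.symm.trans (congrArg (fun L : E4 →L[ℝ] E4 => L v) h2)
    erw [hI]
    rw [hT, hT, pull_apply, mfderiv_comp_chart_local hσp p0 hp,
      mfderiv_comp_chart_local hσp p0 hp]
    have h5 : ∀ r : ℝ, (trivializationAt ℝ (Bundle.Trivial N ℝ) p0).linearMapAt ℝ p r = r := by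
      intro r
      rw [Bundle.Trivialization.linearMapAt_apply]
      simp
    erw [h5]
    have h6 : ∀ (q : N) (_ : q = p) (u v : E4),
        H (σ q) ((mfderiv (𝓡 4) (𝓡 4) σ q : E4 →L[ℝ] E4) u)
          ((mfderiv (𝓡 4) (𝓡 4) σ q : E4 →L[ℝ] E4) v) =
        H (σ p) ((mfderiv (𝓡 4) (𝓡 4) σ p : E4 →L[ℝ] E4) u)
          ((mfderiv (𝓡 4) (𝓡 4) σ p : E4 →L[ℝ] E4) v) := by
      rintro _ rfl u v
      rfl
    exact (h6 _ hb _ _).trans (hBp _ _).symm
  refine ContMDiffAt.congr_of_eventuallyEq ?_ hkey.symm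
  have h1 : ContDiffAt ℝ ∞ (pull H (σ ∘ (extChartAt (𝓡 4) p0).symm))
      (extChartAt (𝓡 4) p0 p0) := by
    apply contDiffAt_pull
    · exact hH.contDiffAt
    · exact contDiffAt_chart_local hσ.self_of_nhds p0 (mem_extChartAt_source p0)
  exact h1.contMDiffAt.comp p0 contMDiffAt_extChartAt

end Local

section Cover

variable {N : Type*} [TopologicalSpace N] [ChartedSpace E4 N] [IsManifold (𝓡 4) ∞ N]

/-- `P` is a covering map of `ℝ⁴ ∖ {0}` onto `N` with the group `Γ` of linear isometries. -/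
structure Cover (Γ : Subgroup (E4 ≃ₗᵢ[ℝ] E4)) (P : E4 → N) : Prop where
  ld : ∀ x, x ≠ 0 → IsLocalDiffeomorphAt (𝓡 4) (𝓡 4) ∞ P x
  eq : ∀ x y, x ≠ 0 → y ≠ 0 → P x = P y → ∃ γ ∈ Γ, γ x = y
  inv : ∀ γ ∈ Γ, ∀ x, x ≠ 0 → P (γ x) = P x
  surj : ∀ p, ∃ x, x ≠ 0 ∧ P x = p

variable {Γ : Subgroup (E4 ≃ₗᵢ[ℝ] E4)} {P : E4 → N}

noncomputable def Cover.L (h : Cover Γ P) (x : E4) (hx : x ≠ 0) : E4 ≃L[ℝ] E4 :=
  (h.ld x hx).mfderivToContinuousLinearEquiv (by simp)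

lemma Cover.L_apply (h : Cover Γ P) (x : E4) (hx : x ≠ 0) (a : E4) :
    h.L x hx a = mfderiv (𝓡 4) (𝓡 4) P x a := rfl

noncomputable def Cover.pt (h : Cover Γ P) (p : N) : E4 := (h.surj p).choose

lemma Cover.pt_ne (h : Cover Γ P) (p : N) : h.pt p ≠ 0 := (h.surj p).choose_spec.1

lemma Cover.P_pt (h : Cover Γ P) (p : N) : P (h.pt p) = p := (h.surj p).choose_spec.2

noncomputable def Cover.B (h : Cover Γ P) (p : N) : E4 →L[ℝ] E4 →L[ℝ] ℝ :=
  (G (h.pt p)).bilinearComp (h.L (h.pt p) (h.pt_ne p)).symm.toContinuousLinearMap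
    (h.L (h.pt p) (h.pt_ne p)).symm.toContinuousLinearMap

lemma Cover.B_apply (h : Cover Γ P) (p : N) (a b : E4) :
    h.B p a b = G (h.pt p) ((h.L (h.pt p) (h.pt_ne p)).symm a)
      ((h.L (h.pt p) (h.pt_ne p)).symm b) := rfl

lemma G_isometry (γ : E4 ≃ₗᵢ[ℝ] E4) (x a b : E4) : G (γ x) (γ a) (γ b) = G x a b := by
  rw [G_apply, G_apply, γ.norm_map, γ.inner_map_map]

lemma Cover.L_comp (h : Cover Γ P) {γ : E4 ≃ₗᵢ[ℝ] E4} (hγ : γ ∈ Γ) {x y : E4} (hx : x ≠ 0)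
    (hy : y ≠ 0) (hxy : γ x = y) (a : E4) : h.L y hy (γ a) = h.L x hx a := by
  subst hxy
  rw [Cover.L_apply, Cover.L_apply]
  have h1 : (fun z => P (γ z)) =ᶠ[𝓝 x] P := by
    filter_upwards [isOpen_ne.mem_nhds hx] with z hz
    exact h.inv γ hγ z hz
  have hd : MDifferentiableAt (𝓡 4) (𝓡 4) P (γ x) :=
    (h.ld _ hy).mdifferentiableAt (by simp)
  have hγd : MDifferentiableAt (𝓡 4) (𝓡 4) (fun z => γ z) x :=
    γ.toContinuousLinearEquiv.differentiableAt.mdifferentiableAt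
  have h2 := mfderiv_comp x hd hγd
  have h3 : mfderiv (𝓡 4) (𝓡 4) (fun z => γ z) x = (γ.toContinuousLinearEquiv : E4 →L[ℝ] E4) := by
    rw [mfderiv_eq_fderiv]
    exact γ.toContinuousLinearEquiv.fderiv
  have h4 : mfderiv (𝓡 4) (𝓡 4) (P ∘ fun z => γ z) x = mfderiv (𝓡 4) (𝓡 4) P x := by
    exact Filter.EventuallyEq.mfderiv_eq h1
  rw [h4, h3] at h2
  exact (congrArg (fun T : E4 →L[ℝ] E4 => T a) h2).symm

lemma Cover.key (h : Cover Γ P) (x : E4) (hx : x ≠ 0) (a b : E4) :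
    h.B (P x) (mfderiv (𝓡 4) (𝓡 4) P x a) (mfderiv (𝓡 4) (𝓡 4) P x b) = G x a b := by
  obtain ⟨γ, hγ, hγx⟩ := h.eq (h.pt (P x)) x (h.pt_ne _) hx (h.P_pt _)
  rw [Cover.B_apply]
  have h1 : ∀ a : E4, (h.L (h.pt (P x)) (h.pt_ne (P x))).symm (mfderiv (𝓡 4) (𝓡 4) P x a) =
      γ.symm a := by
    intro a
    rw [ContinuousLinearEquiv.symm_apply_eq, ← h.L_comp hγ (h.pt_ne (P x)) hx hγx,
      γ.apply_symm_apply, Cover.L_apply]
  rw [h1, h1, ← G_isometry γ, hγx, γ.apply_symm_apply, γ.apply_symm_apply]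

lemma Cover.B_eq (h : Cover Γ P) (p0 : N) : ∃ σ : N → E4,
    (∀ᶠ p in 𝓝 p0, ContMDiffAt (𝓡 4) (𝓡 4) ∞ σ p) ∧ ∀ᶠ p in 𝓝 p0, ∀ a b : E4, h.B p a b =
      G (σ p) (mfderiv (𝓡 4) (𝓡 4) σ p a) (mfderiv (𝓡 4) (𝓡 4) σ p b) := by
  have hx := h.pt_ne p0
  have hld := h.ld _ hx
  set σ := hld.localInverse with hσ
  have hp0 : p0 ∈ σ.source := by
    have := hld.localInverse_mem_source
    rwa [h.P_pt] at this
  have hσp0 : σ p0 = h.pt p0 := by
    have := hld.localInverse_left_inv hld.localInverse_mem_target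
    rwa [h.P_pt] at this
  have hsm : ∀ p ∈ σ.source, ContMDiffAt (𝓡 4) (𝓡 4) ∞ σ p := fun p hp =>
    (hld.localInverse_contMDiffOn p hp).contMDiffAt (σ.open_source.mem_nhds hp)
  refine ⟨σ, ?_, ?_⟩
  · filter_upwards [σ.open_source.mem_nhds hp0] with p hp using hsm p hp
  · have h0 : ∀ᶠ p in 𝓝 p0, σ p ≠ 0 := by
      have hc : ContinuousAt σ p0 := (hsm p0 hp0).continuousAt
      have := hc.eventually (isOpen_ne.mem_nhds (show σ p0 ≠ 0 by rw [hσp0]; exact hx))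
      exact this
    filter_upwards [σ.open_source.mem_nhds hp0, h0] with p hp hne a b
    have hPσ : P (σ p) = p := hld.localInverse_right_inv hp
    have h1 : ∀ a : E4, mfderiv (𝓡 4) (𝓡 4) P (σ p) (mfderiv (𝓡 4) (𝓡 4) σ p a) = a := by
      intro a
      have e1 : (P ∘ σ) =ᶠ[𝓝 p] id := by
        filter_upwards [σ.open_source.mem_nhds hp] with q hq
        exact hld.localInverse_right_inv hq
      have e2 := mfderiv_comp p ((h.ld _ hne).mdifferentiableAt (by simp))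
        ((hsm p hp).mdifferentiableAt (by simp))
      have e3 : mfderiv (𝓡 4) (𝓡 4) (P ∘ σ) p = mfderiv (𝓡 4) (𝓡 4) id p :=
        Filter.EventuallyEq.mfderiv_eq e1
      rw [e3, mfderiv_id] at e2
      exact (congrArg (fun T : E4 →L[ℝ] E4 => T a) e2).symm
    have h2 := h.key (σ p) hne (mfderiv (𝓡 4) (𝓡 4) σ p a) (mfderiv (𝓡 4) (𝓡 4) σ p b)
    rw [h1, h1, hPσ] at h2
    exact h2

/-- The push forward of the round metric. -/
noncomputable def Cover.metric (h : Cover Γ P) : RMetric N where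
  inner p := h.B p
  symm p v w := G_symm _ _ _
  pos p v hv := G_pos _ _ (by
    intro h0
    apply hv
    exact (ContinuousLinearEquiv.map_eq_zero_iff _).1 h0)
  isVonNBounded p := by
    refine isVonNBounded_of_pos (E := E4) (h.B p) ?_
    intro v hv
    exact G_pos _ _ (by
      intro h0
      apply hv
      exact (ContinuousLinearEquiv.map_eq_zero_iff _).1 h0)
  contMDiff := by
    intro p0
    obtain ⟨σ, h1, h2⟩ := h.B_eq p0
    exact contMDiffAt_of_local (fun p => h.B p) σ p0 h1 G contDiff_G h2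

lemma Cover.pullCoeff_metric (h : Cover Γ P) (x : E4) (hx : x ≠ 0) (a b : E4) :
    pullCoeff h.metric P x a b = G x a b := h.key x hx a b

lemma Cover.isEinstein (h : Cover Γ P) : IsEinstein h.metric 3 := by
  intro p
  refine ⟨{0}ᶜ, P, isOpen_compl_singleton, ?_, fun y hy => h.ld y hy, fun y hy => ?_⟩
  · obtain ⟨x, hx, hp⟩ := h.surj p
    exact ⟨x, hx, hp⟩
  · refine (einsteinAt_G y).congr ?_
    filter_upwards [isOpen_compl_singleton.mem_nhds hy] with z hz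
    funext a b
    exact h.pullCoeff_metric z hz a b

end Cover

end Pool.Agent.H244R3.Orb
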