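import Pool.Agent.H244R3.OrbQuat

set_option autoImplicit false

open Module Set Metric

/-!
The quaternion group, and the uniqueness part of the parametrisation.
-/

namespace Pool.Agent.H244R3.Orb

lemma ext4 {x y : E4} (h0 : x 0 = y 0) (h1 : x 1 = y 1) (h2 : x 2 = y 2) (h3 : x 3 = y 3) :
    x = y := by
  ext i
  fin_cases i
  · exact h0
  · exact h1
  · exact h2
  · exact h3

/-- Right multiplication by `1, i, j, k`. -/
noncomputable def rm (i : Fin 4) (x : E4) : E4 :=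
  match i with
  | 0 => x
  | 1 => !₂[-x 1, x 0, x 3, -x 2]
  | 2 => !₂[-x 2, -x 3, x 0, x 1]
  | 3 => !₂[-x 3, x 2, -x 1, x 0]

lemma rm0 (x : E4) : rm 0 x = x := rfl
lemma rm10 (x : E4) : rm 1 x 0 = -x 1 := rfl
lemma rm11 (x : E4) : rm 1 x 1 = x 0 := rfl
lemma rm12 (x : E4) : rm 1 x 2 = x 3 := rfl
lemma rm13 (x : E4) : rm 1 x 3 = -x 2 := rfl
lemma rm20 (x : E4) : rm 2 x 0 = -x 2 := rfl
lemma rm21 (x : E4) : rm 2 x 1 = -x 3 := rfl
lemma rm22 (x : E4) : rm 2 x 2 = x 0 := rfl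
lemma rm23 (x : E4) : rm 2 x 3 = x 1 := rfl
lemma rm30 (x : E4) : rm 3 x 0 = -x 3 := rfl
lemma rm31 (x : E4) : rm 3 x 1 = x 2 := rfl
lemma rm32 (x : E4) : rm 3 x 2 = -x 1 := rfl
lemma rm33 (x : E4) : rm 3 x 3 = x 0 := rfl

lemma neg_ap (x : E4) (i : Fin 4) : (-x) i = -x i := rfl

lemma rm_neg (i : Fin 4) (x : E4) : rm i (-x) = -rm i x := by
  fin_cases i
  · rfl
  · apply ext4 <;> simp [rm10, rm11, rm12, rm13]
  · apply ext4 <;> simp [rm20, rm21, rm22, rm23]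
  · apply ext4 <;> simp [rm30, rm31, rm32, rm33]

lemma rm_mul (i j : Fin 4) : ∃ k : Fin 4, (∀ x, rm i (rm j x) = rm k x) ∨
    (∀ x, rm i (rm j x) = -rm k x) := by
  fin_cases i <;> fin_cases j
  · exact ⟨0, Or.inl fun x => rfl⟩
  · exact ⟨1, Or.inl fun x => rfl⟩
  · exact ⟨2, Or.inl fun x => rfl⟩
  · exact ⟨3, Or.inl fun x => rfl⟩
  · exact ⟨1, Or.inl fun x => rfl⟩
  · exact ⟨0, Or.inr fun x => by apply ext4 <;> simp [rm0, rm10, rm11, rm12, rm13]⟩
  · exact ⟨3, Or.inr fun x => by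
      apply ext4 <;> simp [rm10, rm11, rm12, rm13, rm20, rm21, rm22, rm23, rm30, rm31, rm32, rm33]⟩
  · exact ⟨2, Or.inl fun x => by
      apply ext4 <;> simp [rm10, rm11, rm12, rm13, rm20, rm21, rm22, rm23, rm30, rm31, rm32, rm33]⟩
  · exact ⟨2, Or.inl fun x => rfl⟩
  · exact ⟨3, Or.inl fun x => by
      apply ext4 <;> simp [rm10, rm11, rm12, rm13, rm20, rm21, rm22, rm23, rm30, rm31, rm32, rm33]⟩
  · exact ⟨0, Or.inr fun x => by apply ext4 <;> simp [rm0, rm20, rm21, rm22, rm23]⟩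
  · exact ⟨1, Or.inr fun x => by
      apply ext4 <;> simp [rm10, rm11, rm12, rm13, rm20, rm21, rm22, rm23, rm30, rm31, rm32, rm33]⟩
  · exact ⟨3, Or.inl fun x => rfl⟩
  · exact ⟨2, Or.inr fun x => by
      apply ext4 <;> simp [rm10, rm11, rm12, rm13, rm20, rm21, rm22, rm23, rm30, rm31, rm32, rm33]⟩
  · exact ⟨1, Or.inl fun x => by
      apply ext4 <;> simp [rm10, rm11, rm12, rm13, rm20, rm21, rm22, rm23, rm30, rm31, rm32, rm33]⟩
  · exact ⟨0, Or.inr fun x => by apply ext4 <;> simp [rm0, rm30, rm31, rm32, rm33]⟩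

/-- The quaternion group, acting on `ℝ⁴` by right multiplications. -/
def Q8 : Subgroup (E4 ≃ₗᵢ[ℝ] E4) where
  carrier := {γ | ∃ i : Fin 4, (∀ x, γ x = rm i x) ∨ (∀ x, γ x = -rm i x)}
  mul_mem' := by
    rintro γ δ ⟨i, hi⟩ ⟨j, hj⟩
    obtain ⟨k, hk⟩ := rm_mul i j
    refine ⟨k, ?_⟩
    have e : ∀ x, (γ * δ) x = γ (δ x) := fun x => rfl
    rcases hi with hi | hi <;> rcases hj with hj | hj <;> rcases hk with hk | hk
    · exact Or.inl fun x => by rw [e, hj, hi, hk]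
    · exact Or.inr fun x => by rw [e, hj, hi, hk]
    · exact Or.inr fun x => by rw [e, hj, hi, rm_neg, hk]
    · exact Or.inl fun x => by rw [e, hj, hi, rm_neg, hk, neg_neg]
    · exact Or.inr fun x => by rw [e, hj, hi, hk]
    · exact Or.inl fun x => by rw [e, hj, hi, hk, neg_neg]
    · exact Or.inl fun x => by rw [e, hj, hi, rm_neg, hk, neg_neg]
    · exact Or.inr fun x => by rw [e, hj, hi, rm_neg, hk, neg_neg]
  one_mem' := ⟨0, Or.inl fun x => rfl⟩
  inv_mem' := by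
    rintro γ ⟨i, hi⟩
    have key : ∀ i : Fin 4, i ≠ 0 → ∀ x, rm i (rm i x) = -x := by
      intro i hi x
      fin_cases i
      · exact absurd rfl hi
      · apply ext4 <;> simp [rm10, rm11, rm12, rm13]
      · apply ext4 <;> simp [rm20, rm21, rm22, rm23]
      · apply ext4 <;> simp [rm30, rm31, rm32, rm33]
    have e : ∀ x y, γ y = x → γ⁻¹ x = y := by
      intro x y h
      rw [← h]
      exact γ.symm_apply_apply y
    rcases eq_or_ne i 0 with rfl | h0
    · rcases hi with hi | hi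
      · exact ⟨0, Or.inl fun x => e _ _ (by rw [hi]; rfl)⟩
      · exact ⟨0, Or.inr fun x => e _ _ (by rw [hi, rm0, rm0, neg_neg])⟩
    · rcases hi with hi | hi
      · exact ⟨i, Or.inr fun x => e _ _ (by rw [hi, rm_neg, key i h0, neg_neg])⟩
      · exact ⟨i, Or.inl fun x => e _ _ (by rw [hi, key i h0, neg_neg])⟩

lemma Q8_free (γ : E4 ≃ₗᵢ[ℝ] E4) (hγ : γ ∈ Q8) (x : E4) (hx : x ≠ 0) (h : γ x = x) : γ = 1 := by
  have key : ∀ y : E4, y 0 = 0 → y 1 = 0 → y 2 = 0 → y 3 = 0 → y = 0 := fun y h0 h1 h2 h3 =>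
    ext4 h0 h1 h2 h3
  obtain ⟨i, hi⟩ := hγ
  have h0 := congrArg (fun v : E4 => v 0) h
  have h1 := congrArg (fun v : E4 => v 1) h
  have h2 := congrArg (fun v : E4 => v 2) h
  have h3 := congrArg (fun v : E4 => v 3) h
  fin_cases i
  · rcases hi with hi | hi
    · exact LinearIsometryEquiv.ext fun y => hi y
    · exfalso
      apply hx
      have hi' : γ x = -x := hi x
      simp only [hi', neg_ap] at h0 h1 h2 h3
      apply key <;> linarith
  all_goals
    exfalso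
    apply hx
    rcases hi with hi | hi
    all_goals
      simp only [hi, neg_ap] at h0 h1 h2 h3
      first
      | simp only [Fin.mk_one, Fin.isValue, rm10, rm11, rm12, rm13] at h0 h1 h2 h3
        apply key <;> linarith
      | simp only [Fin.reduceFinMk, Fin.isValue, rm20, rm21, rm22, rm23] at h0 h1 h2 h3
        apply key <;> linarith
      | simp only [Fin.reduceFinMk, Fin.isValue, rm30, rm31, rm32, rm33] at h0 h1 h2 h3
        apply key <;> linarith

lemma neg_mem_Q8 : LinearIsometryEquiv.neg ℝ ∈ Q8 := ⟨0, Or.inr fun _ => rfl⟩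

lemma single_ne : (EuclideanSpace.single 0 1 : E4) ≠ 0 := by
  intro h
  have := congrArg (fun v : E4 => v 0) h
  simp at this

lemma Q8_ne_bot : Q8 ≠ ⊥ := by
  intro h
  have h1 := neg_mem_Q8
  rw [h, Subgroup.mem_bot] at h1
  have h2 := congrArg (fun γ : E4 ≃ₗᵢ[ℝ] E4 => γ (EuclideanSpace.single 0 1) 0) h1
  simp at h2
  linarith

lemma Q8_finite : Finite Q8 := by
  have hfin : (range fun t : Fin 4 × Bool =>
      (if t.2 then rm t.1 (EuclideanSpace.single 0 1) else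
        -rm t.1 (EuclideanSpace.single 0 1) : E4)).Finite := Set.finite_range _
  have : Finite (range fun t : Fin 4 × Bool =>
      (if t.2 then rm t.1 (EuclideanSpace.single 0 1) else
        -rm t.1 (EuclideanSpace.single 0 1) : E4)) := hfin
  refine Finite.of_injective (fun γ : Q8 => (⟨γ.1 (EuclideanSpace.single 0 1), ?_⟩ :
    range fun t : Fin 4 × Bool =>
      (if t.2 then rm t.1 (EuclideanSpace.single 0 1) else
        -rm t.1 (EuclideanSpace.single 0 1) : E4))) ?_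
  · obtain ⟨i, hi | hi⟩ := γ.2
    · exact ⟨(i, true), by simp [hi]⟩
    · exact ⟨(i, false), by simp [hi]⟩
  · intro γ δ h
    have h1 : γ.1 (EuclideanSpace.single 0 1) = δ.1 (EuclideanSpace.single 0 1) :=
      congrArg Subtype.val h
    have h2 := Q8_free (γ.1⁻¹ * δ.1) (Q8.mul_mem (Q8.inv_mem γ.2) δ.2) _ single_ne (by
      show γ.1⁻¹ (δ.1 _) = _
      rw [← h1]
      exact γ.1.symm_apply_apply _)
    apply Subtype.ext
    exact (inv_mul_eq_one.1 h2)

lemma rm_add (i : Fin 4) (x y : E4) : rm i (x + y) = rm i x + rm i y := by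
  have ha : ∀ (x y : E4) (i : Fin 4), (x + y) i = x i + y i := fun _ _ _ => rfl
  fin_cases i
  · rfl
  · apply ext4 <;> simp only [Fin.mk_one, ha, rm10, rm11, rm12, rm13] <;> ring
  · apply ext4 <;> simp only [Fin.reduceFinMk, ha, rm20, rm21, rm22, rm23] <;> ring
  · apply ext4 <;> simp only [Fin.reduceFinMk, ha, rm30, rm31, rm32, rm33] <;> ring

lemma rm_smul (i : Fin 4) (c : ℝ) (x : E4) : rm i (c • x) = c • rm i x := by
  have ha : ∀ (c : ℝ) (y : E4) (i : Fin 4), (c • y) i = c * y i := fun _ _ _ => rfl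
  fin_cases i
  · rfl
  · apply ext4 <;> simp only [Fin.mk_one, ha, rm10, rm11, rm12, rm13] <;> ring
  · apply ext4 <;> simp only [Fin.reduceFinMk, ha, rm20, rm21, rm22, rm23] <;> ring
  · apply ext4 <;> simp only [Fin.reduceFinMk, ha, rm30, rm31, rm32, rm33] <;> ring

lemma sq_rm (i : Fin 4) (x : E4) : sq (rm i x) = sq x := by
  fin_cases i
  · rfl
  · simp only [Fin.mk_one, sq, rm10, rm11, rm12, rm13]; ring
  · simp only [Fin.reduceFinMk, sq, rm20, rm21, rm22, rm23]; ring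
  · simp only [Fin.reduceFinMk, sq, rm30, rm31, rm32, rm33]; ring

/-- `rm i` as a linear isometric equivalence. -/
noncomputable def rmE (i : Fin 4) : E4 ≃ₗᵢ[ℝ] E4 :=
  LinearIsometry.toLinearIsometryEquiv
    { toFun := rm i
      map_add' := rm_add i
      map_smul' := rm_smul i
      norm_map' := fun x => by
        have h := sq_rm i x
        rw [sq_eq, sq_eq] at h
        exact (sq_eq_sq₀ (norm_nonneg _) (norm_nonneg _)).1 h } rfl

lemma rmE_apply (i : Fin 4) (x : E4) : rmE i x = rm i x := rfl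

lemma rmE_mem (i : Fin 4) : rmE i ∈ Q8 := ⟨i, Or.inl fun _ => rfl⟩

noncomputable def nmE (i : Fin 4) : E4 ≃ₗᵢ[ℝ] E4 := LinearIsometryEquiv.neg ℝ * rmE i

lemma nmE_apply (i : Fin 4) (x : E4) : nmE i x = -rm i x := rfl

lemma nmE_mem (i : Fin 4) : nmE i ∈ Q8 := ⟨i, Or.inr fun _ => rfl⟩

/-- Recovering `y` from `pm x y`. -/
lemma rec0 (x y : E4) : sq x * y 0 = x 0 * pm x y 0 - x 1 * pm x y 1 - x 2 * pm x y 2
    - x 3 * pm x y 3 := by
  simp only [sq, pm0, pm1, pm2, pm3]; ring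
lemma rec1 (x y : E4) : sq x * y 1 = x 0 * pm x y 1 + x 1 * pm x y 0 + x 2 * pm x y 3
    - x 3 * pm x y 2 := by
  simp only [sq, pm0, pm1, pm2, pm3]; ring
lemma rec2 (x y : E4) : sq x * y 2 = x 0 * pm x y 2 - x 1 * pm x y 3 + x 2 * pm x y 0
    + x 3 * pm x y 1 := by
  simp only [sq, pm0, pm1, pm2, pm3]; ring
lemma rec3 (x y : E4) : sq x * y 3 = x 0 * pm x y 3 + x 1 * pm x y 2 - x 2 * pm x y 1
    + x 3 * pm x y 0 := by
  simp only [sq, pm0, pm1, pm2, pm3]; ring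

/-- A unit quaternion whose conjugation preserves the three coordinate axes. -/
lemma unit_cases {p0 p1 p2 p3 : ℝ} (hs : p0 ^ 2 + p1 ^ 2 + p2 ^ 2 + p3 ^ 2 = 1)
    (h1 : p1 * p2 + p0 * p3 = 0) (h2 : p1 * p3 - p0 * p2 = 0) (h3 : p1 * p3 + p0 * p2 = 0)
    (h4 : p2 * p3 - p0 * p1 = 0) :
    (p1 = 0 ∧ p2 = 0 ∧ p3 = 0 ∧ p0 ^ 2 = 1) ∨ (p0 = 0 ∧ p2 = 0 ∧ p3 = 0 ∧ p1 ^ 2 = 1) ∨
    (p0 = 0 ∧ p1 = 0 ∧ p3 = 0 ∧ p2 ^ 2 = 1) ∨ (p0 = 0 ∧ p1 = 0 ∧ p2 = 0 ∧ p3 ^ 2 = 1) := by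
  have h5 : p1 * p3 = 0 := by linarith
  have h6 : p0 * p2 = 0 := by linarith
  rcases mul_eq_zero.1 h5 with h7 | h7 <;> rcases mul_eq_zero.1 h6 with h8 | h8 <;>
    subst h7 <;> subst h8
  · have h9 : p2 * p3 = 0 := by linarith
    rcases mul_eq_zero.1 h9 with h10 | h10 <;> subst h10
    · exact Or.inr (Or.inr (Or.inr ⟨rfl, rfl, rfl, by linarith⟩))
    · exact Or.inr (Or.inr (Or.inl ⟨rfl, rfl, rfl, by linarith⟩))
  · have h9 : p0 * p3 = 0 := by linarith
    rcases mul_eq_zero.1 h9 with h10 | h10 <;> subst h10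
    · exact Or.inr (Or.inr (Or.inr ⟨rfl, rfl, rfl, by linarith⟩))
    · exact Or.inl ⟨rfl, rfl, rfl, by linarith⟩
  · have h9 : p1 * p2 = 0 := by linarith
    rcases mul_eq_zero.1 h9 with h10 | h10 <;> subst h10
    · exact Or.inr (Or.inr (Or.inl ⟨rfl, rfl, rfl, by linarith⟩))
    · exact Or.inr (Or.inl ⟨rfl, rfl, rfl, by linarith⟩)
  · have h9 : p0 * p1 = 0 := by linarith
    rcases mul_eq_zero.1 h9 with h10 | h10 <;> subst h10
    · exact Or.inr (Or.inl ⟨rfl, rfl, rfl, by linarith⟩)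
    · exact Or.inl ⟨rfl, rfl, rfl, by linarith⟩

/-- Uniqueness of the top eigenvalue. -/
lemma le_of_qv_eq {C d C' d' : ℝ} {x x' : E4} (hx : sq x = 1) (hx' : sq x' = 1)
    (hC : d ≤ r3 * C) (hd : 0 ≤ d) (hC0 : 0 ≤ C)
    (h : qv C d x = qv C' d' x') :
    C' ≤ C ∧ (C = C' → (r3 * C - d) * a2 (pm x x') ^ 2 = 0 ∧
      (r3 * C + d) * a3 (pm x x') ^ 2 = 0) := by
  have h1 := W_qv C d x ![a1 x', a2 x', a3 x'] ![a1 x', a2 x', a3 x']
  rw [h, W_qv C' d' x'] at h1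
  simp only [Matrix.cons_val_zero, Matrix.cons_val_one, Matrix.cons_val] at h1
  have e1 : a1 x' * a1 x' + a2 x' * a2 x' + a3 x' * a3 x' = 1 := by
    have := na x'; rw [hx'] at this; linarith
  have e2 : b1 x' * a1 x' + b2 x' * a2 x' + b3 x' * a3 x' = 0 := by
    have := oab x'; linarith
  have e3 : c1 x' * a1 x' + c2 x' * a2 x' + c3 x' * a3 x' = 0 := by
    have := oac x'; linarith
  rw [e1, e2, e3, aa x x', ba x x', ca x x', hx, hx'] at h1
  have hp : a1 (pm x x') ^ 2 + a2 (pm x x') ^ 2 + a3 (pm x x') ^ 2 = 1 := by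
    rw [na, sq_pm, hx, hx']; norm_num
  have h2 : 2 / 3 * r3 * (C - C') = (r3 * C - d) * a2 (pm x x') ^ 2 +
      (r3 * C + d) * a3 (pm x x') ^ 2 := by
    linear_combination (exp := 1) -h1 - r3 * C * hp
  have h3 : 0 ≤ (r3 * C - d) * a2 (pm x x') ^ 2 := mul_nonneg (by linarith) (sq_nonneg _)
  have h4 : 0 ≤ (r3 * C + d) * a3 (pm x x') ^ 2 :=
    mul_nonneg (by have := mul_nonneg r3_pos.le hC0; linarith) (sq_nonneg _)
  constructor
  · by_contra hlt
    push Not at hlt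
    have h5 : 2 / 3 * r3 * (C - C') < 0 := by
      have := r3_pos
      nlinarith
    linarith
  · intro hCC
    have h5 : 2 / 3 * r3 * (C - C') = 0 := by rw [hCC]; ring
    constructor <;> linarith

/-- Uniqueness of the frame. -/
lemma frame_unique {C d : ℝ} {x x' : E4} (hx : sq x = 1) (hx' : sq x' = 1)
    (hC : d < r3 * C) (hd : 0 < d) (hC0 : 0 ≤ C) (h : qv C d x = qv C d x') :
    ∃ γ ∈ Q8, γ x = x' := by
  obtain ⟨h1, h2⟩ := (le_of_qv_eq hx hx' hC.le hd.le hC0 h).2 rfl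
  have h3 : a2 (pm x x') = 0 := by
    rcases mul_eq_zero.1 h1 with h4 | h4
    · linarith
    · exact pow_eq_zero_iff two_ne_zero |>.1 h4
  have h4 : a3 (pm x x') = 0 := by
    rcases mul_eq_zero.1 h2 with h4 | h4
    · have := mul_nonneg r3_pos.le hC0
      linarith
    · exact pow_eq_zero_iff two_ne_zero |>.1 h4
  have k1 := W_qv C d x ![c1 x', c2 x', c3 x'] ![c1 x', c2 x', c3 x']
  rw [h, W_qv C d x'] at k1
  simp only [Matrix.cons_val_zero, Matrix.cons_val_one, Matrix.cons_val] at k1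
  have e1 : c1 x' * c1 x' + c2 x' * c2 x' + c3 x' * c3 x' = 1 := by
    have := nc x'; rw [hx'] at this; linarith
  have e2 : b1 x' * c1 x' + b2 x' * c2 x' + b3 x' * c3 x' = 0 := obc x'
  have e3 : a1 x' * c1 x' + a2 x' * c2 x' + a3 x' * c3 x' = 0 := oac x'
  rw [e1, e2, e3, ac x x', bc x x', cc x x', hx, hx'] at k1
  have hp : c1 (pm x x') ^ 2 + c2 (pm x x') ^ 2 + c3 (pm x x') ^ 2 = 1 := by
    rw [nc, sq_pm, hx, hx']; norm_num
  have k2 : (r3 * C + d) * c1 (pm x x') ^ 2 + 2 * d * c2 (pm x x') ^ 2 = 0 := by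
    linear_combination (exp := 1) -k1 + d * hp
  have k3 : 0 ≤ (r3 * C + d) * c1 (pm x x') ^ 2 :=
    mul_nonneg (by have := mul_nonneg r3_pos.le hC0; linarith) (sq_nonneg _)
  have k4 : 0 ≤ 2 * d * c2 (pm x x') ^ 2 := mul_nonneg (by linarith) (sq_nonneg _)
  have h5 : c1 (pm x x') = 0 := by
    have k5 : (r3 * C + d) * c1 (pm x x') ^ 2 = 0 := by linarith
    rcases mul_eq_zero.1 k5 with h4 | h4
    · have := mul_nonneg r3_pos.le hC0
      linarith
    · exact pow_eq_zero_iff two_ne_zero |>.1 h4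
  have h6 : c2 (pm x x') = 0 := by
    have k5 : 2 * d * c2 (pm x x') ^ 2 = 0 := by linarith
    rcases mul_eq_zero.1 k5 with h4 | h4
    · linarith
    · exact pow_eq_zero_iff two_ne_zero |>.1 h4
  have hs : pm x x' 0 ^ 2 + pm x x' 1 ^ 2 + pm x x' 2 ^ 2 + pm x x' 3 ^ 2 = 1 := by
    have := sq_pm x x'
    rw [hx, hx'] at this
    simpa [sq] using this
  have r0 := rec0 x x'
  have r1 := rec1 x x'
  have r2 := rec2 x x'
  have r3 := rec3 x x'
  rw [hx, one_mul] at r0 r1 r2 r3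
  simp only [a2, a3, c1, c2] at h3 h4 h5 h6
  generalize pm x x' 0 = p0 at *
  generalize pm x x' 1 = p1 at *
  generalize pm x x' 2 = p2 at *
  generalize pm x x' 3 = p3 at *
  have hsg : ∀ r : ℝ, r ^ 2 = 1 → r = 1 ∨ r = -1 := fun r hr => by
    have h0 : (r - 1) * (r + 1) = 0 := by linarith
    rcases mul_eq_zero.1 h0 with h0 | h0
    · exact Or.inl (by linarith)
    · exact Or.inr (by linarith)
  rcases unit_cases hs (by linarith) (by linarith) (by linarith) (by linarith) with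
    ⟨rfl, rfl, rfl, h7⟩ | ⟨rfl, rfl, rfl, h7⟩ | ⟨rfl, rfl, rfl, h7⟩ | ⟨rfl, rfl, rfl, h7⟩
  · rcases hsg _ h7 with rfl | rfl
    · refine ⟨rmE 0, rmE_mem 0, ?_⟩
      rw [rmE_apply]
      apply ext4 <;> simp only [rm0] <;> linarith
    · refine ⟨nmE 0, nmE_mem 0, ?_⟩
      rw [nmE_apply]
      apply ext4 <;> simp only [neg_ap, rm0] <;> linarith
  · rcases hsg _ h7 with rfl | rfl
    · refine ⟨rmE 1, rmE_mem 1, ?_⟩
      rw [rmE_apply]
      apply ext4 <;> simp only [rm10, rm11, rm12, rm13] <;> linarith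
    · refine ⟨nmE 1, nmE_mem 1, ?_⟩
      rw [nmE_apply]
      apply ext4 <;> simp only [neg_ap, rm10, rm11, rm12, rm13] <;> linarith
  · rcases hsg _ h7 with rfl | rfl
    · refine ⟨rmE 2, rmE_mem 2, ?_⟩
      rw [rmE_apply]
      apply ext4 <;> simp only [rm20, rm21, rm22, rm23] <;> linarith
    · refine ⟨nmE 2, nmE_mem 2, ?_⟩
      rw [nmE_apply]
      apply ext4 <;> simp only [neg_ap, rm20, rm21, rm22, rm23] <;> linarith
  · rcases hsg _ h7 with rfl | rfl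
    · refine ⟨rmE 3, rmE_mem 3, ?_⟩
      rw [rmE_apply]
      apply ext4 <;> simp only [rm30, rm31, rm32, rm33] <;> linarith
    · refine ⟨nmE 3, nmE_mem 3, ?_⟩
      rw [nmE_apply]
      apply ext4 <;> simp only [neg_ap, rm30, rm31, rm32, rm33] <;> linarith

end Pool.Agent.H244R3.Orb
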