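import Pool.Agent.H244R3.OrbDefs

set_option autoImplicit false

open Module Set Metric

/-!
The rotation matrix of a quaternion and the family of symmetric traceless matrices
`√3 C a aᵀ - (C/√3) I + d (b bᵀ - c cᵀ)`.
-/

namespace Pool.Agent.H244R3.Orb

def a1 (x : E4) : ℝ := x 0 ^ 2 + x 1 ^ 2 - x 2 ^ 2 - x 3 ^ 2
def a2 (x : E4) : ℝ := 2 * (x 1 * x 2 + x 0 * x 3)
def a3 (x : E4) : ℝ := 2 * (x 1 * x 3 - x 0 * x 2)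
def b1 (x : E4) : ℝ := 2 * (x 1 * x 2 - x 0 * x 3)
def b2 (x : E4) : ℝ := x 0 ^ 2 - x 1 ^ 2 + x 2 ^ 2 - x 3 ^ 2
def b3 (x : E4) : ℝ := 2 * (x 2 * x 3 + x 0 * x 1)
def c1 (x : E4) : ℝ := 2 * (x 1 * x 3 + x 0 * x 2)
def c2 (x : E4) : ℝ := 2 * (x 2 * x 3 - x 0 * x 1)
def c3 (x : E4) : ℝ := x 0 ^ 2 - x 1 ^ 2 - x 2 ^ 2 + x 3 ^ 2

/-- The squared norm. -/
def sq (x : E4) : ℝ := x 0 ^ 2 + x 1 ^ 2 + x 2 ^ 2 + x 3 ^ 2

lemma sq_eq (x : E4) : sq x = ‖x‖ ^ 2 := by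
  rw [EuclideanSpace.norm_sq_eq, Fin.sum_univ_four]
  simp [sq]

/-- The product of the conjugate of `w` with `y`. -/
noncomputable def pm (w y : E4) : E4 :=
  !₂[w 0 * y 0 + w 1 * y 1 + w 2 * y 2 + w 3 * y 3,
    w 0 * y 1 - w 1 * y 0 - w 2 * y 3 + w 3 * y 2,
    w 0 * y 2 - w 2 * y 0 - w 3 * y 1 + w 1 * y 3,
    w 0 * y 3 - w 3 * y 0 - w 1 * y 2 + w 2 * y 1]

lemma pm0 (w y : E4) : pm w y 0 = w 0 * y 0 + w 1 * y 1 + w 2 * y 2 + w 3 * y 3 := rfl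
lemma pm1 (w y : E4) : pm w y 1 = w 0 * y 1 - w 1 * y 0 - w 2 * y 3 + w 3 * y 2 := rfl
lemma pm2 (w y : E4) : pm w y 2 = w 0 * y 2 - w 2 * y 0 - w 3 * y 1 + w 1 * y 3 := rfl
lemma pm3 (w y : E4) : pm w y 3 = w 0 * y 3 - w 3 * y 0 - w 1 * y 2 + w 2 * y 1 := rfl

lemma aa (w y : E4) : a1 w * a1 y + a2 w * a2 y + a3 w * a3 y = a1 (pm w y) := by
  simp only [a1, a2, a3, pm0, pm1, pm2, pm3]; ring
lemma ba (w y : E4) : b1 w * a1 y + b2 w * a2 y + b3 w * a3 y = a2 (pm w y) := by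
  simp only [a1, a2, a3, b1, b2, b3, pm0, pm1, pm2, pm3]; ring
lemma ca (w y : E4) : c1 w * a1 y + c2 w * a2 y + c3 w * a3 y = a3 (pm w y) := by
  simp only [a1, a2, a3, c1, c2, c3, pm0, pm1, pm2, pm3]; ring
lemma ab (w y : E4) : a1 w * b1 y + a2 w * b2 y + a3 w * b3 y = b1 (pm w y) := by
  simp only [a1, a2, a3, b1, b2, b3, pm0, pm1, pm2, pm3]; ring
lemma bb (w y : E4) : b1 w * b1 y + b2 w * b2 y + b3 w * b3 y = b2 (pm w y) := by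
  simp only [b1, b2, b3, pm0, pm1, pm2, pm3]; ring
lemma cb (w y : E4) : c1 w * b1 y + c2 w * b2 y + c3 w * b3 y = b3 (pm w y) := by
  simp only [b1, b2, b3, c1, c2, c3, pm0, pm1, pm2, pm3]; ring
lemma ac (w y : E4) : a1 w * c1 y + a2 w * c2 y + a3 w * c3 y = c1 (pm w y) := by
  simp only [a1, a2, a3, c1, c2, c3, pm0, pm1, pm2, pm3]; ring
lemma bc (w y : E4) : b1 w * c1 y + b2 w * c2 y + b3 w * c3 y = c2 (pm w y) := by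
  simp only [b1, b2, b3, c1, c2, c3, pm0, pm1, pm2, pm3]; ring
lemma cc (w y : E4) : c1 w * c1 y + c2 w * c2 y + c3 w * c3 y = c3 (pm w y) := by
  simp only [c1, c2, c3, pm0, pm1, pm2, pm3]; ring

lemma sq_pm (w y : E4) : sq (pm w y) = sq w * sq y := by
  simp only [sq, pm0, pm1, pm2, pm3]; ring

lemma na (w : E4) : a1 w ^ 2 + a2 w ^ 2 + a3 w ^ 2 = sq w ^ 2 := by
  simp only [a1, a2, a3, sq]; ring
lemma nb (w : E4) : b1 w ^ 2 + b2 w ^ 2 + b3 w ^ 2 = sq w ^ 2 := by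
  simp only [b1, b2, b3, sq]; ring
lemma nc (w : E4) : c1 w ^ 2 + c2 w ^ 2 + c3 w ^ 2 = sq w ^ 2 := by
  simp only [c1, c2, c3, sq]; ring
lemma oab (w : E4) : a1 w * b1 w + a2 w * b2 w + a3 w * b3 w = 0 := by
  simp only [a1, a2, a3, b1, b2, b3]; ring
lemma oac (w : E4) : a1 w * c1 w + a2 w * c2 w + a3 w * c3 w = 0 := by
  simp only [a1, a2, a3, c1, c2, c3]; ring
lemma obc (w : E4) : b1 w * c1 w + b2 w * c2 w + b3 w * c3 w = 0 := by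
  simp only [b1, b2, b3, c1, c2, c3]; ring
lemma n1 (w : E4) : a1 w ^ 2 + b1 w ^ 2 + c1 w ^ 2 = sq w ^ 2 := by
  simp only [a1, b1, c1, sq]; ring
lemma n2 (w : E4) : a2 w ^ 2 + b2 w ^ 2 + c2 w ^ 2 = sq w ^ 2 := by
  simp only [a2, b2, c2, sq]; ring
lemma n3 (w : E4) : a3 w ^ 2 + b3 w ^ 2 + c3 w ^ 2 = sq w ^ 2 := by
  simp only [a3, b3, c3, sq]; ring
lemma o12 (w : E4) : a1 w * a2 w + b1 w * b2 w + c1 w * c2 w = 0 := by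
  simp only [a1, a2, b1, b2, c1, c2]; ring
lemma o13 (w : E4) : a1 w * a3 w + b1 w * b3 w + c1 w * c3 w = 0 := by
  simp only [a1, a3, b1, b3, c1, c3]; ring
lemma o23 (w : E4) : a2 w * a3 w + b2 w * b3 w + c2 w * c3 w = 0 := by
  simp only [a2, a3, b2, b3, c2, c3]; ring

/-- Abbreviation for `√3`. -/
noncomputable def r3 : ℝ := √3

lemma r3_sq : r3 ^ 2 = 3 := Real.sq_sqrt (by norm_num)
lemma r3_pos : 0 < r3 := Real.sqrt_pos.2 (by norm_num)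

/-- Five coordinates of the matrix `√3 C a aᵀ - (C/√3) s² I + d (b bᵀ - c cᵀ)`. -/
noncomputable def q1 (C d : ℝ) (x : E4) : ℝ :=
  r3 * C * (a1 x * a2 x) + d * (b1 x * b2 x - c1 x * c2 x)
noncomputable def q2 (C d : ℝ) (x : E4) : ℝ :=
  r3 * C * (a1 x * a3 x) + d * (b1 x * b3 x - c1 x * c3 x)
noncomputable def q3 (C d : ℝ) (x : E4) : ℝ :=
  r3 * C * (a2 x * a3 x) + d * (b2 x * b3 x - c2 x * c3 x)
noncomputable def q4 (C d : ℝ) (x : E4) : ℝ :=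
  (r3 * C * (a1 x ^ 2 - a2 x ^ 2) + d * ((b1 x ^ 2 - c1 x ^ 2) - (b2 x ^ 2 - c2 x ^ 2))) / 2
noncomputable def q5 (C d : ℝ) (x : E4) : ℝ :=
  -(C * (3 * a3 x ^ 2 - sq x ^ 2) + r3 * d * (b3 x ^ 2 - c3 x ^ 2)) / 2

lemma sum_sq (C d : ℝ) (x : E4) :
    q1 C d x ^ 2 + q2 C d x ^ 2 + q3 C d x ^ 2 + q4 C d x ^ 2 + q5 C d x ^ 2 =
      (C ^ 2 + d ^ 2) * sq x ^ 4 := by
  have h := r3_sq
  have e : q1 C d x ^ 2 + q2 C d x ^ 2 + q3 C d x ^ 2 + q4 C d x ^ 2 + q5 C d x ^ 2 -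
      (C ^ 2 + d ^ 2) * sq x ^ 4 = (r3 ^ 2 - 3) *
      (C ^ 2 * ((a1 x * a2 x) ^ 2 + (a1 x * a3 x) ^ 2 + (a2 x * a3 x) ^ 2
        + (a1 x ^ 2 - a2 x ^ 2) ^ 2 / 4) + d ^ 2 * (b3 x ^ 2 - c3 x ^ 2) ^ 2 / 4) := by
    simp only [q1, q2, q3, q4, q5, a1, a2, a3, b1, b2, b3, c1, c2, c3, sq]
    ring
  rw [h] at e
  linarith

/-- The bilinear form of the matrix with the five coordinates `q1, …, q5`. -/
noncomputable def W (q : Fin 5 → ℝ) (u v : Fin 3 → ℝ) : ℝ :=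
  q 0 * (u 0 * v 1 + u 1 * v 0) + q 1 * (u 0 * v 2 + u 2 * v 0) + q 2 * (u 1 * v 2 + u 2 * v 1)
    + (r3 * q 4 / 3 + q 3) * (u 0 * v 0) + (r3 * q 4 / 3 - q 3) * (u 1 * v 1)
    - 2 * r3 * q 4 / 3 * (u 2 * v 2)

noncomputable def qv (C d : ℝ) (x : E4) : Fin 5 → ℝ :=
  ![q1 C d x, q2 C d x, q3 C d x, q4 C d x, q5 C d x]

lemma W_qv (C d : ℝ) (x : E4) (u v : Fin 3 → ℝ) :
    W (qv C d x) u v = r3 * C * ((a1 x * u 0 + a2 x * u 1 + a3 x * u 2) *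
      (a1 x * v 0 + a2 x * v 1 + a3 x * v 2))
      - r3 * C / 3 * sq x ^ 2 * (u 0 * v 0 + u 1 * v 1 + u 2 * v 2)
      + d * ((b1 x * u 0 + b2 x * u 1 + b3 x * u 2) * (b1 x * v 0 + b2 x * v 1 + b3 x * v 2)
        - (c1 x * u 0 + c2 x * u 1 + c3 x * u 2) * (c1 x * v 0 + c2 x * v 1 + c3 x * v 2)) := by
  have h := r3_sq
  have na' := na x
  have nb' := nb x
  have nc' := nc x
  have e1 : W (qv C d x) u v = q1 C d x * (u 0 * v 1 + u 1 * v 0)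
    + q2 C d x * (u 0 * v 2 + u 2 * v 0) + q3 C d x * (u 1 * v 2 + u 2 * v 1)
    + (r3 * q5 C d x / 3 + q4 C d x) * (u 0 * v 0) + (r3 * q5 C d x / 3 - q4 C d x) * (u 1 * v 1)
    - 2 * r3 * q5 C d x / 3 * (u 2 * v 2) := rfl
  rw [e1]
  simp only [q1, q2, q3, q4, q5]
  have hb3 : b3 x ^ 2 = sq x ^ 2 - b1 x ^ 2 - b2 x ^ 2 := by linarith
  have hc3 : c3 x ^ 2 = sq x ^ 2 - c1 x ^ 2 - c2 x ^ 2 := by linarith
  have ha3 : a3 x ^ 2 = sq x ^ 2 - a1 x ^ 2 - a2 x ^ 2 := by linarith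
  have hr : r3 * r3 = 3 := by nlinarith
  linear_combination (exp := 1)
    (-(d * (b3 x ^ 2 - c3 x ^ 2)) / 6 * (u 0 * v 0 + u 1 * v 1 - 2 * (u 2 * v 2))) * h
    + (r3 * C / 2 * (u 0 * v 0 + u 1 * v 1)) * (-ha3)
    + (d / 2 * (u 0 * v 0 + u 1 * v 1)) * (-hb3 + hc3)

end Pool.Agent.H244R3.Orb
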