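import Pool.Agent.H244R3.OrbDefs

set_option autoImplicit false

open scoped Manifold ContDiff Topology RealInnerProductSpace
open Module Set Metric TopologicalSpace

/-!
The round metric `4 |dx|^2 / (1 + |x|^2)^2` on `ℝ⁴`.
-/

namespace Pool.Agent.H244R3.Orb

/-- The Euclidean inner product. -/
noncomputable def ip : E4 →L[ℝ] E4 →L[ℝ] ℝ := innerSL ℝ

/-- The round metric in stereographic coordinates. -/
noncomputable def G (x : E4) : E4 →L[ℝ] E4 →L[ℝ] ℝ :=
  (4 / (1 + ‖x‖ ^ 2) ^ 2) • ip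

lemma G_apply (x a b : E4) : G x a b = 4 / (1 + ‖x‖ ^ 2) ^ 2 * ⟪a, b⟫ := rfl

lemma one_add_pos (x : E4) : 0 < 1 + ‖x‖ ^ 2 := by positivity

lemma contDiff_G : ContDiff ℝ ∞ G := by
  have h : ContDiff ℝ ∞ (fun x : E4 => 4 / (1 + ‖x‖ ^ 2) ^ 2) := by
    refine ContDiff.div contDiff_const ?_ ?_
    · exact (contDiff_const.add (contDiff_norm_sq ℝ)).pow 2
    · intro x
      have := one_add_pos x
      positivity
  rw [contDiff_clm_apply_iff]
  intro a
  rw [contDiff_clm_apply_iff]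
  intro b
  have h2 : (fun x => G x a b) = fun x => 4 / (1 + ‖x‖ ^ 2) ^ 2 * ⟪a, b⟫ := rfl
  rw [h2]
  exact h.mul contDiff_const

lemma G_symm (x a b : E4) : G x a b = G x b a := by
  rw [G_apply, G_apply, real_inner_comm]

lemma G_pos (x a : E4) (ha : a ≠ 0) : 0 < G x a a := by
  rw [G_apply, real_inner_self_eq_norm_sq]
  have := one_add_pos x
  have h2 : 0 < ‖a‖ := norm_pos_iff.2 ha
  positivity

/-- Christoffel symbols, linear in the point. -/
noncomputable def Bl (b c : E4) : E4 →L[ℝ] E4 :=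
  (innerSL ℝ b).smulRight c + (innerSL ℝ c).smulRight b - ⟪b, c⟫ • ContinuousLinearMap.id ℝ E4

lemma Bl_apply (b c z : E4) : Bl b c z = ⟪b, z⟫ • c + ⟪c, z⟫ • b - ⟪b, c⟫ • z := rfl

noncomputable def Gam (z b c : E4) : E4 := (-2 / (1 + ‖z‖ ^ 2)) • Bl b c z

lemma hasFDerivAt_normsq (y : E4) :
    HasFDerivAt (fun z : E4 => 1 + ‖z‖ ^ 2) ((2 : ℝ) • innerSL ℝ y) y := by
  have h := (hasStrictFDerivAt_norm_sq y).hasFDerivAt
  exact (h.const_add 1).congr_fderiv (by ext v; simp)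

lemma hasFDerivAt_w (y : E4) :
    HasFDerivAt (fun z : E4 => -2 / (1 + ‖z‖ ^ 2)) ((4 / (1 + ‖y‖ ^ 2) ^ 2) • innerSL ℝ y) y := by
  have h := one_add_pos y
  have h1 := (hasDerivAt_inv h.ne').comp_hasFDerivAt y (hasFDerivAt_normsq y)
  refine (h1.const_mul (-2)).congr_fderiv ?_
  ext v
  simp
  field_simp
  ring

lemma hasFDerivAt_k (y : E4) :
    HasFDerivAt (fun z : E4 => 4 / (1 + ‖z‖ ^ 2) ^ 2)
      ((-16 / (1 + ‖y‖ ^ 2) ^ 3) • innerSL ℝ y) y := by
  have h := one_add_pos y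
  have h0 := (hasFDerivAt_normsq y).pow 2
  have h1 := (hasDerivAt_inv (pow_pos h 2).ne').comp_hasFDerivAt y h0
  refine (h1.const_mul 4).congr_fderiv ?_
  ext v
  simp
  field_simp
  ring

lemma fderiv_G (y a b v : E4) :
    fderiv ℝ (fun z => G z a b) y v = -16 / (1 + ‖y‖ ^ 2) ^ 3 * ⟪y, v⟫ * ⟪a, b⟫ := by
  have h := (hasFDerivAt_k y).mul_const ⟪a, b⟫
  have h2 : (fun z => G z a b) = fun z => 4 / (1 + ‖z‖ ^ 2) ^ 2 * ⟪a, b⟫ := rfl
  rw [h2, h.fderiv]
  simp
  ring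

lemma hasFDerivAt_Gam (y b c : E4) :
    HasFDerivAt (fun z => Gam z b c) ((-2 / (1 + ‖y‖ ^ 2)) • Bl b c +
      ((4 / (1 + ‖y‖ ^ 2) ^ 2) • innerSL ℝ y).smulRight (Bl b c y)) y := by
  exact (hasFDerivAt_w y).smul (Bl b c).hasFDerivAt

lemma koszul_G (y a b c : E4) : G y (Gam y a b) c = koszul (fun z a b => G z a b) y a b c := by
  have h := one_add_pos y
  rw [koszul, fderiv_G, fderiv_G, fderiv_G, G_apply, Gam, Bl_apply]
  simp only [inner_smul_left, inner_sub_left, inner_add_left, real_inner_comm y]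
  simp
  field_simp
  ring

lemma riem_Gam (y a b c : E4) :
    riem Gam y a b c = (4 / (1 + ‖y‖ ^ 2) ^ 2) • (⟪b, c⟫ • a - ⟪a, c⟫ • b) := by
  have h := one_add_pos y
  rw [riem, (hasFDerivAt_Gam y b c).fderiv, (hasFDerivAt_Gam y a c).fderiv]
  simp only [_root_.add_apply, _root_.smul_apply,
    ContinuousLinearMap.smulRight_apply, Bl_apply, Gam, innerSL_apply_apply,
    inner_smul_right, inner_sub_right, inner_add_right,
    real_inner_self_eq_norm_sq, smul_eq_mul, real_inner_comm y,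
    real_inner_comm b a, real_inner_comm c a, real_inner_comm c b]
  generalize ⟪y, a⟫ = ya
  generalize ⟪y, b⟫ = yb
  generalize ⟪y, c⟫ = yc
  generalize ⟪a, b⟫ = ab
  generalize ⟪a, c⟫ = ac
  generalize ⟪b, c⟫ = bc
  match_scalars <;> field_simp <;> ring

lemma ricci_Gam (y b c : E4) : ricci Gam y b c = 3 * G y b c := by
  have h : ∀ i : Fin 4, riem Gam y (EuclideanSpace.single i 1) b c i =
      (4 / (1 + ‖y‖ ^ 2) ^ 2) * (⟪b, c⟫ - c i * b i) := by
    intro i
    rw [riem_Gam]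
    simp [EuclideanSpace.inner_single_left]
  rw [ricci, Finset.sum_congr rfl fun i _ => h i, ← Finset.mul_sum, Finset.sum_sub_distrib]
  have h2 : ∑ i : Fin 4, c i * b i = ⟪b, c⟫ := by
    rw [PiLp.inner_apply]
    simp [mul_comm]
  rw [h2, G_apply]
  simp
  ring

lemma einsteinAt_G (y : E4) : EinsteinAt (fun z a b => G z a b) 3 y :=
  ⟨Gam, fun a b => (hasFDerivAt_Gam y a b).differentiableAt,
    Filter.Eventually.of_forall fun z a b c => koszul_G z a b c, ricci_Gam y⟩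

/-- The Einstein equation only depends on the germ of the metric. -/
lemma EinsteinAt.congr {g g' : E4 → E4 → E4 → ℝ} {lam : ℝ} {y : E4} (h : EinsteinAt g lam y)
    (hg : ∀ᶠ z in 𝓝 y, g' z = g z) : EinsteinAt g' lam y := by
  obtain ⟨Γ, h1, h2, h3⟩ := h
  refine ⟨Γ, h1, ?_, fun b c => ?_⟩
  · filter_upwards [h2, hg.eventually_nhds] with z hz hz'
    intro a b c
    have h4 : ∀ a b v, fderiv ℝ (fun z => g' z a b) z v = fderiv ℝ (fun z => g z a b) z v := by
      intro a b v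
      have h5 : (fun z => g' z a b) =ᶠ[𝓝 z] (fun z => g z a b) := by
        filter_upwards [hz'] with w hw
        rw [hw]
      rw [h5.fderiv_eq]
    rw [hz'.self_of_nhds, hz, koszul, koszul, h4, h4, h4]
  · rw [h3, hg.self_of_nhds]

end Pool.Agent.H244R3.Orb
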