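import Pool.Agent.H244R3.OrbQ8

set_option autoImplicit false

open Module Set Metric
open scoped Quaternion

/-!
Surjectivity of the parametrisation: every symmetric traceless real matrix of size three and norm
`√2` has the form `√3 C a aᵀ - (C/√3) I + d (b bᵀ - c cᵀ)`.
-/

namespace Pool.Agent.H244R3.Orb

lemma spectral3 (A : Matrix (Fin 3) (Fin 3) ℝ) (hA : A.IsHermitian) :
    ∃ (l : Fin 3 → ℝ) (e : Fin 3 → Fin 3 → ℝ), l 1 ≤ l 0 ∧ l 2 ≤ l 1 ∧
      (∀ i j, e 0 i * e 0 j + e 1 i * e 1 j + e 2 i * e 2 j = if i = j then 1 else 0) ∧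
      (∀ i j, A i j = l 0 * (e 0 i * e 0 j) + l 1 * (e 1 i * e 1 j) + l 2 * (e 2 i * e 2 j)) ∧
      (∀ i j, e i 0 * e j 0 + e i 1 * e j 1 + e i 2 * e j 2 = if i = j then 1 else 0) := by
  set b := hA.eigenvectorBasis with hb
  have h1 : ∀ k i, (A.mulVec (b k)) i = hA.eigenvalues k * b k i := by
    intro k i
    have := congrFun (hA.mulVec_eigenvectorBasis k) i
    simpa using this
  have h2 : ∀ i j, ∑ k, b k i * b k j = if i = j then 1 else 0 := by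
    intro i j
    have := b.sum_inner_mul_inner (EuclideanSpace.single i (1 : ℝ)) (EuclideanSpace.single j 1)
    simp only [EuclideanSpace.inner_single_left, EuclideanSpace.inner_single_right] at this
    simpa [Pi.single_apply, eq_comm] using this
  have h3 : ∀ i j, ∑ k, b i k * b j k = if i = j then 1 else 0 := by
    intro i j
    have := orthonormal_iff_ite.1 b.orthonormal i j
    rw [PiLp.inner_apply] at this
    simpa [mul_comm] using this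
  have h4 : ∀ i j, A i j = ∑ k, hA.eigenvalues k * (b k i * b k j) := by
    intro i j
    have e1 : ∀ k, hA.eigenvalues k * (b k i * b k j) = ∑ m, A i m * (b k m * b k j) := by
      intro k
      rw [← mul_assoc, ← h1, Matrix.mulVec, dotProduct, Finset.sum_mul]
      exact Finset.sum_congr rfl fun m _ => by ring
    rw [Finset.sum_congr rfl fun k _ => e1 k, Finset.sum_comm]
    have e2 : ∀ m, ∑ k, A i m * (b k m * b k j) = A i m * (if m = j then 1 else 0) := by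
      intro m
      rw [← Finset.mul_sum, h2]
    rw [Finset.sum_congr rfl fun m _ => e2 m]
    simp
  set s := Tuple.sort (fun k => -hA.eigenvalues k) with hs
  have hm := Tuple.monotone_sort (fun k => -hA.eigenvalues k)
  refine ⟨fun k => hA.eigenvalues (s k), fun k i => b (s k) i, ?_, ?_, ?_, ?_, ?_⟩
  · have := hm (show (0 : Fin 3) ≤ 1 by decide)
    simp only [Function.comp] at this
    linarith
  · have := hm (show (1 : Fin 3) ≤ 2 by decide)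
    simp only [Function.comp] at this
    linarith
  · intro i j
    rw [← h2 i j, ← Equiv.sum_comp s, Fin.sum_univ_three]
  · intro i j
    rw [h4 i j, ← Equiv.sum_comp s, Fin.sum_univ_three]
  · intro i j
    have := h3 (s i) (s j)
    rw [Fin.sum_univ_three] at this
    simp only [EmbeddingLike.apply_eq_iff_eq] at this
    exact this

/-- The quaternion with the components `a, b, c, d`. -/
def Qn (a b c d : ℝ) : ℍ[ℝ] := ⟨a, b, c, d⟩

@[simp] lemma Qn_re (a b c d : ℝ) : (Qn a b c d).re = a := rfl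
@[simp] lemma Qn_imI (a b c d : ℝ) : (Qn a b c d).imI = b := rfl
@[simp] lemma Qn_imJ (a b c d : ℝ) : (Qn a b c d).imJ = c := rfl
@[simp] lemma Qn_imK (a b c d : ℝ) : (Qn a b c d).imK = d := rfl

/-- The components of a quaternion product. -/
lemma exists_quat_aux (u v : Fin 3 → ℝ) (hu : u 0 * u 0 + u 1 * u 1 + u 2 * u 2 = 1)
    (hv : v 0 * v 0 + v 1 * v 1 + v 2 * v 2 = 1) (huv : u 0 * v 0 + u 1 * v 1 + u 2 * v 2 = 0) :
    ∃ w : ℍ[ℝ], w ≠ 0 ∧ Qn 0 (u 0) (u 1) (u 2) * w = w * Qn 0 1 0 0 ∧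
      Qn 0 (v 0) (v 1) (v 2) * w = w * Qn 0 0 1 0 := by
  set U : ℍ[ℝ] := Qn 0 (u 0) (u 1) (u 2) with hU
  set V : ℍ[ℝ] := Qn 0 (v 0) (v 1) (v 2) with hV
  set I : ℍ[ℝ] := Qn 0 1 0 0 with hI
  set J : ℍ[ℝ] := Qn 0 0 1 0 with hJ
  set K : ℍ[ℝ] := Qn 0 0 0 1 with hK
  have UU : U * U = -1 := by
    ext <;> simp [hU] <;> linarith
  have VV : V * V = -1 := by
    ext <;> simp [hV] <;> linarith
  have VU : V * U = -(U * V) := by
    ext <;> simp [hU, hV] <;> linarith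
  have II : I * I = -1 := by ext <;> simp [hI]
  have JJ : J * J = -1 := by ext <;> simp [hJ]
  have IJ : I * J = K := by ext <;> simp [hI, hJ, hK]
  have JI : J * I = -K := by ext <;> simp [hI, hJ, hK]
  have KI : K * I = J := by ext <;> simp [hI, hJ, hK]
  have KJ : K * J = -I := by ext <;> simp [hI, hJ, hK]
  let P : ℍ[ℝ] → ℍ[ℝ] := fun q => q - U * q * I - V * q * J - U * V * q * K
  have c1 : ∀ q, U * P q = P q * I := by
    intro q
    have e1 : U * P q = U * q - (U * U) * (q * I) - U * V * (q * J) - (U * U) * (V * (q * K)) := by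
      simp only [P]; noncomm_ring
    have e2 : P q * I = q * I - U * q * (I * I) - V * q * (J * I) - U * V * q * (K * I) := by
      simp only [P]; noncomm_ring
    rw [e1, e2, UU, II, JI, KI]
    noncomm_ring
  have c2 : ∀ q, V * P q = P q * J := by
    intro q
    have e1 : V * P q = V * q - (V * U) * (q * I) - (V * V) * (q * J)
        - (V * U) * (V * (q * K)) := by
      simp only [P]; noncomm_ring
    have e2 : P q * J = q * J - U * q * (I * J) - V * q * (J * J) - U * V * q * (K * J) := by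
      simp only [P]; noncomm_ring
    have e3 : U * V * (V * (q * K)) = U * ((V * V) * (q * K)) := by noncomm_ring
    rw [e1, e2, VU, VV, IJ, JJ, KJ, neg_mul (U * V) (V * (q * K)), e3, VV]
    noncomm_ring
  by_contra hcon
  push Not at hcon
  have hz : ∀ q, P q = 0 := by
    intro q
    by_contra hq
    exact hcon (P q) hq (c1 q) (c2 q)
  have z1 := congrArg QuaternionAlgebra.re (hz 1)
  have z2 := congrArg QuaternionAlgebra.imI (hz I)
  have z3 := congrArg QuaternionAlgebra.imJ (hz J)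
  have z4 := congrArg QuaternionAlgebra.imK (hz K)
  simp [P, hU, hV, hI, hJ, hK] at z1 z2 z3 z4
  linarith

/-- Every orthonormal pair in `ℝ³` consists of the first two columns of the rotation matrix of a
unit quaternion. -/
lemma exists_quat (u v : Fin 3 → ℝ) (hu : u 0 * u 0 + u 1 * u 1 + u 2 * u 2 = 1)
    (hv : v 0 * v 0 + v 1 * v 1 + v 2 * v 2 = 1) (huv : u 0 * v 0 + u 1 * v 1 + u 2 * v 2 = 0) :
    ∃ x : E4, sq x = 1 ∧ a1 x = u 0 ∧ a2 x = u 1 ∧ a3 x = u 2 ∧ b1 x = v 0 ∧ b2 x = v 1 ∧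
      b3 x = v 2 := by
  obtain ⟨w, hw, h1, h2⟩ := exists_quat_aux u v hu hv huv
  set n := w.re ^ 2 + w.imI ^ 2 + w.imJ ^ 2 + w.imK ^ 2 with hn
  have hn0 : 0 < n := by
    rcases (by positivity : 0 ≤ n).lt_or_eq with h | h
    · exact h
    · exfalso
      apply hw
      have s1 := sq_nonneg w.re
      have s2 := sq_nonneg w.imI
      have s3 := sq_nonneg w.imJ
      have s4 := sq_nonneg w.imK
      have e1 : w.re = 0 := pow_eq_zero_iff two_ne_zero |>.1 (by linarith)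
      have e2 : w.imI = 0 := pow_eq_zero_iff two_ne_zero |>.1 (by linarith)
      have e3 : w.imJ = 0 := pow_eq_zero_iff two_ne_zero |>.1 (by linarith)
      have e4 : w.imK = 0 := pow_eq_zero_iff two_ne_zero |>.1 (by linarith)
      ext <;> simp [e1, e2, e3, e4]
  have g1 := congrArg QuaternionAlgebra.re h1
  have g2 := congrArg QuaternionAlgebra.imI h1
  have g3 := congrArg QuaternionAlgebra.imJ h1
  have g4 := congrArg QuaternionAlgebra.imK h1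
  have k1 := congrArg QuaternionAlgebra.re h2
  have k2 := congrArg QuaternionAlgebra.imI h2
  have k3 := congrArg QuaternionAlgebra.imJ h2
  have k4 := congrArg QuaternionAlgebra.imK h2
  simp at g1 g2 g3 g4 k1 k2 k3 k4
  generalize w.re = w0 at *
  generalize w.imI = w1 at *
  generalize w.imJ = w2 at *
  generalize w.imK = w3 at *
  have hr : √n ^ 2 = n := Real.sq_sqrt hn0.le
  have hr0 : 0 < √n := Real.sqrt_pos.2 hn0
  have hne : n ≠ 0 := hn0.ne'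
  have A1 : w0 ^ 2 + w1 ^ 2 - w2 ^ 2 - w3 ^ 2 = n * u 0 := by
    rw [hn]; linear_combination (exp := 1) w1 * g1 - w0 * g2 + w3 * g3 - w2 * g4
  have A2 : 2 * (w1 * w2 + w0 * w3) = n * u 1 := by
    rw [hn]; linear_combination (exp := 1) w2 * g1 - w3 * g2 - w0 * g3 + w1 * g4
  have A3 : 2 * (w1 * w3 - w0 * w2) = n * u 2 := by
    rw [hn]; linear_combination (exp := 1) w3 * g1 + w2 * g2 - w1 * g3 - w0 * g4
  have B1 : 2 * (w1 * w2 - w0 * w3) = n * v 0 := by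
    rw [hn]; linear_combination (exp := 1) w1 * k1 - w0 * k2 + w3 * k3 - w2 * k4
  have B2 : w0 ^ 2 - w1 ^ 2 + w2 ^ 2 - w3 ^ 2 = n * v 1 := by
    rw [hn]; linear_combination (exp := 1) w2 * k1 - w3 * k2 - w0 * k3 + w1 * k4
  have B3 : 2 * (w2 * w3 + w0 * w1) = n * v 2 := by
    rw [hn]; linear_combination (exp := 1) w3 * k1 + w2 * k2 - w1 * k3 - w0 * k4
  have key : ∀ X Y : ℝ, X = n * Y → (√n)⁻¹ ^ 2 * X = Y := by
    intro X Y h
    rw [h, inv_pow, hr, ← mul_assoc, inv_mul_cancel₀ hne, one_mul]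
  refine ⟨!₂[(√n)⁻¹ * w0, (√n)⁻¹ * w1, (√n)⁻¹ * w2, (√n)⁻¹ * w3], ?_, ?_, ?_, ?_, ?_, ?_, ?_⟩
  · rw [← key n 1 (by ring)]
    show ((√n)⁻¹ * w0) ^ 2 + ((√n)⁻¹ * w1) ^ 2 + ((√n)⁻¹ * w2) ^ 2 + ((√n)⁻¹ * w3) ^ 2 = _
    rw [hn]; ring
  · rw [← key _ _ A1]
    show ((√n)⁻¹ * w0) ^ 2 + ((√n)⁻¹ * w1) ^ 2 - ((√n)⁻¹ * w2) ^ 2 - ((√n)⁻¹ * w3) ^ 2 = _
    ring
  · rw [← key _ _ A2]
    show 2 * ((√n)⁻¹ * w1 * ((√n)⁻¹ * w2) + (√n)⁻¹ * w0 * ((√n)⁻¹ * w3)) = _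
    ring
  · rw [← key _ _ A3]
    show 2 * ((√n)⁻¹ * w1 * ((√n)⁻¹ * w3) - (√n)⁻¹ * w0 * ((√n)⁻¹ * w2)) = _
    ring
  · rw [← key _ _ B1]
    show 2 * ((√n)⁻¹ * w1 * ((√n)⁻¹ * w2) - (√n)⁻¹ * w0 * ((√n)⁻¹ * w3)) = _
    ring
  · rw [← key _ _ B2]
    show ((√n)⁻¹ * w0) ^ 2 - ((√n)⁻¹ * w1) ^ 2 + ((√n)⁻¹ * w2) ^ 2 - ((√n)⁻¹ * w3) ^ 2 = _
    ring
  · rw [← key _ _ B3]
    show 2 * ((√n)⁻¹ * w2 * ((√n)⁻¹ * w3) + (√n)⁻¹ * w0 * ((√n)⁻¹ * w1)) = _
    ring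

/-- Surjectivity: every unit vector of `ℝ⁵` is a value of `qv`. -/
lemma qv_surj (q : Fin 5 → ℝ) (hq : q 0 ^ 2 + q 1 ^ 2 + q 2 ^ 2 + q 3 ^ 2 + q 4 ^ 2 = 1) :
    ∃ (C d : ℝ) (x : E4), sq x = 1 ∧ C ^ 2 + d ^ 2 = 1 ∧ 0 ≤ d ∧ d ≤ r3 * C ∧ 0 ≤ C ∧
      qv C d x = q := by
  have h3 := r3_sq
  have h3p := r3_pos
  let A : Matrix (Fin 3) (Fin 3) ℝ := !![r3 * q 4 / 3 + q 3, q 0, q 1;
    q 0, r3 * q 4 / 3 - q 3, q 2; q 1, q 2, -(2 * r3 * q 4 / 3)]
  have hA : A.IsHermitian := by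
    ext i j
    fin_cases i <;> fin_cases j <;> rfl
  obtain ⟨l, e, l1, l2, he, hAe, ho⟩ := spectral3 A hA
  have A00 : r3 * q 4 / 3 + q 3 = _ := hAe 0 0
  have A01 : q 0 = _ := hAe 0 1
  have A02 : q 1 = _ := hAe 0 2
  have A11 : r3 * q 4 / 3 - q 3 = _ := hAe 1 1
  have A12 : q 2 = _ := hAe 1 2
  have A22 : -(2 * r3 * q 4 / 3) = _ := hAe 2 2
  have E00 := he 0 0
  have E01 := he 0 1
  have E02 := he 0 2
  have E11 := he 1 1
  have E12 := he 1 2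
  have E22 := he 2 2
  have O00 := ho 0 0
  have O01 := ho 0 1
  have O02 := ho 0 2
  have O11 := ho 1 1
  have O12 := ho 1 2
  have O22 := ho 2 2
  simp at E00 E01 E02 E11 E12 E22 O00 O01 O02 O11 O12 O22
  obtain ⟨x, hx, ha1, ha2, ha3, hb1, hb2, hb3⟩ := exists_quat (e 0) (e 1) O00 O11 O01
  have n1' := n1 x
  have n2' := n2 x
  have n3' := n3 x
  have o12' := o12 x
  have o13' := o13 x
  have o23' := o23 x
  rw [hx] at n1' n2' n3'
  rw [ha1, hb1] at n1'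
  rw [ha2, hb2] at n2'
  rw [ha3, hb3] at n3'
  rw [ha1, ha2, hb1, hb2] at o12'
  rw [ha1, ha3, hb1, hb3] at o13'
  rw [ha2, ha3, hb2, hb3] at o23'
  have tr : l 0 + l 1 + l 2 = 0 := by
    linear_combination (exp := 1) -A00 - A11 - A22 - l 0 * O00 - l 1 * O11 - l 2 * O22
  have tr2 : l 0 ^ 2 + l 1 ^ 2 + l 2 ^ 2 = 2 := by
    have t1 : (r3 * q 4 / 3 + q 3) ^ 2 + (r3 * q 4 / 3 - q 3) ^ 2 + (2 * r3 * q 4 / 3) ^ 2
        + 2 * (q 0 ^ 2 + q 1 ^ 2 + q 2 ^ 2) = 2 := by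
      linear_combination (exp := 1) 2 * hq + 2 / 3 * q 4 ^ 2 * h3
    have t2 : (2 * r3 * q 4 / 3) ^ 2 = (-(2 * r3 * q 4 / 3)) ^ 2 := by ring
    rw [t2, A00, A11, A22, A01, A02, A12] at t1
    rw [← t1]
    have s00 : (e 0 0 * e 0 0 + e 0 1 * e 0 1 + e 0 2 * e 0 2) ^ 2 = 1 := by rw [O00]; norm_num
    have s11 : (e 1 0 * e 1 0 + e 1 1 * e 1 1 + e 1 2 * e 1 2) ^ 2 = 1 := by rw [O11]; norm_num
    have s22 : (e 2 0 * e 2 0 + e 2 1 * e 2 1 + e 2 2 * e 2 2) ^ 2 = 1 := by rw [O22]; norm_num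
    have s01 : (e 0 0 * e 1 0 + e 0 1 * e 1 1 + e 0 2 * e 1 2) ^ 2 = 0 := by rw [O01]; norm_num
    have s02 : (e 0 0 * e 2 0 + e 0 1 * e 2 1 + e 0 2 * e 2 2) ^ 2 = 0 := by rw [O02]; norm_num
    have s12 : (e 1 0 * e 2 0 + e 1 1 * e 2 1 + e 1 2 * e 2 2) ^ 2 = 0 := by rw [O12]; norm_num
    linear_combination (exp := 1) -l 0 ^ 2 * s00 - l 1 ^ 2 * s11 - l 2 ^ 2 * s22
      - 2 * l 0 * l 1 * s01 - 2 * l 0 * l 2 * s02 - 2 * l 1 * l 2 * s12
  have hl0 : 0 ≤ l 0 := by linarith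
  refine ⟨r3 * l 0 / 2, (l 1 - l 2) / 2, x, hx, ?_, by linarith, ?_, by positivity, ?_⟩
  · have hl : l 0 = -(l 1 + l 2) := by linarith
    rw [hl] at tr2 ⊢
    linear_combination (exp := 1) (l 1 + l 2) ^ 2 / 4 * h3 + 1 / 2 * tr2
  · have : r3 * (r3 * l 0 / 2) = 3 / 2 * l 0 := by
      linear_combination (exp := 1) l 0 / 2 * h3
    rw [this]
    linarith
  · funext i
    fin_cases i
    · show r3 * (r3 * l 0 / 2) * (a1 x * a2 x) + (l 1 - l 2) / 2 * (b1 x * b2 x - c1 x * c2 x) = q 0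
      rw [ha1, ha2, hb1, hb2, A01]
      linear_combination (exp := 1) l 0 / 2 * (e 0 0 * e 0 1) * h3
        - (l 1 - l 2) / 2 * o12' - l 2 * E01 + e 0 0 * e 0 1 / 2 * tr
    · show r3 * (r3 * l 0 / 2) * (a1 x * a3 x) + (l 1 - l 2) / 2 * (b1 x * b3 x - c1 x * c3 x) = q 1
      rw [ha1, ha3, hb1, hb3, A02]
      linear_combination (exp := 1) l 0 / 2 * (e 0 0 * e 0 2) * h3
        - (l 1 - l 2) / 2 * o13' - l 2 * E02 + e 0 0 * e 0 2 / 2 * tr
    · show r3 * (r3 * l 0 / 2) * (a2 x * a3 x) + (l 1 - l 2) / 2 * (b2 x * b3 x - c2 x * c3 x) = q 2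
      rw [ha2, ha3, hb2, hb3, A12]
      linear_combination (exp := 1) l 0 / 2 * (e 0 1 * e 0 2) * h3
        - (l 1 - l 2) / 2 * o23' - l 2 * E12 + e 0 1 * e 0 2 / 2 * tr
    · show (r3 * (r3 * l 0 / 2) * (a1 x ^ 2 - a2 x ^ 2) + (l 1 - l 2) / 2 *
        ((b1 x ^ 2 - c1 x ^ 2) - (b2 x ^ 2 - c2 x ^ 2))) / 2 = q 3
      rw [ha1, ha2, hb1, hb2]
      linear_combination (exp := 1) 1 / 2 * (l 0 / 2 * (e 0 0 * e 0 0) * h3
        - (l 1 - l 2) / 2 * n1' - l 2 * E00 + e 0 0 * e 0 0 / 2 * tr)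
        - 1 / 2 * (l 0 / 2 * (e 0 1 * e 0 1) * h3
        - (l 1 - l 2) / 2 * n2' - l 2 * E11 + e 0 1 * e 0 1 / 2 * tr) - 1 / 2 * A00 + 1 / 2 * A11
    · show -((r3 * l 0 / 2) * (3 * a3 x ^ 2 - sq x ^ 2) + r3 * ((l 1 - l 2) / 2) *
        (b3 x ^ 2 - c3 x ^ 2)) / 2 = q 4
      rw [ha3, hb3, hx]
      linear_combination (exp := 1) -(r3 / 2) * (-(l 1 - l 2) / 2 * n3' - l 2 * E22
        + e 0 2 * e 0 2 / 2 * tr - 1 / 2 * tr) + r3 / 2 * A22 + q 4 / 3 * h3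

end Pool.Agent.H244R3.Orb
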