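import Pool.Agent.H244R3.OrbImm

set_option autoImplicit false

open Module Set Metric
open scoped Manifold ContDiff Topology

/-!
Topology of the unions of leaves in `ℝ⁴`.
-/

namespace Pool.Agent.H244R3.Orb

/-- The normal form map. -/
noncomputable def nf (p : ℝ × E4) : Fin 5 → ℝ := qv (CC p.1) p.1 p.2

/-- The union of the leaves with parameters in `I`. -/
def AA (I : Set ℝ) : Set E4 := {y | ∃ w : E4, sq w = 1 ∧ ∃ d ∈ I, ist y = qv (CC d) d w}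

/-- The set of all parameters. -/
def Iful : Set ℝ := {d | 0 ≤ d ∧ 4 * d ^ 2 ≤ 3}

lemma Iful_eq : Iful = Icc 0 (r3 / 2) := by
  have h3 := r3_sq
  have h3p := r3_pos
  ext d
  constructor
  · rintro ⟨h0, h1⟩
    refine ⟨h0, ?_⟩
    nlinarith
  · rintro ⟨h0, h1⟩
    refine ⟨h0, ?_⟩
    nlinarith

lemma cont_CC : Continuous CC := by
  unfold CC
  exact (continuous_const.sub (continuous_id.pow 2)).sqrt

lemma cont_nf : Continuous nf := by
  rw [continuous_pi_iff]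
  intro i
  have hC : Continuous (fun p : ℝ × E4 => CC p.1) := cont_CC.comp continuous_fst
  have hd : Continuous (fun p : ℝ × E4 => p.1) := continuous_fst
  have h : ∀ f : E4 → ℝ, ContDiff ℝ ∞ f → Continuous (fun p : ℝ × E4 => f p.2) := fun f hf =>
    hf.continuous.comp continuous_snd
  have ha1 := h a1 cd_a1
  have ha2 := h a2 cd_a2
  have ha3 := h a3 cd_a3
  have hb1 := h b1 cd_b1
  have hb2 := h b2 cd_b2
  have hb3 := h b3 cd_b3
  have hc1 := h c1 cd_c1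
  have hc2 := h c2 cd_c2
  have hc3 := h c3 cd_c3
  have hs := h sq cd_sq
  fin_cases i
  · show Continuous (fun p : ℝ × E4 => r3 * CC p.1 * (a1 p.2 * a2 p.2) +
      p.1 * (b1 p.2 * b2 p.2 - c1 p.2 * c2 p.2))
    fun_prop
  · show Continuous (fun p : ℝ × E4 => r3 * CC p.1 * (a1 p.2 * a3 p.2) +
      p.1 * (b1 p.2 * b3 p.2 - c1 p.2 * c3 p.2))
    fun_prop
  · show Continuous (fun p : ℝ × E4 => r3 * CC p.1 * (a2 p.2 * a3 p.2) +
      p.1 * (b2 p.2 * b3 p.2 - c2 p.2 * c3 p.2))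
    fun_prop
  · show Continuous (fun p : ℝ × E4 => (r3 * CC p.1 * (a1 p.2 ^ 2 - a2 p.2 ^ 2) +
      p.1 * ((b1 p.2 ^ 2 - c1 p.2 ^ 2) - (b2 p.2 ^ 2 - c2 p.2 ^ 2))) / 2)
    fun_prop
  · show Continuous (fun p : ℝ × E4 => -(CC p.1 * (3 * a3 p.2 ^ 2 - sq p.2 ^ 2) +
      r3 * p.1 * (b3 p.2 ^ 2 - c3 p.2 ^ 2)) / 2)
    fun_prop

lemma unit_eq : {w : E4 | sq w = 1} = sphere (0 : E4) 1 := by
  ext w
  rw [mem_ofPred_eq, mem_sphere_zero_iff_norm, sq_eq]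
  exact pow_eq_one_iff_of_nonneg (norm_nonneg _) two_ne_zero

lemma isClosed_AA {I : Set ℝ} (hI : IsCompact I) : IsClosed (AA I) := by
  have h1 : IsCompact (nf '' (I ×ˢ {w : E4 | sq w = 1})) := by
    refine (hI.prod ?_).image cont_nf
    rw [unit_eq]
    exact isCompact_sphere 0 1
  have h2 : AA I = ist ⁻¹' (nf '' (I ×ˢ {w : E4 | sq w = 1})) := by
    ext y
    constructor
    · rintro ⟨w, hw, d, hd, h⟩
      exact ⟨(d, w), ⟨hd, hw⟩, h.symm⟩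
    · rintro ⟨⟨d, w⟩, ⟨hd, hw⟩, h⟩
      exact ⟨w, hw, d, hd, h.symm⟩
  rw [h2]
  exact h1.isClosed.preimage cd_ist.continuous

lemma le_CC {d : ℝ} (h0 : 0 ≤ d) (h1 : 4 * d ^ 2 ≤ 3) : d ≤ r3 * CC d := by
  have h3 := r3_sq
  have hd1 : d ≤ 1 := by nlinarith
  have h4 := CC_sq h0 hd1
  have h5 : 0 ≤ r3 * CC d := mul_nonneg r3_pos.le (CC_nonneg d)
  have h6 : d ^ 2 ≤ (r3 * CC d) ^ 2 := by
    rw [mul_pow, h3]
    nlinarith
  exact (pow_le_pow_iff_left₀ h0 h5 two_ne_zero).1 h6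

lemma d_unique {d d' : ℝ} {x x' : E4} (hd : 0 ≤ d) (hd1 : 4 * d ^ 2 ≤ 3) (hd' : 0 ≤ d')
    (hd1' : 4 * d' ^ 2 ≤ 3) (hx : sq x = 1) (hx' : sq x' = 1)
    (h : qv (CC d) d x = qv (CC d') d' x') : d = d' := by
  have h1 := (le_of_qv_eq hx hx' (le_CC hd hd1) hd (CC_nonneg d) h).1
  have h2 := (le_of_qv_eq hx' hx (le_CC hd' hd1') hd' (CC_nonneg d') h.symm).1
  have h3 : CC d = CC d' := le_antisymm h2 h1
  have h4 := CC_sq hd (by nlinarith)
  have h5 := CC_sq hd' (by nlinarith)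
  have h6 : d ^ 2 = d' ^ 2 := by rw [h3] at h4; linarith
  exact (pow_left_inj₀ hd hd' two_ne_zero).1 h6

lemma AA_unique {I J : Set ℝ} (hI : I ⊆ Iful) (hJ : J ⊆ Iful) {y : E4} (h1 : y ∈ AA I)
    (h2 : y ∈ AA J) : ∃ d ∈ I, d ∈ J := by
  obtain ⟨w, hw, d, hd, h⟩ := h1
  obtain ⟨w', hw', d', hd', h'⟩ := h2
  have h3 := d_unique (hI hd).1 (hI hd).2 (hJ hd').1 (hJ hd').2 hw hw' (h.symm.trans h')
  exact ⟨d, hd, h3 ▸ hd'⟩

lemma ist_unit (y : E4) :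
    ist y 0 ^ 2 + ist y 1 ^ 2 + ist y 2 ^ 2 + ist y 3 ^ 2 + ist y 4 ^ 2 = 1 := by
  have h : 1 + sq y ≠ 0 := by have := sq_nonneg' y; positivity
  show (2 * y 0 / (1 + sq y)) ^ 2 + (2 * y 1 / (1 + sq y)) ^ 2 + (2 * y 2 / (1 + sq y)) ^ 2 +
    (2 * y 3 / (1 + sq y)) ^ 2 + ((sq y - 1) / (1 + sq y)) ^ 2 = 1
  have e2 : ∀ D z : ℝ, (2 * y 0 / D) ^ 2 + (2 * y 1 / D) ^ 2 + (2 * y 2 / D) ^ 2 +
      (2 * y 3 / D) ^ 2 + (z / D) ^ 2 =
      (4 * (y 0 ^ 2 + y 1 ^ 2 + y 2 ^ 2 + y 3 ^ 2) + z ^ 2) / D ^ 2 := by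
    intro D z
    ring
  have e : y 0 ^ 2 + y 1 ^ 2 + y 2 ^ 2 + y 3 ^ 2 = sq y := rfl
  rw [e2, e, div_eq_one_iff_eq (by positivity)]
  ring

lemma ist_lt (y : E4) : ist y 4 < 1 := by
  have h := sq_nonneg' y
  show (sq y - 1) / (1 + sq y) < 1
  rw [div_lt_one (by positivity)]
  linarith

lemma AA_univ (y : E4) : y ∈ AA Iful := by
  obtain ⟨C, d, x, hx, hC, hd, hdC, hC0, h⟩ := qv_surj (ist y) (ist_unit y)
  have h3 := r3_sq
  have h3p := r3_pos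
  have hCC : CC d = C := by
    unfold CC
    rw [show 1 - d ^ 2 = C ^ 2 by linarith]
    exact Real.sqrt_sq hC0
  refine ⟨x, hx, d, ⟨hd, ?_⟩, by rw [hCC, h]⟩
  have : d ^ 2 ≤ (r3 * C) ^ 2 := pow_le_pow_left₀ hd hdC 2
  rw [mul_pow, h3] at this
  linarith

lemma AA_mono {I J : Set ℝ} (h : I ⊆ J) : AA I ⊆ AA J := by
  rintro y ⟨w, hw, d, hd, e⟩
  exact ⟨w, hw, d, h hd, e⟩

lemma AA_union (I J : Set ℝ) : AA (I ∪ J) = AA I ∪ AA J := by
  ext y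
  constructor
  · rintro ⟨w, hw, d, hd | hd, e⟩
    · exact Or.inl ⟨w, hw, d, hd, e⟩
    · exact Or.inr ⟨w, hw, d, hd, e⟩
  · rintro (h | h)
    · exact AA_mono subset_union_left h
    · exact AA_mono subset_union_right h

lemma AA_compl {I : Set ℝ} (hI : I ⊆ Iful) : AA (Iful \ I) = (AA I)ᶜ := by
  ext y
  constructor
  · intro h1 h2
    obtain ⟨d, hd, hd'⟩ := AA_unique hI sdiff_subset h2 h1
    exact hd'.2 hd
  · intro h
    obtain ⟨w, hw, d, hd, e⟩ := AA_univ y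
    refine ⟨w, hw, d, ⟨hd, fun h1 => h ⟨w, hw, d, h1, e⟩⟩, e⟩

lemma isOpen_AA {I : Set ℝ} (hI : I ⊆ Iful) (hc : IsCompact (Iful \ I)) : IsOpen (AA I) := by
  have h := isClosed_AA hc
  rw [AA_compl hI, isClosed_compl_iff] at h
  exact h

lemma nf_lt {p : ℝ × E4} (h0 : 0 ≤ p.1) (h1 : 4 * p.1 ^ 2 < 3) (h2 : sq p.2 = 1) : nf p 4 < 1 :=
  q5_lt h2 h0 (CC_sq h0 (by nlinarith)) (CC_nonneg _) (lt_CC h0 h1)

lemma nf_unit {p : ℝ × E4} (h0 : 0 ≤ p.1) (h1 : 4 * p.1 ^ 2 ≤ 3) (h2 : sq p.2 = 1) :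
    nf p 0 ^ 2 + nf p 1 ^ 2 + nf p 2 ^ 2 + nf p 3 ^ 2 + nf p 4 ^ 2 = 1 :=
  qv_unit h2 (CC_sq h0 (by nlinarith))

lemma contOn_stnf : ContinuousOn (fun p : ℝ × E4 => st (nf p))
    ({d | 0 ≤ d ∧ 4 * d ^ 2 < 3} ×ˢ {w : E4 | sq w = 1}) := by
  rintro p ⟨⟨h0, h1⟩, h2⟩
  exact (ContinuousAt.comp (cd_st (nf_lt h0 h1 h2).ne).continuousAt
    cont_nf.continuousAt).continuousWithinAt

lemma AA_eq_image {I : Set ℝ} (hI : I ⊆ {d | 0 ≤ d ∧ 4 * d ^ 2 < 3}) :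
    AA I = (fun p : ℝ × E4 => st (nf p)) '' (I ×ˢ {w : E4 | sq w = 1}) := by
  ext y
  constructor
  · rintro ⟨w, hw, d, hd, e⟩
    refine ⟨(d, w), ⟨hd, hw⟩, ?_⟩
    show st (qv (CC d) d w) = y
    rw [← e, st_ist]
  · rintro ⟨⟨d, w⟩, ⟨hd, hw⟩, rfl⟩
    refine ⟨w, hw, d, hd, ?_⟩
    exact ist_st _ (nf_unit (p := (d, w)) (hI hd).1 (hI hd).2.le hw)
      (nf_lt (p := (d, w)) (hI hd).1 (hI hd).2 hw).ne

lemma isCompact_AA {I : Set ℝ} (hc : IsCompact I) (hI : I ⊆ {d | 0 ≤ d ∧ 4 * d ^ 2 < 3}) :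
    IsCompact (AA I) := by
  rw [AA_eq_image hI]
  refine IsCompact.image_of_continuousOn (hc.prod ?_) (contOn_stnf.mono (prod_mono hI subset_rfl))
  rw [unit_eq]
  exact isCompact_sphere 0 1

lemma isConnected_unit : IsConnected {w : E4 | sq w = 1} := by
  rw [unit_eq]
  refine isConnected_sphere ?_ 0 zero_le_one
  rw [← Module.finrank_eq_rank, finrank_euclideanSpace_fin]
  norm_num

lemma isConnected_AA {I : Set ℝ} (hc : IsConnected I) (hI : I ⊆ {d | 0 ≤ d ∧ 4 * d ^ 2 < 3}) :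
    IsConnected (AA I) := by
  rw [AA_eq_image hI]
  exact (hc.prod isConnected_unit).image _ (contOn_stnf.mono (prod_mono hI subset_rfl))

lemma isConnected_outer : IsConnected (AA (Icc (1 / 2) (r3 / 2))) := by
  have h3 := r3_sq
  have h3p := r3_pos
  have hlt : (1 / 2 : ℝ) < r3 / 2 := by nlinarith
  have h1 : IsConnected (AA (Ico (1 / 2) (r3 / 2))) := by
    refine isConnected_AA (isConnected_Ico hlt) ?_
    rintro d ⟨hd0, hd1⟩
    exact ⟨by linarith, by nlinarith⟩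
  refine h1.subset_closure (AA_mono Ico_subset_Icc_self) ?_
  rintro y ⟨w, hw, d, hd, e⟩
  have h2 : ContinuousAt (fun t : ℝ => st (nf (t, w))) d := by
    have h4 : nf (d, w) 4 ≠ 1 := by
      have : nf (d, w) = ist y := e.symm
      rw [this]
      exact (ist_lt y).ne
    have h5 : ContinuousAt (fun t : ℝ => nf (t, w)) d :=
      (cont_nf.comp (continuous_id.prodMk continuous_const)).continuousAt
    exact ContinuousAt.comp (g := st) (f := fun t : ℝ => nf (t, w)) (cd_st h4).continuousAt h5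
  have h6 : d ∈ closure (Ico (1 / 2) (r3 / 2)) := by
    rw [closure_Ico hlt.ne]
    exact hd
  have h7 := h2.continuousWithinAt.mem_closure_image (s := Ico (1 / 2) (r3 / 2)) h6
  have h8 : st (nf (d, w)) = y := by
    show st (qv (CC d) d w) = y
    rw [← e, st_ist]
  rw [h8] at h7
  refine closure_mono ?_ h7
  rintro _ ⟨t, ht, rfl⟩
  refine ⟨w, hw, t, ht, ?_⟩
  have ht0 : 0 ≤ t := by linarith [ht.1]
  have ht1 : 4 * t ^ 2 < 3 := by nlinarith [ht.1, ht.2]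
  exact ist_st _ (nf_unit (p := (t, w)) ht0 ht1.le hw) (nf_lt (p := (t, w)) ht0 ht1 hw).ne

/-! ### The image of the covering map -/

lemma dd_mem (x : E4) : dd (sq x) ∈ Iful := ⟨dd_facts.1, dd_facts.2.2.le⟩

lemma ff_mem_self {x : E4} (hx : x ≠ 0) : ff x ∈ AA {dd (sq x)} :=
  ⟨‖x‖⁻¹ • x, sq_unit hx, _, rfl, by rw [ist_ff hx, Nn_eq hx]⟩

lemma ff_mem_iff {x : E4} (hx : x ≠ 0) {I : Set ℝ} (hI : I ⊆ Iful) :
    ff x ∈ AA I ↔ dd (sq x) ∈ I := by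
  constructor
  · intro h
    obtain ⟨d, hd, hd'⟩ := AA_unique hI (singleton_subset_iff.2 (dd_mem x)) h (ff_mem_self hx)
    rw [mem_singleton_iff] at hd'
    rwa [← hd']
  · intro h
    exact AA_mono (singleton_subset_iff.2 h) (ff_mem_self hx)

lemma ff_surj {y : E4} {d : ℝ} (h0 : 0 < d) (h1 : d < 1 / 2) (hy : y ∈ AA {d}) :
    ∃ x : E4, x ≠ 0 ∧ ff x = y ∧ dd (sq x) = d := by
  obtain ⟨w, hw, d', hd', e⟩ := hy
  rw [mem_singleton_iff] at hd'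
  subst hd'
  set s : ℝ := 2 * d' / (1 - 2 * d') with hs
  have h2 : 0 < 1 - 2 * d' := by linarith
  have hs0 : 0 < s := by positivity
  have hdd : dd s = d' := by
    unfold dd
    rw [hs]
    field_simp
    ring
  have hnw : ‖w‖ = 1 := by
    have : w ∈ {w : E4 | sq w = 1} := hw
    rw [unit_eq] at this
    exact mem_sphere_zero_iff_norm.1 this
  have hx : √s • w ≠ 0 := by
    refine smul_ne_zero (Real.sqrt_pos.2 hs0).ne' ?_
    rintro rfl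
    rw [norm_zero] at hnw
    exact zero_ne_one hnw
  have hsq : sq (√s • w) = s := by
    rw [sq_smul, hw, mul_one, Real.sq_sqrt hs0.le]
  have hdir : ‖√s • w‖⁻¹ • (√s • w) = w := by
    rw [norm_smul, hnw, mul_one, Real.norm_of_nonneg (Real.sqrt_nonneg _), smul_smul,
      inv_mul_cancel₀ (Real.sqrt_pos.2 hs0).ne', one_smul]
  refine ⟨√s • w, hx, ?_, by rw [hsq, hdd]⟩
  unfold ff
  rw [Nn_eq hx, hsq, hdd, hdir, ← e, st_ist]

lemma dd_lt_iff {s t : ℝ} (hs : 0 ≤ s) (ht : 0 ≤ t) : dd s < dd t ↔ s < t := by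
  unfold dd
  rw [div_lt_div_iff₀ (by positivity) (by positivity)]
  constructor
  · intro h; nlinarith
  · intro h; nlinarith

lemma ff_eq {x y : E4} (hx : x ≠ 0) (hy : y ≠ 0) (h : ff x = ff y) : ∃ γ ∈ Q8, γ x = y := by
  have h1 : qv (CC (dd (sq x))) (dd (sq x)) (‖x‖⁻¹ • x) =
      qv (CC (dd (sq y))) (dd (sq y)) (‖y‖⁻¹ • y) := by
    rw [← Nn_eq hx, ← Nn_eq hy, ← ist_ff hx, ← ist_ff hy, h]
  have h2 := d_unique (dd_mem x).1 (dd_mem x).2 (dd_mem y).1 (dd_mem y).2 (sq_unit hx)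
    (sq_unit hy) h1
  have h3 : sq x = sq y := by
    rcases lt_trichotomy (sq x) (sq y) with h4 | h4 | h4
    · exact absurd h2 ((dd_lt_iff (sq_nonneg' _) (sq_nonneg' _)).2 h4).ne
    · exact h4
    · exact absurd h2 ((dd_lt_iff (sq_nonneg' _) (sq_nonneg' _)).2 h4).ne'
  have h4 : ‖x‖ = ‖y‖ := by
    rw [sq_eq, sq_eq] at h3
    exact (pow_left_inj₀ (norm_nonneg _) (norm_nonneg _) two_ne_zero).1 h3
  rw [← h2] at h1
  obtain ⟨γ, hγ, h5⟩ := frame_unique (sq_unit hx) (sq_unit hy) (lt_CC dd_facts.1 dd_facts.2.2)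
    (dd_pos (sq_pos hx)) (CC_nonneg _) h1
  refine ⟨γ, hγ, ?_⟩
  rw [map_smul, ← h4] at h5
  exact smul_right_injective _ (inv_ne_zero (norm_ne_zero_iff.2 hx)) h5

lemma qv_rm (C d : ℝ) (i : Fin 4) (x : E4) : qv C d (rm i x) = qv C d x := by
  funext j
  fin_cases i
  · rfl
  · fin_cases j
    · show q1 C d (rm 1 x) = q1 C d x
      simp only [q1, a1, a2, b1, b2, c1, c2, rm10, rm11, rm12, rm13]; ring
    · show q2 C d (rm 1 x) = q2 C d x
      simp only [q2, a1, a3, b1, b3, c1, c3, rm10, rm11, rm12, rm13]; ring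
    · show q3 C d (rm 1 x) = q3 C d x
      simp only [q3, a2, a3, b2, b3, c2, c3, rm10, rm11, rm12, rm13]; ring
    · show q4 C d (rm 1 x) = q4 C d x
      simp only [q4, a1, a2, b1, b2, c1, c2, rm10, rm11, rm12, rm13]; ring
    · show q5 C d (rm 1 x) = q5 C d x
      simp only [q5, a3, b3, c3, sq, rm10, rm11, rm12, rm13]; ring
  · fin_cases j
    · show q1 C d (rm 2 x) = q1 C d x
      simp only [q1, a1, a2, b1, b2, c1, c2, rm20, rm21, rm22, rm23]; ring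
    · show q2 C d (rm 2 x) = q2 C d x
      simp only [q2, a1, a3, b1, b3, c1, c3, rm20, rm21, rm22, rm23]; ring
    · show q3 C d (rm 2 x) = q3 C d x
      simp only [q3, a2, a3, b2, b3, c2, c3, rm20, rm21, rm22, rm23]; ring
    · show q4 C d (rm 2 x) = q4 C d x
      simp only [q4, a1, a2, b1, b2, c1, c2, rm20, rm21, rm22, rm23]; ring
    · show q5 C d (rm 2 x) = q5 C d x
      simp only [q5, a3, b3, c3, sq, rm20, rm21, rm22, rm23]; ring
  · fin_cases j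
    · show q1 C d (rm 3 x) = q1 C d x
      simp only [q1, a1, a2, b1, b2, c1, c2, rm30, rm31, rm32, rm33]; ring
    · show q2 C d (rm 3 x) = q2 C d x
      simp only [q2, a1, a3, b1, b3, c1, c3, rm30, rm31, rm32, rm33]; ring
    · show q3 C d (rm 3 x) = q3 C d x
      simp only [q3, a2, a3, b2, b3, c2, c3, rm30, rm31, rm32, rm33]; ring
    · show q4 C d (rm 3 x) = q4 C d x
      simp only [q4, a1, a2, b1, b2, c1, c2, rm30, rm31, rm32, rm33]; ring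
    · show q5 C d (rm 3 x) = q5 C d x
      simp only [q5, a3, b3, c3, sq, rm30, rm31, rm32, rm33]; ring

lemma ff_inv {γ : E4 ≃ₗᵢ[ℝ] E4} (hγ : γ ∈ Q8) (x : E4) : ff (γ x) = ff x := by
  have hsq : sq (γ x) = sq x := by rw [sq_eq, sq_eq, γ.norm_map]
  have hneg : ∀ C d : ℝ, ∀ z : E4, qv C d (-z) = qv C d z := by
    intro C d z
    have := qv_smul C d (-1) z
    rw [neg_one_smul] at this
    rw [this]
    norm_num
  have hqv : ∀ C d : ℝ, qv C d (γ x) = qv C d x := by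
    intro C d
    obtain ⟨i, hi | hi⟩ := hγ
    · rw [hi, qv_rm]
    · rw [hi, hneg, qv_rm]
  unfold ff Nn
  rw [hsq, hqv]

end Pool.Agent.H244R3.Orb
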